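import Mathlib

/-!
# Cubical cup products mod 2 and the theorem on partitions of the cube

`partitions_meet`: partitions between the pairs of opposite faces of a cube have a common point.
-/

set_option autoImplicit false

open Filter Topology Set

namespace Pool.Agent.GT63.Cubical

variable {ι : Type*} [DecidableEq ι]

/-- one step in direction `i` -/
def stp (v : ι → ℕ) (i : ι) : ι → ℕ := Function.update v i (v i + 1)

lemma stp_same (v : ι → ℕ) (i : ι) : stp v i i = v i + 1 := by simp [stp]

lemma stp_ne (v : ι → ℕ) {i j : ι} (h : j ≠ i) : stp v i j = v j := by simp [stp, h]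

lemma stp_comm (v : ι → ℕ) (i j : ι) (h : i ≠ j) : stp (stp v i) j = stp (stp v j) i := by
  unfold stp
  rw [Function.update_of_ne h.symm, Function.update_of_ne h, Function.update_comm h]

/-- cup product with the coboundary of a function -/
def cup (f : (ι → ℕ) → ZMod 2) (c : Finset ι → (ι → ℕ) → ZMod 2) :
    Finset ι → (ι → ℕ) → ZMod 2 :=
  fun D v => ∑ i ∈ D, (f (stp v i) - f v) * c (D.erase i) (stp v i)

/-- coboundary mod 2 -/
def cob (c : Finset ι → (ι → ℕ) → ZMod 2) : Finset ι → (ι → ℕ) → ZMod 2 :=
  fun D v => ∑ i ∈ D, (c (D.erase i) (stp v i) - c (D.erase i) v)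

lemma cob_mul (f : (ι → ℕ) → ZMod 2) (c : Finset ι → (ι → ℕ) → ZMod 2) (D : Finset ι)
    (v : ι → ℕ) : cob (fun D v => f v * c D v) D v = cup f c D v + f v * cob c D v := by
  unfold cob cup
  rw [Finset.mul_sum, ← Finset.sum_add_distrib]
  refine Finset.sum_congr rfl fun i _ => ?_
  ring

lemma cob_cob (c : Finset ι → (ι → ℕ) → ZMod 2) (D : Finset ι) (v : ι → ℕ) :
    cob (cob c) D v = 0 := by
  unfold cob
  have h1 : ∀ i ∈ D, (∑ j ∈ D.erase i, (c ((D.erase i).erase j) (stp (stp v i) j) -
      c ((D.erase i).erase j) (stp v i)) -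
      ∑ j ∈ D.erase i, (c ((D.erase i).erase j) (stp v j) - c ((D.erase i).erase j) v)) =
      ∑ j ∈ D, if i = j then 0 else
        (c ((D.erase i).erase j) (stp (stp v i) j) - c ((D.erase i).erase j) (stp v i) -
        (c ((D.erase i).erase j) (stp v j) - c ((D.erase i).erase j) v)) := by
    intro i hi
    rw [← Finset.sum_sub_distrib]
    have : D.erase i = D.filter (fun j => ¬ i = j) := by
      ext j
      simp only [Finset.mem_erase, Finset.mem_filter]
      constructor
      · rintro ⟨h1, h2⟩
        exact ⟨h2, fun h => h1 h.symm⟩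
      · rintro ⟨h1, h2⟩
        exact ⟨fun h => h2 h.symm, h1⟩
    conv_lhs => rw [show (∑ j ∈ D.erase i, (c ((D.erase i).erase j) (stp (stp v i) j) -
      c ((D.erase i).erase j) (stp v i) -
      (c ((D.erase i).erase j) (stp v j) - c ((D.erase i).erase j) v))) =
      ∑ j ∈ D.filter (fun j => ¬ i = j), (c ((D.erase i).erase j) (stp (stp v i) j) -
      c ((D.erase i).erase j) (stp v i) -
      (c ((D.erase i).erase j) (stp v j) - c ((D.erase i).erase j) v)) from
        Finset.sum_congr this fun _ _ => rfl]
    rw [Finset.sum_filter]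
    refine Finset.sum_congr rfl fun j _ => ?_
    by_cases h : i = j <;> simp [h]
  rw [Finset.sum_congr rfl h1]
  -- a symmetric double sum vanishes mod 2
  set G : ι → ι → ZMod 2 := fun i j => if i = j then 0 else
        (c ((D.erase i).erase j) (stp (stp v i) j) - c ((D.erase i).erase j) (stp v i) -
        (c ((D.erase i).erase j) (stp v j) - c ((D.erase i).erase j) v)) with hG
  have hsymm : ∀ i j, G i j = G j i := by
    intro i j
    simp only [hG]
    by_cases h : i = j
    · simp [h]
    · rw [if_neg h, if_neg (fun h' => h h'.symm), stp_comm v i j h, Finset.erase_right_comm]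
      ring
  have hdiag : ∀ i, G i i = 0 := fun i => by simp [hG]
  show ∑ i ∈ D, ∑ j ∈ D, G i j = 0
  clear_value G
  clear h1 hG
  induction D using Finset.induction_on with
  | empty => simp
  | insert a s ha ih =>
    rw [Finset.sum_insert ha, Finset.sum_insert ha, hdiag]
    have : ∑ i ∈ s, ∑ j ∈ insert a s, G i j = ∑ i ∈ s, G i a + ∑ i ∈ s, ∑ j ∈ s, G i j := by
      rw [← Finset.sum_add_distrib]
      exact Finset.sum_congr rfl fun i _ => Finset.sum_insert ha
    rw [this, ih, zero_add, add_zero, Finset.sum_congr rfl (fun i _ => hsymm i a)]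
    exact CharTwo.add_self_eq_zero _

/-- iterated cup product of coboundaries -/
def cups (f : ι → (ι → ℕ) → ZMod 2) : List ι → Finset ι → (ι → ℕ) → ZMod 2
  | [] => fun D _ => if D = ∅ then 1 else 0
  | (j :: l) => cup (f j) (cups f l)

lemma cob_cups (f : ι → (ι → ℕ) → ZMod 2) (l : List ι) (D : Finset ι) (v : ι → ℕ) :
    cob (cups f l) D v = 0 := by
  induction l generalizing D v with
  | nil =>
    unfold cob cups
    exact Finset.sum_eq_zero fun i _ => sub_self _
  | cons j l ih =>
    have h1 : cups f (j :: l) = cob (fun D v => f j v * cups f l D v) := by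
      funext D v
      rw [cob_mul, ih, mul_zero, add_zero]
      rfl
    rw [h1]
    exact cob_cob _ _ _

lemma cups_cons (f : ι → (ι → ℕ) → ZMod 2) (j : ι) (l : List ι) (D : Finset ι) (v : ι → ℕ) :
    cups f (j :: l) D v = cob (fun D v => f j v * cups f l D v) D v := by
  rw [cob_mul, cob_cups, mul_zero, add_zero]
  rfl

/-- If some function is constant on the cube, the product vanishes there. -/
lemma cups_eq_zero (f : ι → (ι → ℕ) → ZMod 2) (l : List ι) (j : ι) (hj : j ∈ l) (D : Finset ι)
    (v : ι → ℕ)
    (hc : ∀ w : ι → ℕ, (∀ i, i ∈ D → w i = v i ∨ w i = v i + 1) → (∀ i, i ∉ D → w i = v i) →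
      f j w = f j v) : cups f l D v = 0 := by
  induction l generalizing D v with
  | nil => simp at hj
  | cons k l ih =>
    show cup (f k) (cups f l) D v = 0
    unfold cup
    refine Finset.sum_eq_zero fun i hi => ?_
    have hstp : f j (stp v i) = f j v := by
      apply hc
      · intro i' _
        by_cases h : i' = i
        · subst h; right; exact stp_same v i'
        · left; exact stp_ne v h
      · intro i' hi'
        have : i' ≠ i := fun h => hi' (h ▸ hi)
        exact stp_ne v this
    by_cases hjk : j = k
    · subst hjk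
      rw [hstp, sub_self, zero_mul]
    · have hjl : j ∈ l := by
        rcases List.mem_cons.1 hj with h | h
        · exact absurd h hjk
        · exact h
      rw [ih hjl (D.erase i) (stp v i) ?_, mul_zero]
      intro w h1 h2
      rw [hstp]
      apply hc
      · intro i' hi'
        by_cases h : i' = i
        · subst h
          right
          rw [h2 i' (Finset.notMem_erase _ _), stp_same]
        · have := h1 i' (Finset.mem_erase.2 ⟨h, hi'⟩)
          rwa [stp_ne v h] at this
      · intro i' hi'
        have h3 : i' ≠ i := fun h => hi' (h ▸ hi)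
        have := h2 i' (fun h => hi' (Finset.mem_of_mem_erase h))
        rwa [stp_ne v h3] at this

variable [Fintype ι]

/-- The box of base points for the direction set `D`. -/
def box (N : ℕ) (D : Finset ι) : Finset (ι → ℕ) :=
  Fintype.piFinset fun i => if i ∈ D then Finset.range N else {N}

lemma mem_box {N : ℕ} {D : Finset ι} {v : ι → ℕ} :
    v ∈ box N D ↔ ∀ i, (i ∈ D → v i < N) ∧ (i ∉ D → v i = N) := by
  unfold box
  rw [Fintype.mem_piFinset]
  refine forall_congr' fun i => ?_
  by_cases h : i ∈ D <;> simp [h]

lemma sum_box (N : ℕ) (D : Finset ι) (i : ι) (hi : i ∈ D) (h : (ι → ℕ) → ZMod 2) :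
    ∑ v ∈ box N D, h v = ∑ u ∈ box N (D.erase i), ∑ k ∈ Finset.range N,
      h (Function.update u i k) := by
  rw [← Finset.sum_product']
  refine Finset.sum_bij' (fun v _ => (Function.update v i N, v i))
    (fun p _ => Function.update p.1 i p.2) ?_ ?_ ?_ ?_ ?_
  · intro v hv
    rw [mem_box] at hv
    simp only [Finset.mem_product, Finset.mem_range]
    refine ⟨mem_box.2 fun j => ⟨fun hj => ?_, fun hj => ?_⟩, (hv i).1 hi⟩
    · have := Finset.mem_erase.1 hj
      rw [Function.update_of_ne this.1]
      exact (hv j).1 this.2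
    · by_cases hji : j = i
      · subst hji; simp
      · rw [Function.update_of_ne hji]
        exact (hv j).2 (fun h => hj (Finset.mem_erase.2 ⟨hji, h⟩))
  · intro p hp
    simp only [Finset.mem_product, Finset.mem_range] at hp
    have hp1 := mem_box.1 hp.1
    refine mem_box.2 fun j => ⟨fun hj => ?_, fun hj => ?_⟩
    · by_cases hji : j = i
      · subst hji; simpa using hp.2
      · rw [Function.update_of_ne hji]
        exact (hp1 j).1 (Finset.mem_erase.2 ⟨hji, hj⟩)
    · have hji : j ≠ i := fun h => hj (h ▸ hi)
      rw [Function.update_of_ne hji]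
      exact (hp1 j).2 (fun h => hj (Finset.mem_of_mem_erase h))
  · intro v _
    simp
  · intro p hp
    simp only [Finset.mem_product, Finset.mem_range] at hp
    have hp1 := (mem_box.1 hp.1 i).2 (Finset.notMem_erase _ _)
    ext
    · simp only [Function.update_idem]
      rw [← hp1, Function.update_eq_self]
    · simp
  · intro v _
    simp

lemma sum_box_tel (N : ℕ) (D : Finset ι) (i : ι) (hi : i ∈ D) (h : (ι → ℕ) → ZMod 2) :
    ∑ v ∈ box N D, (h (stp v i) - h v) =
      ∑ u ∈ box N (D.erase i), (h u - h (Function.update u i 0)) := by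
  rw [sum_box N D i hi]
  refine Finset.sum_congr rfl fun u hu => ?_
  have h1 : ∀ k, stp (Function.update u i k) i = Function.update u i (k + 1) := by
    intro k
    simp [stp]
  simp only [h1]
  rw [Finset.sum_range_sub (fun k => h (Function.update u i k))]
  have h2 := (mem_box.1 hu i).2 (Finset.notMem_erase _ _)
  rw [← h2, Function.update_eq_self]

/-- The total of the cup product over the box is one. -/
theorem sum_cups (N : ℕ) (f : ι → (ι → ℕ) → ZMod 2)
    (h0 : ∀ i v, v i = 0 → f i v = 0) (h1 : ∀ i v, v i = N → f i v = 1)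
    (l : List ι) (hl : l.Nodup) : ∑ v ∈ box N l.toFinset, cups f l l.toFinset v = 1 := by
  induction l with
  | nil =>
    have : box N (∅ : Finset ι) = {fun _ => N} := by
      ext v
      rw [mem_box]
      simp [funext_iff]
    simp [this, cups]
  | cons j l ih =>
    rw [List.nodup_cons] at hl
    set D := (j :: l).toFinset with hD
    have hjl : j ∉ l.toFinset := by simpa using hl.1
    have hDe : D.erase j = l.toFinset := by
      rw [hD, List.toFinset_cons, Finset.erase_insert hjl]
    have e1 : ∑ v ∈ box N D, cups f (j :: l) D v = ∑ i ∈ D, ∑ u ∈ box N (D.erase i),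
        (f j u * cups f l (D.erase i) u -
          f j (Function.update u i 0) * cups f l (D.erase i) (Function.update u i 0)) := by
      have : ∀ v ∈ box N D, cups f (j :: l) D v = ∑ i ∈ D,
          (f j (stp v i) * cups f l (D.erase i) (stp v i) - f j v * cups f l (D.erase i) v) := by
        intro v _
        rw [cups_cons]
        rfl
      rw [Finset.sum_congr rfl this, Finset.sum_comm]
      refine Finset.sum_congr rfl fun i hi => ?_
      exact sum_box_tel N D i hi (fun v => f j v * cups f l (D.erase i) v)
    rw [e1, Finset.sum_eq_single_of_mem j (by simp [hD])]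
    · rw [hDe, ← ih hl.2]
      refine Finset.sum_congr rfl fun u hu => ?_
      have h2 := (mem_box.1 hu j).2 hjl
      rw [h1 j u h2, h0 j (Function.update u j 0) (by simp)]
      ring
    · intro i hi hij
      refine Finset.sum_eq_zero fun u hu => ?_
      have hil : i ∈ l := by
        have : i ∈ (j :: l) := by simpa [hD] using hi
        rcases List.mem_cons.1 this with h | h
        · exact absurd h hij
        · exact h
      have hui := (mem_box.1 hu i).2 (Finset.notMem_erase _ _)
      rw [cups_eq_zero f l i hil (D.erase i) u, cups_eq_zero f l i hil (D.erase i)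
        (Function.update u i 0)]
      · ring
      · intro w _ h3
        have h4 := h3 i (Finset.notMem_erase _ _)
        rw [Function.update_self] at h4
        rw [h0 i w h4, h0 i (Function.update u i 0) (by simp)]
      · intro w _ h3
        have h4 := h3 i (Finset.notMem_erase _ _)
        rw [h1 i w (h4.trans hui), h1 i u hui]

/-- Discrete form: there is a small cube on which no function is constant. -/
theorem exists_cube (N : ℕ) (f : ι → (ι → ℕ) → ZMod 2)
    (h0 : ∀ i v, v i = 0 → f i v = 0) (h1 : ∀ i v, v i = N → f i v = 1) :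
    ∃ v : ι → ℕ, (∀ i, v i < N) ∧ ∀ j, ∃ w : ι → ℕ, (∀ i, w i = v i ∨ w i = v i + 1) ∧
      f j w ≠ f j v := by
  have hs := sum_cups N f h0 h1 (Finset.univ : Finset ι).toList (Finset.nodup_toList _)
  have hne : ∑ v ∈ box N (Finset.univ : Finset ι).toList.toFinset,
      cups f (Finset.univ : Finset ι).toList (Finset.univ : Finset ι).toList.toFinset v ≠ 0 := by
    rw [hs]; exact one_ne_zero
  obtain ⟨v, hv, hne⟩ := Finset.exists_ne_zero_of_sum_ne_zero hne
  rw [mem_box] at hv
  refine ⟨v, fun i => (hv i).1 (by simp), fun j => ?_⟩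
  by_contra hcon
  push Not at hcon
  apply hne
  apply cups_eq_zero f _ j (by simp)
  intro w h2 _
  exact hcon w fun i => h2 i (by simp)

/-- The theorem on partitions of the cube (a form of the Poincaré–Miranda theorem). -/
theorem partitions_meet (U V : ι → Set (ι → unitInterval))
    (hU : ∀ i, IsOpen (U i)) (hV : ∀ i, IsOpen (V i)) (hUV : ∀ i, Disjoint (U i) (V i))
    (hU0 : ∀ i x, x i = 0 → x ∈ U i) (hV1 : ∀ i x, x i = 1 → x ∈ V i) :
    ∃ x, ∀ i, x ∉ U i ∧ x ∉ V i := by
  classical
  by_contra hcon
  push Not at hcon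
  -- the clamping map
  set pr : (ι → ℝ) → (ι → unitInterval) := fun x i => Set.projIcc 0 1 zero_le_one (x i) with hpr
  have hprc : Continuous pr := continuous_pi fun i => continuous_projIcc.comp (continuous_apply i)
  have hcpt : IsCompact (Set.Icc (0 : ι → ℝ) 1) := isCompact_Icc
  obtain ⟨δ, hδ, hleb⟩ := lebesgue_number_lemma_of_metric (c := fun i => pr ⁻¹' (U i ∪ V i)) hcpt
    (fun i => ((hU i).union (hV i)).preimage hprc) (by
      intro x _
      obtain ⟨i, hi⟩ : ∃ i, pr x ∈ U i ∪ V i := by
        by_contra hno
        push Not at hno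
        obtain ⟨i, hi⟩ := hcon (pr x)
        have h3 := hno i
        simp only [mem_union, not_or] at h3
        exact h3.2 (hi h3.1)
      exact mem_iUnion.2 ⟨i, hi⟩)
  obtain ⟨N, hN⟩ := exists_nat_one_div_lt hδ
  -- grid points
  set M : ℕ := N + 1 with hM
  have hMpos : (0 : ℝ) < M := by simp [hM]; positivity
  set p : (ι → ℕ) → (ι → ℝ) := fun v i => (v i : ℝ) / M with hp
  set f : ι → (ι → ℕ) → ZMod 2 := fun j v => if pr (p v) ∈ V j then 1 else 0 with hf
  obtain ⟨v, hv, hw⟩ := exists_cube M f (by
    intro i v hvi
    simp only [hf]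
    rw [if_neg]
    intro hmem
    refine Set.disjoint_left.1 (hUV i) (hU0 i _ ?_) hmem
    simp only [hpr, hp, hvi, Nat.cast_zero, zero_div]
    apply Subtype.ext
    simp [Set.coe_projIcc]) (by
    intro i v hvi
    simp only [hf]
    rw [if_pos]
    apply hV1
    simp only [hpr, hp, hvi]
    rw [div_self hMpos.ne']
    apply Subtype.ext
    simp [Set.coe_projIcc])
  have hmemIcc : p v ∈ Set.Icc (0 : ι → ℝ) 1 := by
    refine ⟨fun i => ?_, fun i => ?_⟩
    · simp only [hp, Pi.zero_apply]; positivity
    · simp only [hp, Pi.one_apply]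
      rw [div_le_one hMpos]
      exact_mod_cast (hv i).le
  obtain ⟨j, hj⟩ := hleb (p v) hmemIcc
  obtain ⟨w, hwv, hne⟩ := hw j
  have hwball : p w ∈ Metric.ball (p v) δ := by
    rw [Metric.mem_ball, dist_pi_lt_iff hδ]
    intro i
    simp only [hp, Real.dist_eq]
    rcases hwv i with h | h
    · rw [h]; simpa using hδ
    · rw [h]
      have : ((v i + 1 : ℕ) : ℝ) / M - (v i : ℝ) / M = 1 / M := by
        push_cast; field_simp; ring
      rw [this, abs_of_pos (by positivity)]
      simpa [hM] using hN
  have hvball : p v ∈ Metric.ball (p v) δ := Metric.mem_ball_self hδ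
  have hpre : IsPreconnected (pr '' Metric.ball (p v) δ) :=
    ((convex_ball (p v) δ).isPreconnected).image _ hprc.continuousOn
  have hsub : pr '' Metric.ball (p v) δ ⊆ U j ∪ V j := by
    rintro _ ⟨y, hy, rfl⟩
    exact hj hy
  have hcase := hpre.subset_or_subset (hU j) (hV j) (hUV j) hsub
  apply hne
  simp only [hf]
  rcases hcase with h | h
  · rw [if_neg, if_neg]
    · exact fun hmem => Set.disjoint_left.1 (hUV j) (h ⟨_, hvball, rfl⟩) hmem
    · exact fun hmem => Set.disjoint_left.1 (hUV j) (h ⟨_, hwball, rfl⟩) hmem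
  · rw [if_pos (h ⟨_, hwball, rfl⟩), if_pos (h ⟨_, hvball, rfl⟩)]

end Pool.Agent.GT63.Cubical
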