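import Mathlib

/-!
Sequentially continuous functions on the Cantor cube with `ω₁` coordinates are continuous.
(A theorem going back to Mazur; here an elementary proof through an Ulam matrix.)
-/

set_option autoImplicit false

open Filter Topology Set

namespace Pool.Agent.GT63

variable {I : Type*}

/-- Pointwise convergence in `I → Bool`. -/
lemma tendsto_bool_pi {u : ℕ → (I → Bool)} {x : I → Bool} :
    Tendsto u atTop (𝓝 x) ↔ ∀ i, ∀ᶠ n in atTop, u n i = x i := by
  rw [tendsto_pi_nhds]
  refine forall_congr' fun i => ?_
  rw [nhds_discrete, tendsto_pure]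

/-- Exhaustivity for points which differ from a base point in countably many coordinates. -/
lemma exhaust (f : (I → Bool) → ℝ) (hf : SeqContinuous f) (x : I → Bool) (ε : ℝ) (hε : 0 < ε)
    (F G : ℕ → (I → Bool))
    (hF : ∀ k, {i | F k i ≠ x i}.Countable) (hG : ∀ k, {i | G k i ≠ x i}.Countable)
    (hd : ∀ k l, k < l → ∀ i, F k i ≠ G k i → F l i = G l i) :
    ∃ k, |f (F k) - f (G k)| < ε := by
  by_contra hcon
  push Not at hcon
  set C : Set I := ⋃ k, ({i | F k i ≠ x i} ∪ {i | G k i ≠ x i}) with hC
  have hCc : C.Countable := countable_iUnion fun k => (hF k).union (hG k)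
  have : Countable C := hCc.to_subtype
  obtain ⟨a, -, φ, hφ, ha⟩ := (isCompact_univ (X := C → Bool)).tendsto_subseq
    (x := fun k (i : C) => F k i) (fun _ => mem_univ _)
  classical
  set L : I → Bool := fun i => if h : i ∈ C then a ⟨i, h⟩ else x i with hL
  have hFL : Tendsto (F ∘ φ) atTop (𝓝 L) := by
    rw [tendsto_bool_pi]
    intro i
    by_cases hi : i ∈ C
    · have := (tendsto_bool_pi.1 ha) ⟨i, hi⟩
      filter_upwards [this] with n hn
      simp only [hL, hi, dif_pos]
      simpa using hn
    · refine Eventually.of_forall fun n => ?_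
      simp only [hL, hi, dif_neg, not_false_eq_true]
      by_contra h
      exact hi (mem_iUnion.2 ⟨φ n, Or.inl h⟩)
  have hGL : Tendsto (G ∘ φ) atTop (𝓝 L) := by
    rw [tendsto_bool_pi] at hFL ⊢
    intro i
    have h1 := hFL i
    have h2 : ∀ᶠ n in atTop, F (φ n) i = G (φ n) i := by
      by_cases h : ∃ k, F k i ≠ G k i
      · obtain ⟨k, hk⟩ := h
        filter_upwards [eventually_gt_atTop k] with n hn
        exact hd k (φ n) (lt_of_lt_of_le hn (hφ.id_le n)) i hk
      · push Not at h
        exact Eventually.of_forall fun n => h _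
    filter_upwards [h1, h2] with n hn1 hn2
    simp only [Function.comp] at hn1 ⊢
    rw [← hn2, hn1]
  have h1 := (hf hFL).sub (hf hGL)
  rw [sub_self] at h1
  have h2 := h1.abs
  rw [abs_zero] at h2
  have h3 := h2.eventually (gt_mem_nhds hε)
  obtain ⟨n, hn⟩ := h3.exists
  exact absurd hn (not_lt.2 (hcon (φ n)))

/-- Around every base point, `f` depends on countably many coordinates only, as far as points
which differ from the base point in countably many coordinates are concerned. -/
lemma countable_dep (f : (I → Bool) → ℝ) (hf : SeqContinuous f) (x : I → Bool) :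
    ∃ A : Set I, A.Countable ∧ ∀ F G : I → Bool, {i | F i ≠ x i}.Countable →
      {i | G i ≠ x i}.Countable → (∀ i ∈ A, F i = G i) → f F = f G := by
  have key : ∀ ε : ℝ, 0 < ε → ∃ A : Set I, A.Countable ∧ ∀ F G : I → Bool,
      {i | F i ≠ x i}.Countable → {i | G i ≠ x i}.Countable → (∀ i ∈ A, F i = G i) →
      |f F - f G| < ε := by
    intro ε hε
    by_contra hcon
    push Not at hcon
    have hcon' : ∀ A : {A : Set I // A.Countable}, ∃ P : (I → Bool) × (I → Bool),
        {i | P.1 i ≠ x i}.Countable ∧ {i | P.2 i ≠ x i}.Countable ∧ (∀ i ∈ A.1, P.1 i = P.2 i) ∧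
        ε ≤ |f P.1 - f P.2| := by
      rintro ⟨A, hA⟩
      obtain ⟨F, G, h1, h2, h3, h4⟩ := hcon A hA
      exact ⟨(F, G), h1, h2, h3, h4⟩
    choose P hP1 hP2 hP3 hP4 using hcon'
    let step : {A : Set I // A.Countable} → {A : Set I // A.Countable} := fun A =>
      ⟨A.1 ∪ ({i | (P A).1 i ≠ x i} ∪ {i | (P A).2 i ≠ x i}),
        A.2.union ((hP1 A).union (hP2 A))⟩
    let S : ℕ → {A : Set I // A.Countable} := fun n => step^[n] ⟨∅, countable_empty⟩
    have hS : ∀ n, S (n + 1) = step (S n) := fun n => Function.iterate_succ_apply' _ _ _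
    have hmono : Monotone fun n => (S n).1 := by
      refine monotone_nat_of_le_succ fun n => ?_
      rw [hS]
      exact subset_union_left
    obtain ⟨k, hk⟩ := exhaust f hf x ε hε (fun k => (P (S k)).1) (fun k => (P (S k)).2)
      (fun k => hP1 _) (fun k => hP2 _) (by
        intro k l hkl i hi
        apply hP3 (S l)
        apply hmono (Nat.succ_le_of_lt hkl)
        show i ∈ (S (k + 1)).1
        rw [hS]
        right
        by_contra hno
        simp only [mem_union, mem_ofPred_eq, not_or, not_not] at hno
        exact hi (hno.1.trans hno.2.symm))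
    exact absurd hk (not_lt.2 (hP4 _))
  choose! A hA1 hA2 using key
  refine ⟨⋃ n : ℕ, A (1 / ((n : ℝ) + 1)), countable_iUnion fun n => hA1 _ (by positivity), ?_⟩
  intro F G hF hG hFG
  by_contra hne
  have hpos : 0 < |f F - f G| := abs_pos.2 (sub_ne_zero.2 hne)
  obtain ⟨n, hn⟩ := exists_nat_one_div_lt hpos
  have := hA2 (1 / ((n : ℝ) + 1)) (by positivity) F G hF hG
    (fun i hi => hFG i (mem_iUnion.2 ⟨n, hi⟩))
  linarith

/-- Every sequentially continuous real function on `I → Bool` is continuous, if `I` carries a
linear order with countable initial segments. -/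
theorem seqContinuous_real [LinearOrder I] (hI : ∀ i : I, (Set.Iio i).Countable)
    (f : (I → Bool) → ℝ) (hf : SeqContinuous f) : Continuous f := by
  classical
  obtain ⟨A₀, hA₀c, hA₀⟩ := countable_dep f hf (fun _ => false)
  -- the retraction onto the coordinates in `A₀`
  set R : Set I → (I → Bool) → (I → Bool) := fun A b i => if i ∈ A then b i else false with hR
  have key : ∀ b : I → Bool, f b = f (R A₀ b) := by
    intro b
    obtain ⟨A₁, hA₁c, hA₁⟩ := countable_dep f hf b
    set A' : Set I := A₀ ∪ A₁ with hA'
    have hA'c : A'.Countable := hA₀c.union hA₁c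
    -- `f (R A' b) = f (R A₀ b)`
    have h1 : f (R A' b) = f (R A₀ b) := by
      apply hA₀
      · refine hA'c.mono fun i hi => ?_
        by_contra hno
        simp [hR, hno] at hi
      · refine hA₀c.mono fun i hi => ?_
        by_contra hno
        simp [hR, hno] at hi
      · intro i hi
        simp [hR, hi, hA']
    rw [← h1]
    -- the sets `w S`
    set w : Set I → (I → Bool) := fun S => R (A' ∪ S) b with hw
    have hwe : w ∅ = R A' b := by simp [hw]
    have hwc : ∀ C : Set I, C.Countable → f (w Cᶜ) = f b := by
      intro C hC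
      apply hA₁
      · refine hC.mono fun i hi => ?_
        by_contra hno
        simp [hw, hR, hno] at hi
      · simp
      · intro i hi
        simp [hw, hR, hi, hA']
    have hwt : ∀ (S : ℕ → Set I) (T : Set I), (∀ i, ∀ᶠ n in atTop, (i ∈ S n ↔ i ∈ T)) →
        Tendsto (fun n => f (w (S n))) atTop (𝓝 (f (w T))) := by
      intro S T hST
      apply hf
      rw [tendsto_bool_pi]
      intro i
      filter_upwards [hST i] with n hn
      simp [hw, hR, hn]
    rw [← hwe]
    by_contra hne
    set δ : ℝ := |f b - f (w ∅)| with hδ
    have hδpos : 0 < δ := abs_pos.2 (sub_ne_zero.2 hne)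
    -- the index set is uncountable
    have hunc : ¬ (univ : Set I).Countable := by
      intro h
      apply hne
      have := hwc univ h
      rw [compl_univ] at this
      exact this.symm
    -- the Ulam matrix
    have hinj : ∀ i : I, ∃ e : I → ℕ, InjOn e (Iio i) := fun i =>
      countable_iff_exists_injOn.1 (hI i)
    choose e he using hinj
    set V : I → ℕ → Set I := fun j n => {i | j < i ∧ e i j ≤ n} with hV
    have hrow : ∀ j, ∃ n, |f (w (V j n)) - f b| < δ / 2 := by
      intro j
      have h2 : Tendsto (fun n => f (w (V j n))) atTop (𝓝 (f (w (Iic j)ᶜ))) := by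
        apply hwt
        intro i
        filter_upwards [eventually_ge_atTop (e i j)] with n hn
        simp only [hV, mem_ofPred_eq, mem_compl_iff, mem_Iic, not_le]
        exact ⟨fun h => h.1, fun h => ⟨h, hn⟩⟩
      rw [hwc (Iic j) (by
        have : Iic j = insert j (Iio j) := by
          ext i; simp [le_iff_eq_or_lt]
        rw [this]
        exact (hI j).insert j)] at h2
      have h3 := (tendsto_iff_norm_sub_tendsto_zero.1 h2).eventually (gt_mem_nhds (half_pos hδpos))
      obtain ⟨n, hn⟩ := h3.exists
      exact ⟨n, by simpa [Real.norm_eq_abs] using hn⟩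
    choose N hN using hrow
    have hfib : ∃ n, {j | N j = n}.Infinite := by
      by_contra hcon
      push Not at hcon
      apply hunc
      have : (univ : Set I) = ⋃ n, {j | N j = n} := by
        ext j; simp
      rw [this]
      exact countable_iUnion fun n => (hcon n).countable
    obtain ⟨n, hn⟩ := hfib
    set j : ℕ → I := fun k => ((hn.natEmbedding _) k : I) with hj
    have hjinj : Function.Injective j := fun k l hkl =>
      (hn.natEmbedding _).injective (Subtype.ext hkl)
    have hjN : ∀ k, N (j k) = n := fun k => ((hn.natEmbedding _) k).2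
    have h4 : Tendsto (fun k => f (w (V (j k) n))) atTop (𝓝 (f (w ∅))) := by
      apply hwt
      intro i
      have hfin : {k | i ∈ V (j k) n}.Finite := by
        have hsub : {k | i ∈ V (j k) n} ⊆ j ⁻¹' {l | l < i ∧ e i l ≤ n} := fun k hk => hk
        refine Finite.subset (Finite.preimage hjinj.injOn ?_) hsub
        refine Finite.of_finite_image (f := e i) ?_ ?_
        · refine (finite_Iic n).subset ?_
          rintro _ ⟨l, hl, rfl⟩
          exact hl.2
        · intro a ha b hb hab
          exact he i ha.1 hb.1 hab
      have := hfin.eventually_cofinite_notMem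
      rw [Nat.cofinite_eq_atTop] at this
      filter_upwards [this] with k hk
      simpa using hk
    have h5 : Tendsto (fun k => |f (w (V (j k) n)) - f b|) atTop (𝓝 |f (w ∅) - f b|) :=
      (h4.sub_const _).abs
    have h6 : |f (w ∅) - f b| ≤ δ / 2 := by
      refine le_of_tendsto h5 (Eventually.of_forall fun k => ?_)
      have := hN (j k)
      rw [hjN k] at this
      exact this.le
    rw [abs_sub_comm] at h6
    linarith
  -- conclusion
  have : Countable A₀ := hA₀c.to_subtype
  set E : (A₀ → Bool) → (I → Bool) := fun c i => if h : i ∈ A₀ then c ⟨i, h⟩ else false with hE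
  have hEc : Continuous E := by
    refine continuous_pi fun i => ?_
    by_cases h : i ∈ A₀
    · simp only [hE, h, dif_pos]
      exact continuous_apply _
    · simp only [hE, h, dif_neg, not_false_eq_true]
      exact continuous_const
  have hfE : SeqContinuous (f ∘ E) := by
    intro u p hu
    exact hf ((hEc.tendsto p).comp hu)
  have hfE' : Continuous (f ∘ E) := hfE.continuous
  have hres : Continuous fun (b : I → Bool) (i : A₀) => b i :=
    continuous_pi fun i => continuous_apply _
  have heq : f = (f ∘ E) ∘ fun (b : I → Bool) (i : A₀) => b i := by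
    funext b
    rw [key b]
    rfl
  rw [heq]
  exact hfE'.comp hres

/-- A sequentially continuous map from `I → Bool` into a completely regular space is continuous. -/
theorem seqContinuous_completelyRegular [LinearOrder I] (hI : ∀ i : I, (Set.Iio i).Countable)
    {Y : Type*} [TopologicalSpace Y] [CompletelyRegularSpace Y]
    (f : (I → Bool) → Y) (hf : SeqContinuous f) : Continuous f := by
  rw [continuous_def]
  intro U hU
  rw [isOpen_iff_mem_nhds]
  intro x hx
  obtain ⟨g, hg, hgx, hgU⟩ := CompletelyRegularSpace.completely_regular (f x) Uᶜ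
    hU.isClosed_compl (by simpa using hx)
  have hgf : Continuous (fun z => ((g (f z)) : ℝ)) := by
    apply seqContinuous_real hI
    intro u p hu
    exact ((continuous_subtype_val.comp hg).tendsto _).comp (hf hu)
  have hopen : {z | ((g (f z)) : ℝ) < 1} ∈ 𝓝 x := by
    apply (isOpen_Iio.preimage hgf).mem_nhds
    simp [hgx]
  refine mem_of_superset hopen fun z hz => ?_
  by_contra hno
  have := hgU (show f z ∈ Uᶜ from hno)
  simp [this] at hz

/-- `I → Bool` is not sequential, if `I` is uncountable. -/
theorem not_sequential (hunc : ¬ (univ : Set I).Countable) : ¬ SequentialSpace (I → Bool) := by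
  intro hseq
  set C : Set (I → Bool) := {b | {i | b i ≠ false}.Countable} with hC
  have hsc : IsSeqClosed C := by
    intro u p hu hup
    rw [tendsto_bool_pi] at hup
    show {i | p i ≠ false}.Countable
    refine (countable_iUnion fun n => hu n).mono (s₂ := ⋃ n, {i | u n i ≠ false}) fun i hi => ?_
    obtain ⟨n, hn⟩ := (hup i).exists
    refine mem_iUnion.2 ⟨n, ?_⟩
    show u n i ≠ false
    rw [hn]
    exact hi
  have hcl : IsClosed C := hsc.isClosed
  have hdense : Dense C := by
    classical
    intro b
    rw [mem_closure_iff_nhds]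
    intro t ht
    rw [nhds_pi, Filter.mem_pi] at ht
    obtain ⟨J, hJ, s, hs, hst⟩ := ht
    refine ⟨fun i => if i ∈ J then b i else false, hst ?_, ?_⟩
    · intro i hi
      simp only [hi, if_true]
      exact mem_of_mem_nhds (hs i)
    · refine hJ.countable.mono fun i hi => ?_
      by_contra hno
      simp [hno] at hi
  have : C = univ := by rw [← hcl.closure_eq]; exact hdense.closure_eq
  have h1 : (fun _ => true : I → Bool) ∈ C := this ▸ mem_univ _
  apply hunc
  simpa [hC] using h1

end Pool.Agent.GT63
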