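import Mathlib

/-!
# Approximation by maps without zeros

`Avoid κ A` : every continuous map `X → (κ → ℝ)` can be approximated by maps without zeros on `A`.
-/

set_option autoImplicit false

open Filter Topology Set Module

namespace Pool.Agent.GT63.AvoidZero

variable {X : Type*} [TopologicalSpace X] (κ : Type) [Fintype κ]

/-- Every continuous map to `κ → ℝ` can be approximated by maps without zeros on `A`. -/
def Avoid (A : Set X) : Prop :=
  ∀ (g : C(X, κ → ℝ)) (ε : ℝ), 0 < ε → ∃ g' : C(X, κ → ℝ), (∀ x k, |g' x k - g x k| < ε) ∧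
    ∀ x ∈ A, g' x ≠ 0

variable {κ}

omit [Fintype κ] in
lemma Avoid.mono {A B : Set X} (hB : Avoid κ B) (h : A ⊆ B) : Avoid κ A := by
  intro g ε hε
  obtain ⟨g', h1, h2⟩ := hB g ε hε
  exact ⟨g', h1, fun x hx => h2 x (h hx)⟩

lemma Avoid.union {A B : Set X} (hAc : IsCompact A) (hA : Avoid κ A) (hB : Avoid κ B) :
    Avoid κ (A ∪ B) := by
  intro g ε hε
  obtain ⟨g₁, h1, h2⟩ := hA g (ε / 2) (half_pos hε)
  -- a positive lower bound on `A`
  obtain ⟨η, hη, hηA⟩ : ∃ η > 0, ∀ x ∈ A, η ≤ ‖g₁ x‖ := by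
    rcases A.eq_empty_or_nonempty with h | h
    · exact ⟨1, one_pos, by simp [h]⟩
    · obtain ⟨a, ha, hmin⟩ := hAc.exists_isMinOn h
        (f := fun x => ‖g₁ x‖) (by fun_prop)
      exact ⟨‖g₁ a‖, norm_pos_iff.2 (h2 a ha), fun x hx => hmin hx⟩
  obtain ⟨g₂, h3, h4⟩ := hB g₁ (min (ε / 2) η) (lt_min (half_pos hε) hη)
  refine ⟨g₂, fun x k => ?_, ?_⟩
  · calc |g₂ x k - g x k| = |(g₂ x k - g₁ x k) + (g₁ x k - g x k)| := by ring_nf
      _ ≤ |g₂ x k - g₁ x k| + |g₁ x k - g x k| := abs_add_le _ _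
      _ < ε / 2 + ε / 2 := add_lt_add (lt_of_lt_of_le (h3 x k) (min_le_left _ _)) (h1 x k)
      _ = ε := add_halves ε
  · rintro x (hx | hx)
    · intro h0
      have h5 : ‖g₁ x‖ < η := by
        rw [pi_norm_lt_iff hη]
        intro k
        have h6 := h3 x k
        rw [h0, Pi.zero_apply, zero_sub, abs_neg] at h6
        rw [Real.norm_eq_abs]
        exact lt_of_lt_of_le h6 (min_le_right _ _)
      exact absurd h5 (not_lt.2 (hηA x hx))
    · exact h4 x hx

lemma avoid_of_injOn [T2Space X] {ι : Type} [Fintype ι] (hcard : Fintype.card ι < Fintype.card κ)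
    {A : Set X} (hA : IsCompact A) (φ : X → (ι → ℝ)) (hφ : Continuous φ) (hinj : InjOn φ A) :
    Avoid κ A := by
  intro g ε hε
  have hcs : CompactSpace A := isCompact_iff_compactSpace.1 hA
  have hemb : IsClosedEmbedding (fun a : A => φ a) := by
    apply Continuous.isClosedEmbedding (hφ.comp continuous_subtype_val)
    intro a b hab
    exact Subtype.ext (hinj a.2 b.2 hab)
  obtain ⟨h, hh⟩ := ContinuousMap.exists_extension' hemb
    (⟨fun a : A => g a, g.continuous.comp continuous_subtype_val⟩ : C(A, κ → ℝ))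
  obtain ⟨s, hs, hsh, -⟩ := h.continuous.exists_contDiff_approx 1 (ε := fun _ => ε / 4)
    continuous_const (fun _ => by positivity)
  have hdense := hs.dense_compl_range_of_finrank_lt_finrank (by
    simpa using hcard)
  obtain ⟨v, hv, hv0⟩ := Metric.dense_iff.1 hdense 0 (ε / 4) (by positivity)
  have hv1 : ‖v‖ < ε / 4 := by simpa using hv
  -- the avoiding approximation, on `A`
  set G : X → κ → ℝ := fun x => s (φ x) - v with hG
  have hGc : Continuous G := (hs.continuous.comp hφ).sub continuous_const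
  have hG0 : ∀ x, G x ≠ 0 := by
    intro x h0
    exact hv0 ⟨φ x, sub_eq_zero.1 h0⟩
  have hGA : ∀ x ∈ A, ∀ k, |G x k - g x k| ≤ ε / 2 := by
    intro x hx k
    have h1 : h (φ x) = g x := congrFun hh ⟨x, hx⟩
    have h2 := hsh (φ x)
    rw [h1, dist_eq_norm] at h2
    have h3 : |s (φ x) k - g x k| ≤ ‖s (φ x) - g x‖ := norm_le_pi_norm (s (φ x) - g x) k
    have h4 : |v k| ≤ ‖v‖ := norm_le_pi_norm v k
    have h5 : G x k - g x k = (s (φ x) k - g x k) - v k := by simp [hG]; ring
    rw [h5]
    calc |s (φ x) k - g x k - v k| ≤ |s (φ x) k - g x k| + |v k| := abs_sub _ _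
      _ ≤ ε / 4 + ε / 4 := add_le_add (h3.trans h2.le) (h4.trans hv1.le)
      _ = ε / 2 := by ring
  refine ⟨⟨fun x k => g x k + max (-(ε / 2)) (min (ε / 2) (G x k - g x k)), ?_⟩, ?_, ?_⟩
  · refine continuous_pi fun k => ?_
    have h1 : Continuous fun x => g x k := (continuous_apply k).comp g.continuous
    have h2 : Continuous fun x => G x k := (continuous_apply k).comp hGc
    exact h1.add (continuous_const.max (continuous_const.min (h2.sub h1)))
  · intro x k
    simp only [ContinuousMap.coe_mk, add_sub_cancel_left]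
    rw [abs_lt]
    constructor
    · exact lt_of_lt_of_le (by linarith) (le_max_left _ _)
    · exact max_lt (by linarith) (lt_of_le_of_lt (min_le_left _ _) (by linarith))
  · intro x hx h0
    apply hG0 x
    funext k
    have h1 := congrFun h0 k
    simp only [ContinuousMap.coe_mk, Pi.zero_apply] at h1 ⊢
    have h2 := abs_le.1 (hGA x hx k)
    rw [min_eq_right h2.2, max_eq_right h2.1] at h1
    linarith

/-- Patching over a totally disconnected compact quotient. -/
lemma avoid_univ [CompactSpace X] {Q : Type*} [TopologicalSpace Q] [CompactSpace Q] [T2Space Q]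
    [TotallyDisconnectedSpace Q] (π : X → Q) (hπ : Continuous π)
    (hfib : ∀ q, Avoid κ (π ⁻¹' {q})) : Avoid κ (univ : Set X) := by
  classical
  intro g ε hε
  have key : ∃ V : Set Q, IsClopen V ∧ univ ⊆ V ∧ ∃ g' : C(X, κ → ℝ),
      (∀ x k, |g' x k - g x k| < ε) ∧ ∀ x, π x ∈ V → g' x ≠ 0 := by
    refine isCompact_univ.induction_on (p := fun s : Set Q => ∃ V : Set Q, IsClopen V ∧ s ⊆ V ∧
      ∃ g' : C(X, κ → ℝ), (∀ x k, |g' x k - g x k| < ε) ∧ ∀ x, π x ∈ V → g' x ≠ 0)
      ?_ ?_ ?_ ?_
    · exact ⟨∅, isClopen_empty, subset_rfl, g, fun x k => by simpa using hε,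
        fun x hx => hx.elim⟩
    · rintro s t hst ⟨V, hV, htV, g', h⟩
      exact ⟨V, hV, hst.trans htV, g', h⟩
    · rintro s t ⟨V, hV, hsV, g₁, h1, h2⟩ ⟨W, hW, htW, g₂, h3, h4⟩
      refine ⟨V ∪ W, hV.union hW, union_subset_union hsV htW,
        ⟨fun x => if π x ∈ V then g₁ x else g₂ x, ?_⟩, ?_, ?_⟩
      · have hcl : IsClopen (π ⁻¹' V) := hV.preimage hπ
        refine Continuous.if (p := fun x => π x ∈ V) ?_ g₁.continuous g₂.continuous
        intro a ha
        have : frontier {x | π x ∈ V} = ∅ := hcl.frontier_eq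
        rw [this] at ha
        exact ha.elim
      · intro x k
        by_cases h : π x ∈ V
        · simpa [h] using h1 x k
        · simpa [h] using h3 x k
      · intro x hx
        by_cases h : π x ∈ V
        · simpa [h] using h2 x h
        · have hW' : π x ∈ W := by
            rcases hx with h' | h'
            · exact absurd h' h
            · exact h'
          simpa [h] using h4 x hW'
    · intro q _
      obtain ⟨g', h1, h2⟩ := hfib q g ε hε
      set O : Set X := {x | g' x ≠ 0} with hO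
      have hOo : IsOpen O := isOpen_ne_fun g'.continuous continuous_const
      have hcl : IsClosed (π '' Oᶜ) := by
        exact (hOo.isClosed_compl.isCompact.image hπ).isClosed
      have hq : q ∈ (π '' Oᶜ)ᶜ := by
        rintro ⟨x, hx, hxq⟩
        exact hx (h2 x hxq)
      obtain ⟨V, hV, hqV, hVs⟩ := compact_exists_isClopen_in_isOpen hcl.isOpen_compl hq
      refine ⟨V, mem_nhdsWithin_of_mem_nhds (hV.isOpen.mem_nhds hqV), V, hV, subset_rfl, g', h1,
        fun x hx h0 => ?_⟩
      exact hVs hx ⟨x, fun h => h h0, rfl⟩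
  obtain ⟨V, _, hV, g', h1, h2⟩ := key
  exact ⟨g', h1, fun x _ => h2 x (hV (mem_univ _))⟩

end Pool.Agent.GT63.AvoidZero
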