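import Mathlib

/-!
Definitions for `MP_87b039_gt`: narrow and order-scattered posets, the space `FS P` of final
subsets, Cantor-Bendixson derivatives, clopen selectors and canonical clopen selectors.
-/

set_option autoImplicit false

open Set

namespace Pool.Agent.GT63

/-- A poset is narrow if each of its antichains is finite. -/
def IsNarrow (P : Type) [PartialOrder P] : Prop :=
  ∀ A : Set P, (∀ x ∈ A, ∀ y ∈ A, x ≤ y → x = y) → A.Finite

/-- A poset is order-scattered if it has no subset order-isomorphic to the rationals. -/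
def IsOrderScattered (P : Type) [PartialOrder P] : Prop :=
  IsEmpty (ℚ ↪o P)

/-- The final subsets of `P`, as elements of the product space `P → Bool` of discrete two-point
spaces: `x` stands for the subset `{p | x p = true}`. -/
def FS (P : Type) [PartialOrder P] : Set (P → Bool) :=
  {x | ∀ p q : P, p ≤ q → x p = true → x q = true}

/-- The point `x` of `S` is an isolated point of the subspace `S`. -/
def IsIsolatedPt {X : Type} [TopologicalSpace X] (S : Set X) (x : X) : Prop :=
  x ∈ S ∧ ∃ V : Set X, IsOpen V ∧ x ∈ V ∧ ∀ y ∈ V, y ∈ S → y = x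

/-- The Cantor-Bendixson derivatives: `x` is in the `α`-th derivative iff for every `β < α` it is
in the `β`-th derivative and is not an isolated point of it. (See `cbd_zero`, `cbd_succ` and
`cbd_limit` below for the three usual clauses.) -/
def CBD (X : Type) [TopologicalSpace X] (α : Ordinal.{0}) : Set X :=
  {x | ∀ β : Ordinal.{0}, β < α → x ∈ CBD X β ∧ ¬ IsIsolatedPt (CBD X β) x}
termination_by α

/-- `U` is a clopen selector for `X`. -/
structure IsClopenSelector {X : Type} [TopologicalSpace X] (U : X → Set X) : Prop where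
  clopen : ∀ x, IsClopen (U x)
  self_mem : ∀ x, x ∈ U x
  antisymm : ∀ x y, x ≠ y → x ∉ U y ∨ y ∉ U x
  trans : ∀ x y, y ∈ U x → U y ⊆ U x

/-- `U` is canonical: if `x` has Cantor-Bendixson rank `α` (it is in the `α`-th derivative but not
in the `α+1`-st) then `x` is the only point of `U x` of rank at least `α`. -/
def IsCanonicalSel {X : Type} [TopologicalSpace X] (U : X → Set X) : Prop :=
  ∀ (x : X) (α : Ordinal.{0}), x ∈ CBD X α → x ∉ CBD X (Order.succ α) →
    ∀ y ∈ U x, y ∈ CBD X α → y = x

/-- `X` is canonically Skula: it has a canonical clopen selector. -/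
def IsCanonicallySkula (X : Type) [TopologicalSpace X] : Prop :=
  ∃ U : X → Set X, IsClopenSelector U ∧ IsCanonicalSel U

section Check

variable {X : Type} [TopologicalSpace X]

theorem mem_cbd_iff (α : Ordinal.{0}) (x : X) :
    x ∈ CBD X α ↔ ∀ β : Ordinal.{0}, β < α → x ∈ CBD X β ∧ ¬ IsIsolatedPt (CBD X β) x := by
  rw [CBD]
  exact Iff.rfl

theorem cbd_zero : CBD X 0 = univ := by
  ext x
  rw [mem_cbd_iff]
  constructor
  · intro _
    exact mem_univ x
  · intro _ β hβ
    exact absurd hβ (not_lt.2 (zero_le (a := β)))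

theorem cbd_anti {α β : Ordinal.{0}} (h : α ≤ β) : CBD X β ⊆ CBD X α := by
  intro x hx
  rw [mem_cbd_iff] at hx ⊢
  intro γ hγ
  exact hx γ (lt_of_lt_of_le hγ h)

theorem cbd_succ (α : Ordinal.{0}) :
    CBD X (Order.succ α) = CBD X α \ {x | IsIsolatedPt (CBD X α) x} := by
  ext x
  constructor
  · intro hx
    exact (mem_cbd_iff _ x).1 hx α (Order.lt_succ α)
  · rintro ⟨h1, h2⟩
    rw [mem_cbd_iff]
    intro β hβ
    rcases (Order.lt_succ_iff.1 hβ).lt_or_eq with h | h
    · exact (mem_cbd_iff _ x).1 h1 β h
    · subst h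
      exact ⟨h1, h2⟩

theorem cbd_limit (α : Ordinal.{0}) (hα : ∀ β < α, Order.succ β < α) :
    CBD X α = ⋂ β : Iio α, CBD X β.1 := by
  ext x
  rw [mem_iInter]
  constructor
  · intro hx β
    exact ((mem_cbd_iff _ x).1 hx β.1 β.2).1
  · intro hx
    rw [mem_cbd_iff]
    intro β hβ
    have h := hx ⟨Order.succ β, hα β hβ⟩
    exact (mem_cbd_iff _ x).1 h β (Order.lt_succ β)

end Check

end Pool.Agent.GT63
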