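import Pool.Agent.GT63.FSDefs

/-!
A narrow order-scattered poset `P` and a closed subspace of `FS P` without a canonical clopen
selector.
-/

set_option autoImplicit false

open Set Filter Topology

namespace Pool.Agent.GT63

section Order

variable (I B : Type) [LinearOrder I] [LinearOrder B]

/-- The poset: the disjoint union of the lexicographic product of `I` with the reverse of `B`
and of a copy of `I`. -/
abbrev PP : Type := (I ×ₗ Bᵒᵈ) ⊕ I

theorem narrow_PP : IsNarrow (PP I B) := by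
  intro A hA
  have h1 : (Sum.inl ⁻¹' A : Set (I ×ₗ Bᵒᵈ)).Subsingleton := by
    intro x hx y hy
    rcases le_total x y with h | h
    · exact Sum.inl_injective (hA _ hx _ hy (Sum.inl_le_inl_iff.2 h))
    · exact (Sum.inl_injective (hA _ hy _ hx (Sum.inl_le_inl_iff.2 h))).symm
  have h2 : (Sum.inr ⁻¹' A : Set I).Subsingleton := by
    intro x hx y hy
    rcases le_total x y with h | h
    · exact Sum.inr_injective (hA _ hx _ hy (Sum.inr_le_inr_iff.2 h))
    · exact (Sum.inr_injective (hA _ hy _ hx (Sum.inr_le_inr_iff.2 h))).symm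
  have h3 := (h1.finite.image Sum.inl).union (h2.finite.image Sum.inr)
  rwa [Set.image_preimage_inl_union_image_preimage_inr] at h3

theorem scattered_PP [WellFoundedLT I] [WellFoundedLT B] : IsOrderScattered (PP I B) := by
  refine ⟨fun f => ?_⟩
  have hcomp : ∀ q r : ℚ, f q ≤ f r ∨ f r ≤ f q := fun q r =>
    (le_total q r).imp (fun h => f.monotone h) (fun h => f.monotone h)
  rcases h0 : f 0 with a | a
  · have h1 : ∀ q, ∃ b, f q = Sum.inl b := by
      intro q
      rcases h : f q with b | b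
      · exact ⟨b, rfl⟩
      · exfalso
        rcases hcomp 0 q with h' | h'
        · rw [h0, h] at h'
          exact Sum.not_inl_le_inr h'
        · rw [h0, h] at h'
          exact Sum.not_inr_le_inl h'
    choose g hg using h1
    have hmono : ∀ q r, q < r → g q < g r := by
      intro q r hqr
      have h := f.strictMono hqr
      rw [hg, hg] at h
      exact Sum.inl_lt_inl_iff.1 h
    obtain ⟨m, ⟨r0, hr0, hm⟩, hmin⟩ := WellFounded.has_min (wellFounded_lt (α := I))
      {i | ∃ r : ℚ, 0 < r ∧ (ofLex (g r)).1 = i} ⟨_, 1, one_pos, rfl⟩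
    have hfst : ∀ r : ℚ, 0 < r → r < r0 → (ofLex (g r)).1 = m := by
      intro r h1 h2
      refine le_antisymm ?_ (not_lt.1 (hmin _ ⟨r, h1, rfl⟩))
      rw [← hm]
      rcases Prod.Lex.lt_iff.1 (hmono r r0 h2) with h | h
      · exact h.le
      · exact h.1.le
    obtain ⟨b, ⟨r1, hr1, hr1', hb⟩, hbmin⟩ := WellFounded.has_min (wellFounded_lt (α := B))
      {b | ∃ r : ℚ, 0 < r ∧ r < r0 ∧ OrderDual.ofDual (ofLex (g r)).2 = b}
      ⟨_, r0 / 2, by linarith, by linarith, rfl⟩
    have h2 := hmono r1 ((r1 + r0) / 2) (by linarith)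
    rcases Prod.Lex.lt_iff.1 h2 with h | h
    · rw [hfst r1 hr1 hr1', hfst _ (by linarith) (by linarith)] at h
      exact lt_irrefl _ h
    · refine hbmin _ ⟨(r1 + r0) / 2, by linarith, by linarith, rfl⟩ ?_
      rw [← hb]
      exact OrderDual.ofDual_lt_ofDual.2 h.2
  · have h1 : ∀ q, ∃ b, f q = Sum.inr b := by
      intro q
      rcases h : f q with b | b
      · exfalso
        rcases hcomp 0 q with h' | h'
        · rw [h0, h] at h'
          exact Sum.not_inr_le_inl h'
        · rw [h0, h] at h'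
          exact Sum.not_inl_le_inr h'
      · exact ⟨b, rfl⟩
    choose g hg using h1
    obtain ⟨m, ⟨r0, hm⟩, hmin⟩ := WellFounded.has_min (wellFounded_lt (α := I))
      {i | ∃ r : ℚ, g r = i} ⟨_, 1, rfl⟩
    refine hmin _ ⟨r0 - 1, rfl⟩ ?_
    rw [← hm]
    have h := f.strictMono (show r0 - 1 < r0 by linarith)
    rw [hg, hg] at h
    exact Sum.inr_lt_inr_iff.1 h

end Order

section Space

variable {I B : Type} [LinearOrder I] [LinearOrder B]

/-- The element `(β, b)` of the first component. -/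
def el (β : I) (b : B) : PP I B := Sum.inl (toLex (β, OrderDual.toDual b))

/-- The element `γ` of the second component. -/
def er (B : Type) [LinearOrder B] (γ : I) : PP I B := Sum.inr γ

theorem el_le_el {β β' : I} {b b' : B} : el β b ≤ el β' b' ↔ β < β' ∨ (β = β' ∧ b' ≤ b) := by
  unfold el
  rw [Sum.inl_le_inl_iff, Prod.Lex.toLex_le_toLex]
  exact Iff.rfl

theorem er_le_er {γ γ' : I} : er B γ ≤ er B γ' ↔ γ ≤ γ' := by
  unfold er
  rw [Sum.inr_le_inr_iff]

theorem not_el_le_er {β γ : I} {b : B} : ¬ el β b ≤ er B γ := Sum.not_inl_le_inr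

theorem not_er_le_el {β γ : I} {b : B} : ¬ er B γ ≤ el β b := Sum.not_inr_le_inl

omit [LinearOrder I] in
theorem PP_cases (z : PP I B) : (∃ β b, z = el β b) ∨ ∃ γ, z = er B γ := by
  rcases z with z | z
  · exact Or.inl ⟨(ofLex z).1, OrderDual.ofDual (ofLex z).2, rfl⟩
  · exact Or.inr ⟨z, rfl⟩

variable (I B) in
/-- The closed subset `K` of `FS P`. -/
def KK : Set ↥(FS (PP I B)) :=
  {x | ∀ (β : I) (b b' : B) (γ : I), x.1 (el β b) = true → x.1 (el β b') = false →
    (x.1 (er B γ) = true ↔ β ≤ γ)}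

theorem KK_closed : IsClosed (KK I B) := by
  have h : KK I B = ⋂ (β : I) (b : B) (b' : B) (γ : I), {x : ↥(FS (PP I B)) |
      x.1 (el β b) = true → x.1 (el β b') = false → (x.1 (er B γ) = true ↔ β ≤ γ)} := by
    ext x
    simp only [KK, mem_iInter, Set.mem_ofPred_eq]
  rw [h]
  refine isClosed_iInter fun β => isClosed_iInter fun b => isClosed_iInter fun b' =>
    isClosed_iInter fun γ => ?_
  have hc : Continuous fun x : ↥(FS (PP I B)) => (x.1 (el β b), x.1 (el β b'), x.1 (er B γ)) :=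
    (((continuous_apply (el β b)).comp continuous_subtype_val)).prodMk
      ((((continuous_apply (el β b')).comp continuous_subtype_val)).prodMk
        (((continuous_apply (er B γ)).comp continuous_subtype_val)))
  exact (isClosed_discrete {t : Bool × Bool × Bool | t.1 = true → t.2.1 = false →
    (t.2.2 = true ↔ β ≤ γ)}).preimage hc

open Classical in
/-- Membership function of `p (β, ξ)`. -/
noncomputable def pfun (β ξ : WithTop I) : PP I B → Bool
  | Sum.inl z => decide (β ≤ ((ofLex z).1 : WithTop I))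
  | Sum.inr γ => decide (ξ ≤ (γ : WithTop I))

open Classical in
/-- Membership function of `c (β, η)`. -/
noncomputable def cfun (ρ : B → Ordinal.{0}) (β : I) (η : Ordinal.{0}) : PP I B → Bool
  | Sum.inl z => decide (β < (ofLex z).1 ∨
      ((ofLex z).1 = β ∧ ρ (OrderDual.ofDual (ofLex z).2) < η))
  | Sum.inr γ => decide (β ≤ γ)

theorem pfun_el (β ξ : WithTop I) (i : I) (b : B) :
    pfun β ξ (el i b) = true ↔ β ≤ (i : WithTop I) :=
  decide_eq_true_iff

theorem pfun_er (β ξ : WithTop I) (γ : I) :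
    pfun β ξ (er B γ) = true ↔ ξ ≤ (γ : WithTop I) :=
  decide_eq_true_iff

theorem cfun_el (ρ : B → Ordinal.{0}) (β : I) (η : Ordinal.{0}) (i : I) (b : B) :
    cfun ρ β η (el i b) = true ↔ (β < i ∨ (i = β ∧ ρ b < η)) :=
  decide_eq_true_iff

theorem cfun_er (ρ : B → Ordinal.{0}) (β : I) (η : Ordinal.{0}) (γ : I) :
    cfun ρ β η (er B γ) = true ↔ β ≤ γ :=
  decide_eq_true_iff

theorem pfun_mem_FS (β ξ : WithTop I) : (pfun β ξ : PP I B → Bool) ∈ FS (PP I B) := by
  intro p q hpq hp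
  rcases PP_cases p with ⟨i, b, rfl⟩ | ⟨γ, rfl⟩ <;> rcases PP_cases q with ⟨i', b', rfl⟩ | ⟨γ', rfl⟩
  · rw [pfun_el] at hp ⊢
    rcases el_le_el.1 hpq with h | h
    · exact hp.trans (WithTop.coe_le_coe.2 h.le)
    · rw [← h.1]
      exact hp
  · exact absurd hpq not_el_le_er
  · exact absurd hpq not_er_le_el
  · rw [pfun_er] at hp ⊢
    exact hp.trans (WithTop.coe_le_coe.2 (er_le_er.1 hpq))

theorem cfun_mem_FS {ρ : B → Ordinal.{0}} (hρ : StrictMono ρ) (β : I) (η : Ordinal.{0}) :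
    (cfun ρ β η : PP I B → Bool) ∈ FS (PP I B) := by
  intro p q hpq hp
  rcases PP_cases p with ⟨i, b, rfl⟩ | ⟨γ, rfl⟩ <;> rcases PP_cases q with ⟨i', b', rfl⟩ | ⟨γ', rfl⟩
  · rw [cfun_el] at hp ⊢
    rcases el_le_el.1 hpq with h | h
    · rcases hp with h' | h'
      · exact Or.inl (h'.trans h)
      · rw [h'.1] at h
        exact Or.inl h
    · rcases hp with h' | h'
      · rw [← h.1]
        exact Or.inl h'
      · refine Or.inr ⟨h.1.symm.trans h'.1, lt_of_le_of_lt (hρ.monotone h.2) h'.2⟩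
  · exact absurd hpq not_el_le_er
  · exact absurd hpq not_er_le_el
  · rw [cfun_er] at hp ⊢
    exact hp.trans (er_le_er.1 hpq)

theorem pfun_mem_KK (β ξ : WithTop I) : (⟨pfun β ξ, pfun_mem_FS β ξ⟩ : ↥(FS (PP I B))) ∈ KK I B := by
  intro i b b' γ h1 h2
  exfalso
  have h3 : pfun β ξ (el i b') = true := (pfun_el β ξ i b').2 ((pfun_el β ξ i b).1 h1)
  have h4 : pfun β ξ (el i b') = false := h2
  rw [h4] at h3
  exact absurd h3 (by decide)

theorem cfun_mem_KK {ρ : B → Ordinal.{0}} (hρ : StrictMono ρ) (β : I) (η : Ordinal.{0}) :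
    (⟨cfun ρ β η, cfun_mem_FS hρ β η⟩ : ↥(FS (PP I B))) ∈ KK I B := by
  intro i b b' γ h1 h2
  have h1' := (cfun_el _ _ _ _ _).1 h1
  have h2' : ¬ (β < i ∨ (i = β ∧ ρ b' < η)) := by
    rw [← cfun_el ρ β η i b']
    rw [show cfun ρ β η (el i b') = false from h2]
    decide
  have hi : i = β := by
    rcases h1' with h | h
    · exact absurd (Or.inl h) h2'
    · exact h.1
  subst hi
  exact cfun_er ρ i η γ

/-- The point `p (β, ξ)` of `K`. -/
noncomputable def pp (β ξ : WithTop I) : ↥(KK I B) := ⟨⟨pfun β ξ, pfun_mem_FS β ξ⟩, pfun_mem_KK β ξ⟩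

/-- The point `c (β, η)` of `K`. -/
noncomputable def cc {ρ : B → Ordinal.{0}} (hρ : StrictMono ρ) (β : I) (η : Ordinal.{0}) :
    ↥(KK I B) := ⟨⟨cfun ρ β η, cfun_mem_FS hρ β η⟩, cfun_mem_KK hρ β η⟩

theorem ext_X {x y : ↥(KK I B)} (h1 : ∀ i b, x.1.1 (el i b) = true ↔ y.1.1 (el i b) = true)
    (h2 : ∀ γ, x.1.1 (er B γ) = true ↔ y.1.1 (er B γ) = true) : x = y := by
  apply Subtype.ext
  apply Subtype.ext
  funext z
  rw [Bool.eq_iff_iff]
  rcases PP_cases z with ⟨i, b, rfl⟩ | ⟨γ, rfl⟩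
  · exact h1 i b
  · exact h2 γ

theorem tendsto_X {ι : Type*} {l : Filter ι} {u : ι → ↥(KK I B)} {x : ↥(KK I B)}
    (h1 : ∀ i b, ∀ᶠ n in l, ((u n).1.1 (el i b) = true ↔ x.1.1 (el i b) = true))
    (h2 : ∀ γ, ∀ᶠ n in l, ((u n).1.1 (er B γ) = true ↔ x.1.1 (er B γ) = true)) :
    Tendsto u l (𝓝 x) := by
  rw [tendsto_subtype_rng, tendsto_subtype_rng, tendsto_pi_nhds]
  intro z
  rw [nhds_discrete, tendsto_pure]
  rcases PP_cases z with ⟨i, b, rfl⟩ | ⟨γ, rfl⟩
  · filter_upwards [h1 i b] with n hn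
    exact Bool.eq_iff_iff.2 hn
  · filter_upwards [h2 γ] with n hn
    exact Bool.eq_iff_iff.2 hn

theorem isOpen_coord (z : PP I B) (v : Bool) : IsOpen {x : ↥(KK I B) | x.1.1 z = v} := by
  have hc : Continuous fun x : ↥(KK I B) => x.1.1 z :=
    (continuous_apply z).comp (continuous_subtype_val.comp continuous_subtype_val)
  exact (isOpen_discrete {v}).preimage hc

end Space

end Pool.Agent.GT63
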