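import Pool.Agent.GT63.FSExample

/-!
The Cantor-Bendixson ranks of the points of `K` and the proof that `K` has no canonical clopen
selector.
-/

set_option autoImplicit false

open Set Filter Topology Ordinal

namespace Pool.Agent.GT63

section Space

variable {I B : Type} [LinearOrder I] [LinearOrder B]

theorem pp_el (β ξ : WithTop I) (i : I) (b : B) :
    (pp β ξ : ↥(KK I B)).1.1 (el i b) = true ↔ β ≤ (i : WithTop I) := pfun_el β ξ i b

theorem pp_er (β ξ : WithTop I) (γ : I) :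
    (pp β ξ : ↥(KK I B)).1.1 (er B γ) = true ↔ ξ ≤ (γ : WithTop I) := pfun_er (B := B) β ξ γ

theorem cc_el {ρ : B → Ordinal.{0}} (hρ : StrictMono ρ) (β : I) (η : Ordinal.{0}) (i : I) (b : B) :
    (cc hρ β η).1.1 (el i b) = true ↔ (β < i ∨ (i = β ∧ ρ b < η)) := cfun_el ρ β η i b

theorem cc_er {ρ : B → Ordinal.{0}} (hρ : StrictMono ρ) (β : I) (η : Ordinal.{0}) (γ : I) :
    (cc hρ β η).1.1 (er B γ) = true ↔ β ≤ γ := cfun_er ρ β η γ

/-! ### The arcs `c (β, ·)` -/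

theorem tendsto_cc {ρ : B → Ordinal.{0}} (hρ : StrictMono ρ) (β : I) (η : Ordinal.{0})
    (hη : Order.IsSuccLimit η) :
    Tendsto (fun e : Iio η => cc hρ β e.1) atTop (𝓝 (cc hρ β η)) := by
  have h0 : (0 : Ordinal.{0}) < η := hη.bot_lt
  refine tendsto_X ?_ ?_
  · intro i b
    by_cases h : ρ b < η
    · have h' : Order.succ (ρ b) < η := hη.succ_lt h
      filter_upwards [eventually_ge_atTop (⟨Order.succ (ρ b), h'⟩ : Iio η)] with e he
      have he' : ρ b < e.1 := lt_of_lt_of_le (Order.lt_succ _) he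
      exact (cfun_el ρ β e.1 i b).trans (Iff.trans (by tauto) (cfun_el ρ β η i b).symm)
    · refine Eventually.of_forall fun e => ?_
      have he' : ¬ ρ b < e.1 := fun h' => h (h'.trans e.2)
      exact (cfun_el ρ β e.1 i b).trans (Iff.trans (by tauto) (cfun_el ρ β η i b).symm)
  · intro γ
    refine Eventually.of_forall fun e => ?_
    exact (cfun_er ρ β e.1 γ).trans (cfun_er ρ β η γ).symm

theorem cc_ne {ρ : B → Ordinal.{0}} (hρ : StrictMono ρ) (β : I) {e η : Ordinal.{0}}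
    (h : e < η) (hb : ∃ b, ρ b = e) : cc hρ β e ≠ cc hρ β η := by
  obtain ⟨b, hb⟩ := hb
  intro heq
  have h1 : (cc hρ β η).1.1 (el β b) = true := by
    refine (cfun_el ρ β η β b).2 (Or.inr ⟨rfl, ?_⟩)
    rw [hb]
    exact h
  rw [← heq] at h1
  rcases (cfun_el ρ β e β b).1 h1 with h2 | h2
  · exact lt_irrefl _ h2
  · rw [hb] at h2
    exact lt_irrefl _ h2.2

theorem cc_mem {ρ : B → Ordinal.{0}} (hρ : StrictMono ρ) (β : I) (θ : Ordinal.{0})
    (hθ : ∀ e < θ, ∃ b, ρ b = e) (α : Ordinal.{0}) :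
    ∀ ζ : Ordinal.{0}, 0 < ζ → ω ^ α * ζ ≤ θ → cc hρ β (ω ^ α * ζ) ∈ CBD ↥(KK I B) α := by
  induction α using WellFoundedLT.induction with
  | ind α ih =>
    intro ζ hζ hle
    rw [mem_cbd_iff]
    intro α' hα'
    obtain ⟨δ, hδ⟩ : ∃ δ, α = α' + δ := ⟨α - α', (Ordinal.add_sub_cancel_of_le hα'.le).symm⟩
    have hα0 : δ ≠ 0 := by
      rintro rfl
      rw [add_zero] at hδ
      exact lt_irrefl _ (hδ ▸ hα')
    obtain ⟨ζ', hζ'⟩ : ∃ ζ' : Ordinal.{0}, ζ' = ω ^ δ * ζ := ⟨_, rfl⟩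
    have hζ'0 : 0 < ζ' := hζ' ▸ mul_pos (opow_pos _ omega0_pos) hζ
    have heq : ω ^ α * ζ = ω ^ α' * ζ' := by
      rw [hζ', hδ, ← mul_assoc, ← opow_add]
    have hlim : Order.IsSuccLimit ζ' := by
      rw [hζ']
      exact isSuccLimit_mul_left (isSuccLimit_opow_left isSuccLimit_omega0 hα0) hζ
    have hle' : ω ^ α' * ζ' ≤ θ := heq ▸ hle
    rw [heq]
    refine ⟨ih α' hα' ζ' hζ'0 hle', ?_⟩
    rintro ⟨-, V, hVo, hxV, hV⟩
    have hlim2 : Order.IsSuccLimit (ω ^ α' * ζ') :=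
      isSuccLimit_mul_right (opow_pos _ omega0_pos) hlim
    have ht := tendsto_cc (ρ := ρ) hρ β _ hlim2
    have : Nonempty (Iio (ω ^ α' * ζ')) := ⟨⟨0, hlim2.bot_lt⟩⟩
    obtain ⟨e0, he0⟩ := eventually_atTop.1 (ht.eventually (hVo.mem_nhds hxV))
    obtain ⟨ζ'', h1, h2⟩ := (Ordinal.lt_mul_iff_of_isSuccLimit hlim).1 e0.2
    have h3 : ω ^ α' * ζ'' < ω ^ α' * ζ' :=
      mul_lt_mul_of_pos_left h1 (opow_pos _ omega0_pos)
    have h4 : 0 < ζ'' := by
      by_contra h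
      have h5 : ζ'' = 0 := by
        simpa using h
      rw [h5, mul_zero] at h2
      exact absurd h2 (not_lt.2 (zero_le (a := e0.1)))
    have h5 : cc hρ β (ω ^ α' * ζ'') ∈ V := he0 ⟨_, h3⟩ h2.le
    have h6 := ih α' hα' ζ'' h4 (h3.le.trans hle')
    exact cc_ne hρ β h3 (hθ _ (lt_of_lt_of_le h3 hle')) (hV _ h5 h6)

theorem pp_self_mem {ρ : B → Ordinal.{0}} (hρ : StrictMono ρ) (β : I) (κ : Ordinal.{0})
    (hθ : ∀ e < ω ^ κ, ∃ b, ρ b = e) (hθ' : ∀ b, ρ b < ω ^ κ) :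
    (pp (β : WithTop I) (β : WithTop I) : ↥(KK I B)) ∈ CBD ↥(KK I B) κ := by
  have h := cc_mem hρ β (ω ^ κ) hθ κ 1 one_pos (by rw [mul_one])
  rw [mul_one] at h
  have heq : (pp (β : WithTop I) (β : WithTop I) : ↥(KK I B)) = cc hρ β (ω ^ κ) := by
    refine ext_X ?_ ?_
    · intro i b
      rw [pp_el, cc_el, WithTop.coe_le_coe, le_iff_lt_or_eq]
      have := hθ' b
      constructor
      · rintro (h | h)
        · exact Or.inl h
        · exact Or.inr ⟨h.symm, this⟩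
      · rintro (h | h)
        · exact Or.inl h
        · exact Or.inr h.1.symm
    · intro γ
      rw [pp_er, cc_er, WithTop.coe_le_coe]
  rw [heq]
  exact h

/-! ### The ranks of the points `p (β, ⊤)` -/

/-- The clopen piece `O_β`. -/
def OO (β : I) (b0 : B) : Set ↥(KK I B) :=
  {x | x.1.1 (el β b0) = true ∧ x.1.1 (er B β) = false}

theorem OO_open (β : I) (b0 : B) : IsOpen (OO β b0) :=
  (isOpen_coord (el β b0) true).inter (isOpen_coord (er B β) false)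

theorem OO_eq [WellFoundedLT I] {β : I} {b0 : B} {x : ↥(KK I B)}
    (hx : x ∈ OO β b0) : ∃ α : I, ∃ ξ : WithTop I, α ≤ β ∧ x = pp (α : WithTop I) ξ := by
  obtain ⟨hx1, hx2⟩ := hx
  have hfin := x.1.2
  have hK := x.2
  -- no block is split
  have hns : ∀ (i : I) (b b' : B), x.1.1 (el i b) = true → x.1.1 (el i b') = true := by
    intro i b b' h
    by_contra h'
    have h'' : x.1.1 (el i b') = false := by simpa using h'
    have h1 := hK i b b' β h h''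
    rw [hx2] at h1
    have h2 : ¬ i ≤ β := fun hc => absurd (h1.2 hc) (by decide)
    have h3 := hfin (el β b0) (el i b') (el_le_el.2 (Or.inl (not_le.1 h2))) hx1
    exact h' h3
  obtain ⟨α, hα, hmin⟩ := WellFounded.has_min (wellFounded_lt (α := I))
    {i | x.1.1 (el i b0) = true} ⟨β, hx1⟩
  have hα' : x.1.1 (el α b0) = true := hα
  have hset : ∀ i b, x.1.1 (el i b) = true ↔ α ≤ i := by
    intro i b
    constructor
    · intro h
      exact not_lt.1 (hmin i (hns i b b0 h))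
    · intro h
      refine hns i b0 b ?_
      rcases h.lt_or_eq with h | h
      · exact hfin (el α b0) (el i b0) (el_le_el.2 (Or.inl h)) hα'
      · rw [← h]
        exact hα'
  have hξ : ∃ ξ : WithTop I, ∀ γ, x.1.1 (er B γ) = true ↔ ξ ≤ (γ : WithTop I) := by
    by_cases hne : ∃ γ, x.1.1 (er B γ) = true
    · obtain ⟨ξ, hξ, hmin'⟩ := WellFounded.has_min (wellFounded_lt (α := I))
        {γ | x.1.1 (er B γ) = true} hne
      have hξ' : x.1.1 (er B ξ) = true := hξ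
      refine ⟨(ξ : WithTop I), fun γ => ?_⟩
      rw [WithTop.coe_le_coe]
      constructor
      · intro h
        exact not_lt.1 (hmin' γ h)
      · intro h
        exact hfin (er B ξ) (er B γ) (er_le_er.2 h) hξ'
    · refine ⟨⊤, fun γ => ?_⟩
      constructor
      · intro h
        exact absurd ⟨γ, h⟩ hne
      · intro h
        exact absurd h (by simp)
  obtain ⟨ξ, hξ⟩ := hξ
  refine ⟨α, ξ, not_lt.1 (hmin β hx1), ?_⟩
  refine ext_X ?_ ?_
  · intro i b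
    rw [hset i b, pp_el, WithTop.coe_le_coe]
  · intro γ
    rw [hξ γ, pp_er]

theorem OO_isolated [WellFoundedLT I] {β : I} {b0 : B}
    (S : Set ↥(KK I B)) (hS : S ⊆ OO β b0) (hne : S.Nonempty) :
    ∃ x ∈ S, ∃ V : Set ↥(KK I B), IsOpen V ∧ x ∈ V ∧ ∀ y ∈ V, y ∈ S → y = x := by
  obtain ⟨x0, hx0⟩ := hne
  obtain ⟨α0, ξ0, -, hx0'⟩ := OO_eq (hS hx0)
  obtain ⟨α, ⟨ξ1, hξ1⟩, hmin⟩ := WellFounded.has_min (wellFounded_lt (α := I))
    {α | ∃ ξ : WithTop I, (pp (α : WithTop I) ξ : ↥(KK I B)) ∈ S} ⟨α0, ξ0, hx0' ▸ hx0⟩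
  obtain ⟨ξ, hξ, hmin'⟩ := WellFounded.has_min (wellFounded_lt (α := WithTop I))
    {ξ | (pp (α : WithTop I) ξ : ↥(KK I B)) ∈ S} ⟨ξ1, hξ1⟩
  have key : ∀ y : ↥(KK I B), y ∈ S → y.1.1 (el α b0) = true →
      ∃ ξ' : WithTop I, y = pp (α : WithTop I) ξ' ∧ ξ ≤ ξ' := by
    intro y hy hyα
    obtain ⟨α', ξ', -, rfl⟩ := OO_eq (hS hy)
    have h1 : (α' : WithTop I) ≤ α := (pp_el _ _ α b0).1 hyα
    have h2 : α' = α := le_antisymm (WithTop.coe_le_coe.1 h1) (not_lt.1 (hmin α' ⟨ξ', hy⟩))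
    subst h2
    exact ⟨ξ', rfl, not_lt.1 (hmin' ξ' hy)⟩
  have hxα : (pp (α : WithTop I) ξ : ↥(KK I B)).1.1 (el α b0) = true :=
    (pp_el _ _ α b0).2 le_rfl
  refine ⟨pp (α : WithTop I) ξ, hξ, ?_⟩
  induction ξ using WithTop.recTopCoe with
  | top =>
    refine ⟨_, isOpen_coord (el α b0) true, hxα, ?_⟩
    intro y hy hyS
    obtain ⟨ξ', rfl, h⟩ := key y hyS hy
    rw [top_le_iff.1 h]
  | coe ξ =>
    refine ⟨_, (isOpen_coord (el α b0) true).inter (isOpen_coord (er B ξ) true),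
      ⟨hxα, (pp_er _ _ ξ).2 le_rfl⟩, ?_⟩
    rintro y ⟨hy, hy'⟩ hyS
    obtain ⟨ξ', rfl, h⟩ := key y hyS hy
    have h2 : ξ' ≤ (ξ : WithTop I) := (pp_er _ _ ξ).1 hy'
    rw [le_antisymm h h2]

theorem pp_mem_OO (β : I) (b0 : B) : (pp (β : WithTop I) ⊤ : ↥(KK I B)) ∈ OO β b0 := by
  refine ⟨(pp_el _ _ β b0).2 le_rfl, ?_⟩
  by_contra h
  have h' : (pp (β : WithTop I) ⊤ : ↥(KK I B)).1.1 (er B β) = true := by simpa using h
  have h'' := (pp_er _ _ β).1 h'
  exact absurd h'' (by simp)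

theorem rank_bound [WellFoundedLT I] (hI : Cardinal.mk I ≤ Cardinal.aleph 1)
    (β : I) (b0 : B) :
    ∃ α < Ordinal.omega 2, (pp (β : WithTop I) ⊤ : ↥(KK I B)) ∉ CBD ↥(KK I B) α := by
  by_contra hcon
  push Not at hcon
  have h1 : ∀ α : Ordinal.{0}, α < Ordinal.omega 2 →
      ∃ x : ↥(KK I B), x ∈ OO β b0 ∧ x ∈ CBD ↥(KK I B) α ∧ x ∉ CBD ↥(KK I B) (Order.succ α) := by
    intro α hα
    obtain ⟨x, hx, V, hVo, hxV, hV⟩ := OO_isolated (OO β b0 ∩ CBD ↥(KK I B) α)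
      inter_subset_left ⟨_, pp_mem_OO β b0, hcon α hα⟩
    refine ⟨x, hx.1, hx.2, ?_⟩
    rw [cbd_succ]
    rintro ⟨-, h⟩
    refine h ⟨hx.2, V ∩ OO β b0, hVo.inter (OO_open β b0), ⟨hxV, hx.1⟩, ?_⟩
    rintro y ⟨hy1, hy2⟩ hy3
    exact hV y hy1 ⟨hy2, hy3⟩
  have : Nonempty ↥(KK I B) := ⟨pp (β : WithTop I) ⊤⟩
  have : Nonempty (I × WithTop I) := ⟨(β, ⊤)⟩
  choose! x hx1 hx2 hx3 using h1
  have h2 : ∀ α : Ordinal.{0}, α < Ordinal.omega 2 → ∃ t : I × WithTop I,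
      x α = (pp (t.1 : WithTop I) t.2 : ↥(KK I B)) := by
    intro α hα
    obtain ⟨a, ξ, -, h⟩ := OO_eq (hx1 α hα)
    exact ⟨(a, ξ), h⟩
  choose! t ht using h2
  have hinj : ∀ α α' : Ordinal.{0}, α < Ordinal.omega 2 → α' < Ordinal.omega 2 → α < α' →
      t α ≠ t α' := by
    intro α α' hα hα' hlt h
    have h3 : x α = x α' := by rw [ht α hα, ht α' hα', h]
    refine hx3 α hα ?_
    rw [h3]
    exact cbd_anti (Order.succ_le_of_lt hlt) (hx2 α' hα')
  have hinj2 : Function.Injective fun a : (Ordinal.omega 2 : Ordinal.{0}).ToType =>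
      t (ToType.mk.symm a).1 := by
    intro a a' h
    rcases lt_trichotomy a a' with h' | h' | h'
    · exact absurd h (hinj _ _ (ToType.mk.symm a).2 (ToType.mk.symm a').2
        (ToType.mk.symm.strictMono h'))
    · exact h'
    · exact absurd h.symm (hinj _ _ (ToType.mk.symm a').2 (ToType.mk.symm a).2
        (ToType.mk.symm.strictMono h'))
  have hcard := Cardinal.mk_le_of_injective hinj2
  rw [Cardinal.mk_toType, Ordinal.card_omega, Cardinal.mk_prod, Cardinal.lift_id,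
    Cardinal.lift_id] at hcard
  have h3 : Cardinal.mk (WithTop I) ≤ Cardinal.aleph 1 := by
    have : Cardinal.mk (WithTop I) = Cardinal.mk I + 1 := Cardinal.mk_option
    rw [this]
    exact (add_le_add hI le_rfl).trans
      (Cardinal.add_le_of_le (Cardinal.aleph0_le_aleph 1) le_rfl
        (Cardinal.one_le_aleph0.trans (Cardinal.aleph0_le_aleph 1)))
  have h4 : Cardinal.mk I * Cardinal.mk (WithTop I) ≤ Cardinal.aleph 1 :=
    (mul_le_mul' hI h3).trans (Cardinal.mul_le_of_le (Cardinal.aleph0_le_aleph 1) le_rfl le_rfl)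
  have h5 := hcard.trans h4
  rw [Cardinal.aleph_le_aleph] at h5
  exact absurd h5 (by norm_num)

/-! ### Limits of the points `p (α, ξ)` -/

theorem tendsto_pp_top [NoMaxOrder I] [Nonempty I] (α : WithTop I) :
    Tendsto (fun ξ : I => (pp α (ξ : WithTop I) : ↥(KK I B))) atTop (𝓝 (pp α ⊤)) := by
  refine tendsto_X ?_ ?_
  · intro i b
    refine Eventually.of_forall fun ξ => ?_
    rw [pp_el, pp_el]
  · intro γ
    filter_upwards [eventually_gt_atTop γ] with ξ hξ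
    rw [pp_er, pp_er, WithTop.coe_le_coe]
    constructor
    · intro h
      exact absurd h (not_le.2 hξ)
    · intro h
      exact absurd h (by simp)

theorem tendsto_pp_left (β : I) (hβ : ∀ γ < β, ∃ γ', γ < γ' ∧ γ' < β) (ξ : WithTop I) :
    Tendsto (fun α : Iio β => (pp ((α : I) : WithTop I) ξ : ↥(KK I B))) atTop
      (𝓝 (pp (β : WithTop I) ξ)) := by
  refine tendsto_X ?_ ?_
  · intro i b
    rcases lt_or_ge i β with h | h
    · obtain ⟨γ', h1, h2⟩ := hβ i h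
      filter_upwards [eventually_ge_atTop (⟨γ', h2⟩ : Iio β)] with α hα
      have hα' : γ' ≤ (α : I) := hα
      rw [pp_el, pp_el, WithTop.coe_le_coe, WithTop.coe_le_coe]
      constructor
      · intro h'
        exact absurd h' (not_le.2 (lt_of_lt_of_le h1 hα'))
      · intro h'
        exact absurd h' (not_le.2 h)
    · refine Eventually.of_forall fun α => ?_
      rw [pp_el, pp_el, WithTop.coe_le_coe, WithTop.coe_le_coe]
      have hα : (α : I) < β := α.2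
      constructor
      · intro _
        exact h
      · intro _
        exact hα.le.trans h
  · intro γ
    refine Eventually.of_forall fun α => ?_
    rw [pp_er, pp_er]

/-- Closing-off: in a linear order with the properties of `ω₁`, every function `δ` has a closure
point which is a limit. -/
theorem exists_closure [WellFoundedLT I] [Nonempty I]
    (hI1 : ∀ f : ℕ → I, ∃ b, ∀ n, f n < b) (hI2 : ∀ a : I, (Iic a).Countable) (δ : I → I) :
    ∃ β : I, (∃ γ, γ < β) ∧ (∀ γ < β, ∃ γ', γ < γ' ∧ γ' < β) ∧ ∀ α < β, δ α < β := by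
  have hg : ∀ a : I, ∃ b, a < b ∧ ∀ a' ≤ a, δ a' < b := by
    intro a
    obtain ⟨f, hf⟩ := ((hI2 a).image δ).exists_eq_range ⟨δ a, ⟨a, le_rfl, rfl⟩⟩
    obtain ⟨b1, hb1⟩ := hI1 f
    obtain ⟨b2, hb2⟩ := hI1 fun _ => a
    refine ⟨max b1 b2, lt_max_of_lt_right (hb2 0), fun a' ha' => lt_max_of_lt_left ?_⟩
    have : δ a' ∈ range f := hf ▸ ⟨a', ha', rfl⟩
    obtain ⟨n, hn⟩ := this
    rw [← hn]
    exact hb1 n
  choose g hg1 hg2 using hg
  obtain ⟨i0⟩ := ‹Nonempty I›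
  set s : ℕ → I := fun n => g^[n] i0 with hs
  have hs1 : ∀ n, s (n + 1) = g (s n) := fun n => Function.iterate_succ_apply' g n i0
  obtain ⟨β, hβ, hmin⟩ := WellFounded.has_min (wellFounded_lt (α := I)) {b | ∀ n, s n < b} (hI1 s)
  have hβ' : ∀ n, s n < β := hβ
  have key : ∀ γ < β, ∃ n, γ ≤ s n := by
    intro γ hγ
    by_contra h
    push Not at h
    exact hmin γ h hγ
  refine ⟨β, ⟨s 0, hβ' 0⟩, ?_, ?_⟩
  · intro γ hγ
    obtain ⟨n, hn⟩ := key γ hγ
    refine ⟨s (n + 1), lt_of_le_of_lt hn ?_, hβ' (n + 1)⟩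
    rw [hs1]
    exact hg1 _
  · intro α hα
    obtain ⟨n, hn⟩ := key α hα
    refine lt_trans (hg2 (s n) α hn) ?_
    rw [← hs1]
    exact hβ' (n + 1)

/-- The main result: `K` has no canonical clopen selector. -/
theorem not_canonicallySkula [WellFoundedLT I] [Nonempty I]
    (hI1 : ∀ f : ℕ → I, ∃ b, ∀ n, f n < b) (hI2 : ∀ a : I, (Iic a).Countable)
    (hI3 : Cardinal.mk I ≤ Cardinal.aleph 1) [Nonempty B]
    {ρ : B → Ordinal.{0}} (hρ : StrictMono ρ)
    (hθ : ∀ e < ω ^ (Ordinal.omega 2 : Ordinal.{0}), ∃ b, ρ b = e)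
    (hθ' : ∀ b, ρ b < ω ^ (Ordinal.omega 2 : Ordinal.{0})) :
    ¬ IsCanonicallySkula ↥(KK I B) := by
  rintro ⟨U, hU, hcan⟩
  have : NoMaxOrder I := ⟨fun a => by
    obtain ⟨b, hb⟩ := hI1 fun _ => a
    exact ⟨b, hb 0⟩⟩
  obtain ⟨b0⟩ := ‹Nonempty B›
  have h1 : ∀ α : I, ∃ δ : I, ∀ ξ ≥ δ,
      (pp (α : WithTop I) (ξ : WithTop I) : ↥(KK I B)) ∈ U (pp (α : WithTop I) ⊤) := by
    intro α
    exact eventually_atTop.1 ((tendsto_pp_top (B := B) (α : WithTop I)).eventually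
      ((hU.clopen _).isOpen.mem_nhds (hU.self_mem _)))
  choose δ hδ using h1
  obtain ⟨β, ⟨γ0, hγ0⟩, hlim, hcl⟩ := exists_closure hI1 hI2 δ
  have : Nonempty (Iio β) := ⟨⟨γ0, hγ0⟩⟩
  have h2 : ∀ᶠ α : Iio β in atTop, (pp ((α : I) : WithTop I) ⊤ : ↥(KK I B)) ∈
      U (pp (β : WithTop I) ⊤) :=
    (tendsto_pp_left (B := B) β hlim ⊤).eventually
      ((hU.clopen _).isOpen.mem_nhds (hU.self_mem _))
  have h3 : ∀ᶠ α : Iio β in atTop, (pp ((α : I) : WithTop I) (β : WithTop I) : ↥(KK I B)) ∈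
      U (pp (β : WithTop I) ⊤) := by
    filter_upwards [h2] with α hα
    exact hU.trans _ _ hα (hδ α β (hcl α α.2).le)
  have h4 : (pp (β : WithTop I) (β : WithTop I) : ↥(KK I B)) ∈ U (pp (β : WithTop I) ⊤) :=
    (hU.clopen _).isClosed.mem_of_tendsto (tendsto_pp_left (B := B) β hlim β) h3
  -- the rank of `p (β, ⊤)`
  obtain ⟨α, hα, hrank⟩ := rank_bound (B := B) hI3 β b0
  obtain ⟨α1, hα1, hmin⟩ := WellFounded.has_min (wellFounded_lt (α := Ordinal.{0}))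
    {α | (pp (β : WithTop I) ⊤ : ↥(KK I B)) ∉ CBD ↥(KK I B) α} ⟨α, hrank⟩
  have hα1' : (pp (β : WithTop I) ⊤ : ↥(KK I B)) ∉ CBD ↥(KK I B) α1 := hα1
  have hα1le : α1 ≤ α := not_lt.1 (hmin α hrank)
  have h5 : ∃ α0 < α1, (pp (β : WithTop I) ⊤ : ↥(KK I B)) ∈ CBD ↥(KK I B) α0 ∧
      (pp (β : WithTop I) ⊤ : ↥(KK I B)) ∉ CBD ↥(KK I B) (Order.succ α0) := by
    by_contra hcon
    push Not at hcon
    refine hα1' ((mem_cbd_iff _ _).2 fun α0 hα0 => ?_)
    have h6 : (pp (β : WithTop I) ⊤ : ↥(KK I B)) ∈ CBD ↥(KK I B) α0 := by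
      by_contra h
      exact hmin α0 h hα0
    exact (mem_cbd_iff _ _).1 (hcon α0 hα0 h6) α0 (Order.lt_succ α0)
  obtain ⟨α0, hα0, h6, h7⟩ := h5
  have h8 : (pp (β : WithTop I) (β : WithTop I) : ↥(KK I B)) ∈ CBD ↥(KK I B) α0 :=
    cbd_anti ((hα0.le.trans hα1le).trans hα.le) (pp_self_mem hρ β _ hθ hθ')
  have h9 := hcan _ α0 h6 h7 _ h4 h8
  have h10 : (pp (β : WithTop I) (β : WithTop I) : ↥(KK I B)).1.1 (er B β) = true :=
    (pp_er _ _ β).2 le_rfl
  rw [h9, pp_er] at h10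
  exact absurd h10 (by simp)

end Space

/-- Every sequence in `ω₁` is strictly bounded. -/
theorem omega1_bounded (f : ℕ → (ω₁ : Ordinal.{0}).ToType) : ∃ b, ∀ n, f n < b := by
  have h : ⨆ n, ((ToType.mk.symm (f n)).1 : Ordinal.{0}) < ω₁ :=
    Ordinal.iSup_lt_omega_one fun n => (ToType.mk.symm (f n)).2
  have h2 : Order.succ (⨆ n, ((ToType.mk.symm (f n)).1 : Ordinal.{0})) < ω₁ :=
    (Cardinal.isSuccLimit_omega 1).succ_lt h
  refine ⟨ToType.mk ⟨_, h2⟩, fun n => ?_⟩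
  rw [← ToType.mk.symm.lt_iff_lt, OrderIso.symm_apply_apply]
  exact Order.lt_succ_iff.2 (Ordinal.le_iSup _ n)

/-- Initial segments of `ω₁` are countable. -/
theorem omega1_countable (a : (ω₁ : Ordinal.{0}).ToType) : (Iic a).Countable := by
  have h1 : (Iio a).Countable := by
    rw [← Cardinal.le_aleph0_iff_set_countable, ← Cardinal.lt_aleph_one_iff]
    refine (Cardinal.mk_Iio_lt a ?_).trans_le ?_
    · rw [Cardinal.mk_toType, Ordinal.card_omega, Cardinal.ord_aleph, Ordinal.type_toType]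
    · rw [Cardinal.mk_toType, Ordinal.card_omega]
  rw [← Iio_insert]
  exact h1.insert a

end Pool.Agent.GT63
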