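import Mathlib

/-!
# The dimensions `dim_K` and `Ind_K` of a space, for a simplicial complex `K`

`K` is a simplicial complex in a real vector space `E`; its vertices are the points
`e ∈ K.vertices`.  Tuples of subsets of `X` indexed by the vertices of `K` are given as functions
`A : E → Set X`, of which only the values at the vertices of `K` matter.
-/

set_option autoImplicit false

namespace Pool.Agent.GT63.KDim

variable {E : Type} [AddCommGroup E] [Module ℝ E]

/-- `A` is a `K`-tuple: whenever `I` is a nonempty finite set of vertices of `K` such that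
`⋂ e ∈ I, A e` is nonempty, `I` is the vertex set of a simplex of `K`. -/
def IsKTuple (K : Geometry.SimplicialComplex ℝ E) {X : Type} (A : E → Set X) : Prop :=
  ∀ I : Finset E, I.Nonempty → (∀ e ∈ I, e ∈ K.vertices) → (⋂ e ∈ I, A e).Nonempty →
    I ∈ K.faces

/-- A closed `K`-tuple of the space `X`. -/
def IsClosedKTuple (K : Geometry.SimplicialComplex ℝ E) {X : Type} [TopologicalSpace X]
    (F : E → Set X) : Prop :=
  IsKTuple K F ∧ ∀ e ∈ K.vertices, IsClosed (F e)

/-- An open `K`-tuple of the space `X`. -/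
def IsOpenKTuple (K : Geometry.SimplicialComplex ℝ E) {X : Type} [TopologicalSpace X]
    (U : E → Set X) : Prop :=
  IsKTuple K U ∧ ∀ e ∈ K.vertices, IsOpen (U e)

/-- `P` is a `K`-partition for `F`: `P = X \ ⋃ e, U e` for an open `K`-tuple `U` with
`F e ⊆ U e` for all vertices `e`. -/
def IsKPartition (K : Geometry.SimplicialComplex ℝ E) {X : Type} [TopologicalSpace X]
    (F : E → Set X) (P : Set X) : Prop :=
  ∃ U : E → Set X, IsOpenKTuple K U ∧ (∀ e ∈ K.vertices, F e ⊆ U e) ∧
    P = (⋃ e ∈ K.vertices, U e)ᶜ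

/-- `dim_K X ≤ n` (`n` a natural number): for all closed `K`-tuples `F 0, …, F n` of `X` there are
`K`-partitions `P i` for `F i` with `⋂ i, P i = ∅`. -/
def KDimLE (K : Geometry.SimplicialComplex ℝ E) (X : Type) [TopologicalSpace X] (n : ℕ) : Prop :=
  ∀ F : Fin (n + 1) → E → Set X, (∀ i, IsClosedKTuple K (F i)) →
    ∃ P : Fin (n + 1) → Set X, (∀ i, IsKPartition K (F i) (P i)) ∧ (⋂ i, P i) = ∅

/-- `Ind_K X ≤ α` (`α` an ordinal): every closed `K`-tuple of `X` has a `K`-partition `P` with
`Ind_K P < α`, that is, `P` is empty (`Ind_K P = -1`) or `Ind_K P ≤ β` for some `β < α`. -/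
def KIndLE (K : Geometry.SimplicialComplex ℝ E) (α : Ordinal.{0}) (X : Type)
    [TopologicalSpace X] : Prop :=
  ∀ F : E → Set X, IsClosedKTuple K F → ∃ P : Set X, IsKPartition K F P ∧
    (P = ∅ ∨ ∃ β : Ordinal.{0}, ∃ _ : β < α, KIndLE K β P)
termination_by α

end Pool.Agent.GT63.KDim
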