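import Mathlib
import Pool.Agent.GT63.KDimDefs

/-!
# The four-cycle as a simplicial complex
-/

set_option autoImplicit false

open Set Geometry

namespace Pool.Agent.GT63.KDim

/-- The ambient Euclidean space. -/
abbrev E4 : Type := EuclideanSpace ℝ (Fin 4)

/-- The four vertices. -/
noncomputable def vtx (i : Fin 4) : E4 := EuclideanSpace.single i (1 : ℝ)

lemma vtx_apply (i j : Fin 4) : vtx i j = if j = i then 1 else 0 := by
  simp [vtx]

lemma vtx_injective : Function.Injective vtx := by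
  intro i j hij
  by_contra h
  have h1 := congrArg (fun x : E4 => x i) hij
  simp only [vtx_apply, if_true, if_neg h] at h1
  norm_num at h1

lemma linInd : LinearIndependent ℝ vtx := by
  have h := (EuclideanSpace.basisFun (Fin 4) ℝ).orthonormal.linearIndependent
  have e : ⇑(EuclideanSpace.basisFun (Fin 4) ℝ) = vtx := by
    funext i
    simp [vtx]
  rwa [e] at h

/-- The faces of the four-cycle. -/
def cycFaces : Set (Finset E4) :=
  {s | s.Nonempty ∧ (∀ x ∈ s, ∃ i, x = vtx i) ∧ ¬ (vtx 0 ∈ s ∧ vtx 2 ∈ s) ∧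
    ¬ (vtx 1 ∈ s ∧ vtx 3 ∈ s)}

open Classical in
/-- The four-cycle: the vertices are `vtx 0, vtx 1, vtx 2, vtx 3`, and the edges are
`{vtx i, vtx (i+1)}` (indices mod 4). -/
noncomputable def cyc : Geometry.SimplicialComplex ℝ E4 :=
  Geometry.SimplicialComplex.ofAffineIndependent
    (⟨cycFaces, by
      intro s hs
      refine ⟨hs.1, fun t hts ht => ?_⟩
      exact ⟨ht, fun x hx => hs.2.1 x (hts hx), fun h => hs.2.2.1 ⟨hts h.1, hts h.2⟩,
        fun h => hs.2.2.2 ⟨hts h.1, hts h.2⟩⟩⟩ : PreAbstractSimplicialComplex E4)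
    (by
      refine linInd.affineIndependent.range.mono fun x hx => ?_
      simp only [mem_iUnion, Finset.mem_coe] at hx
      obtain ⟨s, hs, hx⟩ := hx
      obtain ⟨i, rfl⟩ := hs.2.1 x hx
      exact ⟨i, rfl⟩)

lemma cyc_faces : cyc.faces = cycFaces := rfl

lemma mem_vertices {e : E4} : e ∈ cyc.vertices ↔ ∃ i, e = vtx i := by
  rw [Geometry.SimplicialComplex.mem_vertices, cyc_faces]
  constructor
  · intro h
    exact h.2.1 e (by simp)
  · rintro ⟨i, rfl⟩
    refine ⟨by simp, fun x hx => ⟨i, by simpa using hx⟩, ?_, ?_⟩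
    · rintro ⟨h1, h2⟩
      rw [Finset.mem_singleton] at h1 h2
      have := vtx_injective (h1.trans h2.symm)
      exact absurd this (by decide)
    · rintro ⟨h1, h2⟩
      rw [Finset.mem_singleton] at h1 h2
      have := vtx_injective (h1.trans h2.symm)
      exact absurd this (by decide)

lemma cyc_finite : cyc.faces.Finite := by
  classical
  refine ((Finset.univ.image vtx).powerset.finite_toSet).subset fun s hs => ?_
  simp only [Finset.coe_powerset, Set.mem_preimage, Set.mem_powerset_iff]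
  intro x hx
  obtain ⟨i, rfl⟩ := hs.2.1 x hx
  simp

lemma tuple_iff {X : Type} {A : E4 → Set X} : IsKTuple cyc A ↔
    Disjoint (A (vtx 0)) (A (vtx 2)) ∧ Disjoint (A (vtx 1)) (A (vtx 3)) := by
  classical
  constructor
  · intro h
    have aux : ∀ i j : Fin 4, ({vtx i, vtx j} : Finset E4) ∉ cycFaces →
        Disjoint (A (vtx i)) (A (vtx j)) := by
      intro i j hij
      rw [Set.disjoint_left]
      intro x hx hx'
      apply hij
      refine h {vtx i, vtx j} (by simp) ?_ ⟨x, ?_⟩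
      · intro e he
        rw [mem_vertices]
        rcases Finset.mem_insert.1 he with h | h
        · exact ⟨i, h⟩
        · exact ⟨j, Finset.mem_singleton.1 h⟩
      · simp [hx, hx']
    exact ⟨aux 0 2 fun h => h.2.2.1 (by simp), aux 1 3 fun h => h.2.2.2 (by simp)⟩
  · rintro ⟨h1, h2⟩ I hI hv ⟨x, hx⟩
    rw [mem_iInter₂] at hx
    refine ⟨hI, fun e he => mem_vertices.1 (hv e he), ?_, ?_⟩
    · rintro ⟨h3, h4⟩
      exact Set.disjoint_left.1 h1 (hx _ h3) (hx _ h4)
    · rintro ⟨h3, h4⟩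
      exact Set.disjoint_left.1 h2 (hx _ h3) (hx _ h4)

/-- A tuple indexed by `Fin 4` as a function on the ambient space. -/
def mk {X : Type} (a : Fin 4 → Set X) : E4 → Set X := fun e => {x | ∃ i, vtx i = e ∧ x ∈ a i}

lemma mk_vtx {X : Type} (a : Fin 4 → Set X) (i : Fin 4) : mk a (vtx i) = a i := by
  ext x
  constructor
  · rintro ⟨j, hj, hx⟩
    rwa [← vtx_injective hj]
  · intro hx
    exact ⟨i, rfl, hx⟩

lemma biUnion_vertices {X : Type} (A : E4 → Set X) :
    (⋃ e ∈ cyc.vertices, A e) = ⋃ i, A (vtx i) := by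
  ext x
  simp only [mem_iUnion, mem_vertices]
  constructor
  · rintro ⟨_, ⟨i, rfl⟩, hx⟩
    exact ⟨i, hx⟩
  · rintro ⟨i, hx⟩
    exact ⟨_, ⟨i, rfl⟩, hx⟩

lemma closedTuple_mk {X : Type} [TopologicalSpace X] (a : Fin 4 → Set X)
    (hc : ∀ i, IsClosed (a i)) (h1 : Disjoint (a 0) (a 2)) (h2 : Disjoint (a 1) (a 3)) :
    IsClosedKTuple cyc (mk a) := by
  refine ⟨tuple_iff.2 ?_, ?_⟩
  · simp only [mk_vtx]
    exact ⟨h1, h2⟩
  · intro e he
    obtain ⟨i, rfl⟩ := mem_vertices.1 he
    rw [mk_vtx]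
    exact hc i

lemma partition_iff {X : Type} [TopologicalSpace X] {F : E4 → Set X} {P : Set X} :
    IsKPartition cyc F P ↔ ∃ a : Fin 4 → Set X, (∀ i, IsOpen (a i)) ∧
      Disjoint (a 0) (a 2) ∧ Disjoint (a 1) (a 3) ∧ (∀ i, F (vtx i) ⊆ a i) ∧
      P = (⋃ i, a i)ᶜ := by
  constructor
  · rintro ⟨U, ⟨hU, hUo⟩, hF, hP⟩
    rw [tuple_iff] at hU
    refine ⟨fun i => U (vtx i), fun i => hUo _ (mem_vertices.2 ⟨i, rfl⟩), hU.1, hU.2,
      fun i => hF _ (mem_vertices.2 ⟨i, rfl⟩), ?_⟩
    rw [hP, biUnion_vertices]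
  · rintro ⟨a, ha, h1, h2, hF, hP⟩
    refine ⟨mk a, ⟨tuple_iff.2 ?_, ?_⟩, ?_, ?_⟩
    · simp only [mk_vtx]
      exact ⟨h1, h2⟩
    · intro e he
      obtain ⟨i, rfl⟩ := mem_vertices.1 he
      rw [mk_vtx]
      exact ha i
    · intro e he
      obtain ⟨i, rfl⟩ := mem_vertices.1 he
      rw [mk_vtx]
      exact hF i
    · rw [hP, biUnion_vertices]
      simp only [mk_vtx]

/-! ### The polyhedron -/

lemma sum_vtx (x : E4) : x = ∑ i, x i • vtx i := by
  ext j
  simp [vtx_apply]

lemma mem_space {x : E4} : x ∈ cyc.space ↔ (∀ i, 0 ≤ x i) ∧ ∑ i, x i = 1 ∧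
    (x 0 = 0 ∨ x 2 = 0) ∧ (x 1 = 0 ∨ x 3 = 0) := by
  classical
  rw [Geometry.SimplicialComplex.mem_space_iff, cyc_faces]
  constructor
  · rintro ⟨s, hs, hx⟩
    have hconv : Convex ℝ {x : E4 | (∀ i, 0 ≤ x i) ∧ ∑ i, x i = 1 ∧ ∀ i, vtx i ∉ s → x i = 0} := by
      intro x hx y hy a b ha hb hab
      refine ⟨fun i => ?_, ?_, fun i hi => ?_⟩
      · simp only [PiLp.add_apply, PiLp.smul_apply, smul_eq_mul]
        exact add_nonneg (mul_nonneg ha (hx.1 i)) (mul_nonneg hb (hy.1 i))
      · simp only [PiLp.add_apply, PiLp.smul_apply, smul_eq_mul, Finset.sum_add_distrib,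
          ← Finset.mul_sum, hx.2.1, hy.2.1, mul_one]
        exact hab
      · simp [hx.2.2 i hi, hy.2.2 i hi]
    have hsub : (s : Set E4) ⊆
        {x : E4 | (∀ i, 0 ≤ x i) ∧ ∑ i, x i = 1 ∧ ∀ i, vtx i ∉ s → x i = 0} := by
      intro x hx
      obtain ⟨j, rfl⟩ := hs.2.1 x hx
      refine ⟨fun i => ?_, ?_, fun i hi => ?_⟩
      · rw [vtx_apply]; split_ifs <;> norm_num
      · simp [vtx_apply]
      · rw [vtx_apply, if_neg]
        rintro rfl
        exact hi hx
    obtain ⟨h1, h2, h3⟩ := convexHull_min hsub hconv hx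
    refine ⟨h1, h2, ?_, ?_⟩
    · by_contra hcon
      push Not at hcon
      apply hs.2.2.1
      constructor
      · by_contra h; exact hcon.1 (h3 0 h)
      · by_contra h; exact hcon.2 (h3 2 h)
    · by_contra hcon
      push Not at hcon
      apply hs.2.2.2
      constructor
      · by_contra h; exact hcon.1 (h3 1 h)
      · by_contra h; exact hcon.2 (h3 3 h)
  · rintro ⟨h1, h2, h3, h4⟩
    set t : Finset (Fin 4) := Finset.univ.filter fun i => x i ≠ 0 with ht
    have hsum : ∑ i ∈ t, x i = 1 := by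
      rw [← h2, ht, Finset.sum_filter_ne_zero]
    refine ⟨t.image vtx, ⟨?_, ?_, ?_, ?_⟩, ?_⟩
    · rw [Finset.image_nonempty]
      by_contra hne
      rw [Finset.not_nonempty_iff_eq_empty] at hne
      rw [hne] at hsum
      simp at hsum
    · intro y hy
      obtain ⟨i, _, rfl⟩ := Finset.mem_image.1 hy
      exact ⟨i, rfl⟩
    · rintro ⟨h5, h6⟩
      rw [Finset.mem_image] at h5 h6
      obtain ⟨i, hi, hi'⟩ := h5
      obtain ⟨j, hj, hj'⟩ := h6
      rw [vtx_injective hi'] at hi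
      rw [vtx_injective hj'] at hj
      simp only [ht, Finset.mem_filter, Finset.mem_univ, true_and] at hi hj
      rcases h3 with h | h
      · exact hi h
      · exact hj h
    · rintro ⟨h5, h6⟩
      rw [Finset.mem_image] at h5 h6
      obtain ⟨i, hi, hi'⟩ := h5
      obtain ⟨j, hj, hj'⟩ := h6
      rw [vtx_injective hi'] at hi
      rw [vtx_injective hj'] at hj
      simp only [ht, Finset.mem_filter, Finset.mem_univ, true_and] at hi hj
      rcases h4 with h | h
      · exact hi h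
      · exact hj h
    · have hx : x = ∑ i ∈ t, x i • vtx i := by
        conv_lhs => rw [sum_vtx x]
        rw [ht, Finset.sum_filter_of_ne]
        intro i _ hi h0
        exact hi (by rw [h0, zero_smul])
      rw [hx]
      refine (convex_convexHull ℝ _).sum_mem (fun i _ => h1 i) hsum fun i hi => ?_
      exact subset_convexHull ℝ _ (Finset.mem_coe.2 (Finset.mem_image_of_mem _ hi))

end Pool.Agent.GT63.KDim
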