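import Mathlib
import Pool.Agent.GT63.FourCycle
import Pool.Agent.GT63.Cubical

/-!
# The polyhedron of the four-cycle is connected and not contractible
-/

set_option autoImplicit false

open Set Geometry Filter Topology

namespace Pool.Agent.GT63.KDim

lemma pair_mem_faces {i j : Fin 4} (h : ¬ (({i, j} : Finset (Fin 4)) = {0, 2}))
    (h' : ¬ (({i, j} : Finset (Fin 4)) = {1, 3})) (hij : i ≠ j) :
    ({vtx i, vtx j} : Finset E4) ∈ cyc.faces := by
  classical
  rw [cyc_faces]
  refine ⟨by simp, ?_, ?_, ?_⟩
  · intro x hx
    rcases Finset.mem_insert.1 hx with h | h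
    · exact ⟨i, h⟩
    · exact ⟨j, Finset.mem_singleton.1 h⟩
  · rintro ⟨h1, h2⟩
    simp only [Finset.mem_insert, Finset.mem_singleton, vtx_injective.eq_iff] at h1 h2
    revert i j
    decide
  · rintro ⟨h1, h2⟩
    simp only [Finset.mem_insert, Finset.mem_singleton, vtx_injective.eq_iff] at h1 h2
    revert i j
    decide

lemma seg_sub {i j : Fin 4} (h : ({vtx i, vtx j} : Finset E4) ∈ cyc.faces) :
    segment ℝ (vtx i) (vtx j) ⊆ cyc.space := by
  have h1 := cyc.convexHull_subset_space h
  rw [← convexHull_pair]
  simpa using h1

lemma space_eq : cyc.space = segment ℝ (vtx 0) (vtx 1) ∪ segment ℝ (vtx 1) (vtx 2) ∪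
    segment ℝ (vtx 2) (vtx 3) ∪ segment ℝ (vtx 3) (vtx 0) := by
  apply Subset.antisymm
  · intro x hx
    obtain ⟨h1, h2, h3, h4⟩ := mem_space.1 hx
    have hs := sum_vtx x
    rw [Fin.sum_univ_four] at h2 hs
    rcases h3 with h3 | h3 <;> rcases h4 with h4 | h4
    · -- 2, 3
      left; right
      refine ⟨x 2, x 3, h1 2, h1 3, by linarith, ?_⟩
      rw [h3, h4] at hs
      rw [hs]; simp [vtx_apply]
    · left; left; right
      refine ⟨x 1, x 2, h1 1, h1 2, by linarith, ?_⟩
      rw [h3, h4] at hs
      rw [hs]; simp [vtx_apply]
    · right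
      refine ⟨x 3, x 0, h1 3, h1 0, by linarith, ?_⟩
      rw [h3, h4] at hs
      rw [hs]; simp [vtx_apply]; abel
    · left; left; left
      refine ⟨x 0, x 1, h1 0, h1 1, by linarith, ?_⟩
      rw [h3, h4] at hs
      rw [hs]; simp [vtx_apply]
  · refine union_subset (union_subset (union_subset ?_ ?_) ?_) ?_
    · exact seg_sub (pair_mem_faces (by decide) (by decide) (by decide))
    · exact seg_sub (pair_mem_faces (by decide) (by decide) (by decide))
    · exact seg_sub (pair_mem_faces (by decide) (by decide) (by decide))
    · exact seg_sub (pair_mem_faces (by decide) (by decide) (by decide))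

lemma isConnected_space : IsConnected cyc.space := by
  have hseg : ∀ x y : E4, IsConnected (segment ℝ x y) := fun x y =>
    ⟨⟨x, left_mem_segment ℝ x y⟩, (convex_segment x y).isPreconnected⟩
  rw [space_eq]
  refine IsConnected.union ⟨vtx 3, ?_, left_mem_segment ℝ _ _⟩
    (IsConnected.union ⟨vtx 2, ?_, left_mem_segment ℝ _ _⟩
      (IsConnected.union ⟨vtx 1, right_mem_segment ℝ _ _, left_mem_segment ℝ _ _⟩
        (hseg _ _) (hseg _ _)) (hseg _ _)) (hseg _ _)
  · right; exact right_mem_segment ℝ _ _
  · right; exact right_mem_segment ℝ _ _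

/-- centred coordinates of the square -/
noncomputable def ctr (x : Bool → unitInterval) (b : Bool) : ℝ := 2 * (x b : ℝ) - 1

lemma ctr_cont (b : Bool) : Continuous fun x => ctr x b := by
  unfold ctr
  fun_prop

lemma ctr_le (x : Bool → unitInterval) (b : Bool) : |ctr x b| ≤ 1 := by
  unfold ctr
  have h1 := (x b).2.1
  have h2 := (x b).2.2
  rw [abs_le]
  constructor <;> linarith

/-- the radial map, before normalisation -/
noncomputable def rad (x : Bool → unitInterval) : E4 :=
  WithLp.toLp 2 ![max (-ctr x false) 0, max (-ctr x true) 0, max (ctr x false) 0,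
    max (ctr x true) 0]

noncomputable def nrm (x : Bool → unitInterval) : ℝ := |ctr x false| + |ctr x true|

lemma nrm_cont : Continuous nrm := by
  unfold nrm
  exact (ctr_cont _).abs.add (ctr_cont _).abs

lemma rad_cont : Continuous rad := by
  unfold rad
  refine (PiLp.continuous_toLp 2 _).comp ?_
  refine continuous_pi fun i => ?_
  have h0 := ctr_cont false
  have h1 := ctr_cont true
  fin_cases i
  · exact h0.neg.max continuous_const
  · exact h1.neg.max continuous_const
  · exact h0.max continuous_const
  · exact h1.max continuous_const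

lemma rad_mem {x : Bool → unitInterval} (h : nrm x ≠ 0) : (nrm x)⁻¹ • rad x ∈ cyc.space := by
  have hpos : 0 < nrm x := lt_of_le_of_ne (by unfold nrm; positivity) h.symm
  have key : ∀ t : ℝ, max (-t) 0 + max t 0 = |t| := by
    intro t
    rcases le_total 0 t with h | h
    · rw [max_eq_right (by linarith), max_eq_left h, abs_of_nonneg h]; ring
    · rw [max_eq_left (by linarith), max_eq_right h, abs_of_nonpos h]; ring
  have key2 : ∀ t : ℝ, max (-t) 0 = 0 ∨ max t 0 = 0 := by
    intro t
    rcases le_total 0 t with h | h
    · left; exact max_eq_right (by linarith)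
    · right; exact max_eq_right h
  rw [mem_space]
  refine ⟨fun i => ?_, ?_, ?_, ?_⟩
  · rw [PiLp.smul_apply, smul_eq_mul]
    refine mul_nonneg (inv_nonneg.2 hpos.le) ?_
    fin_cases i <;> simp [rad]
  · rw [Fin.sum_univ_four]
    simp only [PiLp.smul_apply, smul_eq_mul, rad]
    simp only [Matrix.cons_val_zero, Matrix.cons_val_one, Matrix.cons_val]
    have h1 := key (ctr x false)
    have h2 := key (ctr x true)
    have : max (-ctr x false) 0 + max (-ctr x true) 0 + max (ctr x false) 0 +
        max (ctr x true) 0 = nrm x := by
      unfold nrm; linarith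
    rw [← mul_add, ← mul_add, ← mul_add, this, inv_mul_cancel₀ h]
  · rcases key2 (ctr x false) with h | h
    · left; simp [rad, h]
    · right; simp [rad, h]
  · rcases key2 (ctr x true) with h | h
    · left; simp [rad, h]
    · right; simp [rad, h]

open Classical in
/-- the radial map -/
noncomputable def qmap (x : Bool → unitInterval) : cyc.space :=
  if h : nrm x ≠ 0 then ⟨(nrm x)⁻¹ • rad x, rad_mem h⟩ else
    ⟨vtx 0, by rw [space_eq]; left; left; left; exact left_mem_segment ℝ _ _⟩

lemma qmap_val {x : Bool → unitInterval} (h : nrm x ≠ 0) :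
    (qmap x : E4) = (nrm x)⁻¹ • rad x := by
  unfold qmap
  rw [dif_pos h]

lemma qmap_cont {x : Bool → unitInterval} (h : nrm x ≠ 0) : ContinuousAt qmap x := by
  rw [Topology.IsInducing.subtypeVal.continuousAt_iff]
  have h1 : ContinuousAt (fun x => (nrm x)⁻¹ • rad x) x :=
    (nrm_cont.continuousAt.inv₀ h).smul rad_cont.continuousAt
  refine h1.congr ?_
  filter_upwards [nrm_cont.continuousAt.eventually_ne h] with y hy
  exact (qmap_val hy).symm

/-- the time parameter -/
noncomputable def tpar (x : Bool → unitInterval) : unitInterval :=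
  Set.projIcc 0 1 zero_le_one (2 - 2 * max |ctr x false| |ctr x true|)

lemma tpar_cont : Continuous tpar := by
  unfold tpar
  refine continuous_projIcc.comp ?_
  exact continuous_const.sub (continuous_const.mul ((ctr_cont _).abs.max (ctr_cont _).abs))

theorem not_contractible : ¬ ContractibleSpace cyc.space := by
  intro hc
  obtain ⟨y, ⟨F⟩⟩ := id_nullhomotopic cyc.space
  set G : (Bool → unitInterval) → cyc.space := fun x => F (tpar x, qmap x) with hG
  have hGc : Continuous G := by
    rw [continuous_iff_continuousAt]
    intro x
    by_cases h : nrm x = 0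
    · have hev : ∀ᶠ z in 𝓝 x, G z = y := by
        have h1 : max |ctr x false| |ctr x true| < 1 / 2 := by
          unfold nrm at h
          have h2 := abs_nonneg (ctr x false)
          have h3 := abs_nonneg (ctr x true)
          rw [max_lt_iff]
          constructor <;> linarith
        have h2 : Continuous fun z => max |ctr z false| |ctr z true| :=
          (ctr_cont _).abs.max (ctr_cont _).abs
        filter_upwards [h2.continuousAt.eventually_lt continuousAt_const h1] with z hz
        have h3 : tpar z = 1 := by
          unfold tpar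
          rw [Set.projIcc_of_right_le]
          · rfl
          · linarith
        simp only [hG, h3]
        exact F.apply_one _
      refine ContinuousAt.congr (f := fun _ => y) continuousAt_const ?_
      filter_upwards [hev] with z hz using hz.symm
    · exact F.continuous.continuousAt.comp (tpar_cont.continuousAt.prodMk (qmap_cont h))
  have hGv : ∀ i : Fin 4, Continuous fun x => (G x : E4) i := fun i =>
    (EuclideanSpace.proj (𝕜 := ℝ) i).continuous.comp (continuous_subtype_val.comp hGc)
  -- on the boundary
  have hbd : ∀ x, max |ctr x false| |ctr x true| = 1 → G x = qmap x := by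
    intro x hx
    have h3 : tpar x = 0 := by
      unfold tpar
      rw [Set.projIcc_of_le_left]
      · rfl
      · rw [hx]; norm_num
    simp only [hG, h3]
    exact F.apply_zero _
  have hbd' : ∀ x b, |ctr x b| = 1 → G x = qmap x ∧ nrm x ≠ 0 := by
    intro x b hb
    have h1 := ctr_le x false
    have h2 := ctr_le x true
    constructor
    · apply hbd
      cases b
      · rw [hb]; exact max_eq_left h2
      · rw [hb]; exact max_eq_right h1
    · unfold nrm
      have h3 := abs_nonneg (ctr x false)
      have h4 := abs_nonneg (ctr x true)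
      cases b <;> linarith
  have hpos : ∀ x b (i : Fin 4), |ctr x b| = 1 → 0 < rad x i → 0 < (G x : E4) i := by
    intro x b i hb hr
    obtain ⟨h1, h2⟩ := hbd' x b hb
    rw [h1, qmap_val h2, PiLp.smul_apply, smul_eq_mul]
    refine mul_pos (inv_pos.2 ?_) hr
    exact lt_of_le_of_ne (by unfold nrm; positivity) h2.symm
  obtain ⟨x, hx⟩ := Cubical.partitions_meet (ι := Bool)
    (fun b => if b then {x | 0 < (G x : E4) 1} else {x | 0 < (G x : E4) 0})
    (fun b => if b then {x | 0 < (G x : E4) 3} else {x | 0 < (G x : E4) 2})
    (by
      intro b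
      cases b
      · exact isOpen_lt continuous_const (hGv 0)
      · exact isOpen_lt continuous_const (hGv 1))
    (by
      intro b
      cases b
      · exact isOpen_lt continuous_const (hGv 2)
      · exact isOpen_lt continuous_const (hGv 3))
    (by
      intro b
      cases b
      · rw [Set.disjoint_left]
        intro z hz hz'
        have h1 : 0 < (G z : E4) 0 := hz
        have h2 : 0 < (G z : E4) 2 := hz'
        rcases (mem_space.1 (G z).2).2.2.1 with h | h
        · exact h1.ne' h
        · exact h2.ne' h
      · rw [Set.disjoint_left]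
        intro z hz hz'
        have h1 : 0 < (G z : E4) 1 := hz
        have h2 : 0 < (G z : E4) 3 := hz'
        rcases (mem_space.1 (G z).2).2.2.2 with h | h
        · exact h1.ne' h
        · exact h2.ne' h)
    (by
      intro b z hz
      cases b
      · show 0 < (G z : E4) 0
        have h1 : ctr z false = -1 := by simp [ctr, hz]
        apply hpos z false 0 (by rw [h1]; norm_num)
        simp [rad, h1]
      · show 0 < (G z : E4) 1
        have h1 : ctr z true = -1 := by simp [ctr, hz]
        apply hpos z true 1 (by rw [h1]; norm_num)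
        simp [rad, h1])
    (by
      intro b z hz
      cases b
      · show 0 < (G z : E4) 2
        have h1 : ctr z false = 1 := by simp [ctr, hz]; norm_num
        apply hpos z false 2 (by rw [h1]; norm_num)
        simp [rad, h1]
      · show 0 < (G z : E4) 3
        have h1 : ctr z true = 1 := by simp [ctr, hz]; norm_num
        apply hpos z true 3 (by rw [h1]; norm_num)
        simp [rad, h1])
  have h1 := (mem_space.1 (G x).2).2.1
  rw [Fin.sum_univ_four] at h1
  have e0 : ¬ 0 < (G x : E4) 0 := (hx false).1
  have e2 : ¬ 0 < (G x : E4) 2 := (hx false).2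
  have e1 : ¬ 0 < (G x : E4) 1 := (hx true).1
  have e3 : ¬ 0 < (G x : E4) 3 := (hx true).2
  linarith

end Pool.Agent.GT63.KDim
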