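import Mathlib

set_option autoImplicit false

open Filter Topology Set

namespace Pool.Agent.GT63.Scheepers

/-! ### The construction -/

section construction

variable {X K : Type} [TopologicalSpace K] (p : X → K) (π : X → ℕ → ℕ)

/-- The topology: a neighbourhood of `x` contains all `y` with `p y` in some open set around `p x`,
`π y n ≤ π x n` for `n < N`, and `g ≤ π y` eventually, where `g ≤ π x` eventually. -/
@[instance_reducible] def top : TopologicalSpace X where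
  IsOpen U := ∀ x ∈ U, ∃ O : Set K, IsOpen O ∧ p x ∈ O ∧ ∃ (N : ℕ) (g : ℕ → ℕ),
    (∀ᶠ n in atTop, g n ≤ π x n) ∧ ∀ y, p y ∈ O → (∀ n < N, π y n ≤ π x n) →
      (∀ᶠ n in atTop, g n ≤ π y n) → y ∈ U
  isOpen_univ := fun x _ => ⟨univ, isOpen_univ, mem_univ _, 0, 0, by simp, fun y _ _ _ => mem_univ _⟩
  isOpen_inter := by
    rintro U V hU hV x ⟨hxU, hxV⟩
    obtain ⟨O, hO, hxO, N, g, hg, h⟩ := hU x hxU
    obtain ⟨O', hO', hxO', N', g', hg', h'⟩ := hV x hxV
    refine ⟨O ∩ O', hO.inter hO', ⟨hxO, hxO'⟩, max N N', fun n => max (g n) (g' n), ?_, ?_⟩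
    · filter_upwards [hg, hg'] with n h1 h2 using max_le h1 h2
    · intro y hy hyN hyg
      refine ⟨h y hy.1 (fun n hn => hyN n (lt_of_lt_of_le hn (le_max_left _ _))) ?_,
        h' y hy.2 (fun n hn => hyN n (lt_of_lt_of_le hn (le_max_right _ _))) ?_⟩
      · filter_upwards [hyg] with n hn using (le_max_left _ _).trans hn
      · filter_upwards [hyg] with n hn using (le_max_right _ _).trans hn
  isOpen_sUnion := by
    rintro S hS x ⟨U, hUS, hxU⟩
    obtain ⟨O, hO, hxO, N, g, hg, h⟩ := hS U hUS x hxU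
    exact ⟨O, hO, hxO, N, g, hg, fun y h1 h2 h3 => ⟨U, hUS, h y h1 h2 h3⟩⟩

lemma continuous_p : @Continuous X K (top p π) _ p := by
  refine @Continuous.mk X K (top p π) _ p fun O hO x hx => ?_
  exact ⟨O, hO, hx, 0, 0, by simp, fun y hy _ _ => hy⟩

lemma isOpen_le (n k : ℕ) : @IsOpen X (top p π) {x | π x n ≤ k} := by
  intro x hx
  refine ⟨univ, isOpen_univ, mem_univ _, n + 1, 0, by simp, fun y _ hy _ => ?_⟩
  exact (hy n (Nat.lt_succ_self n)).trans hx

lemma isOpen_ge (g : ℕ → ℕ) : @IsOpen X (top p π) {x | ∀ᶠ n in atTop, g n ≤ π x n} := by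
  intro x hx
  exact ⟨univ, isOpen_univ, mem_univ _, 0, g, hx, fun y _ _ hy => hy⟩

variable (hd : ∀ O : Set K, IsOpen O → O.Nonempty → ∀ g : ℕ → ℕ, ∃ x : X, p x ∈ O ∧ π x = g)

include hd in
/-- Every open cover has a finite subfamily with dense union. -/
lemma finite_dense [CompactSpace K] (hp : Function.Surjective p) (𝒰 : Set (Set X))
    (hU : ∀ U ∈ 𝒰, @IsOpen X (top p π) U) (hcov : ⋃₀ 𝒰 = univ) :
    ∃ 𝒱 ⊆ 𝒰, 𝒱.Finite ∧ @Dense X (top p π) (⋃₀ 𝒱) := by
  classical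
  let _ := top p π
  have h1 : ∀ x : X, ∃ U ∈ 𝒰, x ∈ U := fun x => by
    have : x ∈ ⋃₀ 𝒰 := hcov ▸ mem_univ x
    simpa using this
  choose U hU𝒰 hxU using h1
  have h2 := fun x => hU (U x) (hU𝒰 x) x (hxU x)
  choose O hO hxO N g hg h using h2
  obtain ⟨t, ht⟩ := (isCompact_univ (X := K)).elim_finite_subcover O hO (by
    intro k _
    obtain ⟨x, rfl⟩ := hp k
    exact mem_iUnion.2 ⟨x, hxO x⟩)
  refine ⟨U '' (t : Set X), ?_, (t.finite_toSet).image _, ?_⟩
  · rintro _ ⟨x, _, rfl⟩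
    exact hU𝒰 x
  · rw [dense_iff_inter_open]
    intro V hV hVne
    obtain ⟨z, hz⟩ := hVne
    obtain ⟨O', hO', hzO', N', g', hg', h'⟩ := hV z hz
    obtain ⟨x, hx⟩ := mem_iUnion.1 (ht (mem_univ (p z)))
    obtain ⟨hxt, hx⟩ := mem_iUnion.1 hx
    obtain ⟨y, hy, hyπ⟩ := hd (O' ∩ O x) (hO'.inter (hO x)) ⟨p z, hzO', hx⟩
      (fun n => if n < max (N x) N' then 0 else max (g x n) (g' n))
    have hev : ∀ᶠ n in atTop, ¬ n < max (N x) N' := by
      filter_upwards [eventually_ge_atTop (max (N x) N')] with n hn using not_lt.2 hn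
    refine ⟨y, h' y hy.1 ?_ ?_, U x, mem_image_of_mem _ hxt, h x y hy.2 ?_ ?_⟩
    · intro n hn
      rw [hyπ]
      simp [lt_max_of_lt_right hn]
    · filter_upwards [hev] with n hn
      rw [hyπ]
      simp only [hn, if_false]
      exact le_max_right _ _
    · intro n hn
      rw [hyπ]
      simp [lt_max_of_lt_left hn]
    · filter_upwards [hev] with n hn
      rw [hyπ]
      simp only [hn, if_false]
      exact le_max_left _ _

include hd in
/-- No selection from the covers `{π x n ≤ k}` (`k : ℕ`) is compatible with a dense set `Y`. -/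
lemma no_dense [Nonempty K] (Y : Set X) (hY : @Dense X (top p π) Y) (𝒱 : ℕ → Set (Set X))
    (hsel : ∀ n, 𝒱 n ⊆ (range fun k : ℕ => {x | π x n ≤ k}) ∧ (𝒱 n).Finite)
    (hV : ∀ F : Set X, F.Finite → F ⊆ Y → {n | F ⊆ ⋃₀ 𝒱 n}.Infinite) : False := by
  classical
  let _ := top p π
  -- a bound for the selection
  have hb : ∀ n, ∃ k : ℕ, ⋃₀ 𝒱 n ⊆ {x | π x n ≤ k} := by
    intro n
    obtain ⟨hsub, hfin⟩ := hsel n
    have hsub' : ∀ U, U ∈ 𝒱 n → ∃ k : ℕ, {x | π x n ≤ k} = U := fun U hU => hsub hU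
    choose! κ hκ using hsub'
    refine ⟨hfin.toFinset.sup κ, ?_⟩
    rintro x ⟨U, hU, hx⟩
    rw [← hκ U hU] at hx
    have h1 : κ U ≤ hfin.toFinset.sup κ := Finset.le_sup (by simpa using hU)
    exact le_trans hx h1
  choose k hk using hb
  obtain ⟨x, _, hx⟩ := hd univ isOpen_univ univ_nonempty (fun n => k n + 1)
  obtain ⟨y, hy, hyY⟩ := hY.inter_open_nonempty _ (isOpen_ge p π (fun n => k n + 1))
    ⟨x, by simp [hx]⟩
  have h1 := hV {y} (finite_singleton y) (by simpa using hyY)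
  obtain ⟨M, hM⟩ := eventually_atTop.1 hy
  obtain ⟨n, hn, hMn⟩ := h1.exists_gt M
  have h2 : y ∈ ⋃₀ 𝒱 n := hn (mem_singleton y)
  have h3 := hk n h2
  have h4 := hM n hMn.le
  simp only [mem_ofPred_eq] at h3
  omega

lemma covers (n : ℕ) : (∀ U ∈ (range fun k : ℕ => {x | π x n ≤ k}), @IsOpen X (top p π) U) ∧
    ⋃₀ (range fun k : ℕ => {x | π x n ≤ k}) = univ := by
  refine ⟨?_, ?_⟩
  · rintro _ ⟨k, rfl⟩
    exact isOpen_le p π n k
  · ext x
    simp only [mem_sUnion, mem_range, exists_exists_eq_and, mem_univ, iff_true]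
    exact ⟨π x n, (le_refl _ : π x n ≤ π x n)⟩

end construction

/-- The underlying set of the example. -/
def Sp : Type := ℕ × ℕ → OnePoint ℕ

/-- The map to the compact space. -/
def toK (x : Sp) : ℕ × ℕ → OnePoint ℕ := x

open Classical in
/-- `code x n` is the eventual value of `m ↦ x (n, m)`, if that is a natural number. -/
noncomputable def code (x : Sp) (n : ℕ) : ℕ :=
  if h : ∃ k : ℕ, ∀ᶠ m in atTop, toK x (n, m) = (k : OnePoint ℕ) then h.choose else 0

lemma code_eq (x : Sp) (g : ℕ → ℕ)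
    (h : ∀ n, ∀ᶠ m in atTop, toK x (n, m) = (g n : OnePoint ℕ)) : code x = g := by
  funext n
  have h1 : ∃ k : ℕ, ∀ᶠ m in atTop, toK x (n, m) = (k : OnePoint ℕ) := ⟨g n, h n⟩
  unfold code
  rw [dif_pos h1]
  obtain ⟨m, h2, h3⟩ := ((h1.choose_spec).and (h n)).exists
  rw [h2] at h3
  exact OnePoint.coe_injective h3

lemma dense_fibres (O : Set (ℕ × ℕ → OnePoint ℕ)) (hO : IsOpen O) (hne : O.Nonempty)
    (g : ℕ → ℕ) : ∃ x : Sp, toK x ∈ O ∧ code x = g := by
  classical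
  obtain ⟨a, ha⟩ := hne
  obtain ⟨I, u, hu, hsub⟩ := isOpen_pi_iff.1 hO a ha
  set x : Sp := fun q => if q ∈ I then a q else (g q.1 : OnePoint ℕ) with hx
  refine ⟨x, hsub ?_, code_eq x g fun n => ?_⟩
  · intro q hq
    have hq' : q ∈ I := hq
    simp only [toK, hx, hq', if_true]
    exact (hu q hq').2
  · have hfin : {m | (n, m) ∈ I}.Finite :=
      (I.finite_toSet).preimage (fun a _ b _ hab => (Prod.mk.inj hab).2)
    have := hfin.eventually_cofinite_notMem
    rw [Nat.cofinite_eq_atTop] at this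
    filter_upwards [this] with m hm
    have hm' : (n, m) ∉ I := hm
    simp [toK, hx, hm']

end Pool.Agent.GT63.Scheepers
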