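import Mathlib

/-!
# The compact space

A compact space `Sp ι`: a copy of the cube `C = ι → [0,1]` for every `t : ℕ` (`t` codes a finite
sequence of natural numbers), for every `g : ℕ → ℕ` two copies of `C` with one point in common,
and one more copy of `C`.
-/

set_option autoImplicit false

open Set Filter Topology

namespace Pool.Agent.GT63.Space

variable (ι : Type) [Fintype ι]

/-- the cube -/
abbrev Cu : Type := ι → unitInterval

/-- code of the restriction of `g` to `{0,…,m-1}` -/
def nd (g : ℕ → ℕ) (m : ℕ) : ℕ := Encodable.encode ((List.range m).map g)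

lemma nd_inj {g g' : ℕ → ℕ} {m m' : ℕ} (h : nd g m = nd g' m') : m = m' ∧ ∀ k < m, g k = g' k := by
  have h1 := Encodable.encode_injective h
  have h2 : m = m' := by
    have := congrArg List.length h1
    simpa using this
  subst h2
  refine ⟨rfl, fun k hk => ?_⟩
  have h3 := List.map_inj_left.1 h1
  exact h3 k (List.mem_range.2 hk)

/-- a dense sequence of the cube -/
noncomputable def dn : ℕ → Cu ι := TopologicalSpace.denseSeq (Cu ι)

/-- a sequence which comes back to every term of the dense sequence -/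
noncomputable def zt (i : ℕ) : Cu ι := dn ι (Nat.unpair i).1

lemma exists_sub (g : ℕ → ℕ) : ∃ (s : Cu ι) (b : ℕ → ℕ), StrictMono b ∧
    Tendsto (fun i => dn ι (g (b i))) atTop (𝓝 s) := by
  obtain ⟨a, -, φ, hφ, ha⟩ := (isCompact_univ (X := Cu ι)).tendsto_subseq
    (x := fun m => dn ι (g m)) (fun _ => mem_univ _)
  exact ⟨a, φ, hφ, ha⟩

noncomputable def sl (g : ℕ → ℕ) : Cu ι := (exists_sub ι g).choose

noncomputable def bb (g : ℕ → ℕ) : ℕ → ℕ := (exists_sub ι g).choose_spec.choose

lemma bb_mono (g : ℕ → ℕ) : StrictMono (bb ι g) := (exists_sub ι g).choose_spec.choose_spec.1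

lemma bb_lim (g : ℕ → ℕ) : Tendsto (fun i => dn ι (g (bb ι g i))) atTop (𝓝 (sl ι g)) :=
  (exists_sub ι g).choose_spec.choose_spec.2

variable {ι}

/-- bump functions -/
noncomputable def lam (i : ℕ) (c x : Cu ι) : unitInterval :=
  Set.projIcc 0 1 zero_le_one (2 - ((i : ℝ) + 1) * dist x c)

lemma lam_one {i : ℕ} {c x : Cu ι} (h : ((i : ℝ) + 1) * dist x c ≤ 1) : lam i c x = 1 := by
  unfold lam
  rw [Set.projIcc_of_right_le]
  · rfl
  · linarith

lemma lam_zero {i : ℕ} {c x : Cu ι} (h : 2 ≤ ((i : ℝ) + 1) * dist x c) : lam i c x = 0 := by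
  unfold lam
  rw [Set.projIcc_of_le_left]
  · rfl
  · linarith

lemma lam_cont (i : ℕ) (c : Cu ι) : Continuous (lam i c) := by
  unfold lam
  refine continuous_projIcc.comp ?_
  fun_prop

/-- the map into the second cube on the component with code `nd g (bb g i)` -/
noncomputable def Hm (g : ℕ → ℕ) (i : ℕ) (x : Cu ι) : Cu ι :=
  fun k => lam i (dn ι (g (bb ι g i))) x * zt ι i k

lemma Hm_cont (g : ℕ → ℕ) (i : ℕ) : Continuous (Hm (ι := ι) g i) := by
  refine continuous_pi fun k => ?_
  exact (lam_cont i _).mul continuous_const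

variable (ι) in
/-- `t` belongs to the sequence of the branch `g` -/
def Bs (g : ℕ → ℕ) (t : ℕ) : Prop := ∃ i, t = nd g (bb ι g i)

open Classical in
noncomputable def Hh (g : ℕ → ℕ) (t : ℕ) (x : Cu ι) : Cu ι :=
  if h : Bs ι g t then Hm g h.choose x else 0

lemma Hh_nd (g : ℕ → ℕ) (i : ℕ) (x : Cu ι) : Hh g (nd g (bb ι g i)) x = Hm g i x := by
  have h : Bs ι g (nd g (bb ι g i)) := ⟨i, rfl⟩
  unfold Hh
  rw [dif_pos h]
  have h1 := (nd_inj h.choose_spec).1
  rw [← (bb_mono ι g).injective h1]

lemma Hh_zero {g : ℕ → ℕ} {t : ℕ} (h : ¬ Bs ι g t) (x : Cu ι) : Hh g t x = 0 := by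
  unfold Hh
  rw [dif_neg h]

lemma Hh_cont (g : ℕ → ℕ) (t : ℕ) : Continuous (Hh (ι := ι) g t) := by
  by_cases h : Bs ι g t
  · obtain ⟨i, rfl⟩ := h
    have : Hh (ι := ι) g (nd g (bb ι g i)) = Hm g i := funext fun x => Hh_nd g i x
    rw [this]
    exact Hm_cont g i
  · have : Hh (ι := ι) g t = fun _ => 0 := funext fun x => Hh_zero h x
    rw [this]
    exact continuous_const

lemma Bs_fin {g g' : ℕ → ℕ} (h : g ≠ g') : {t | Bs ι g t ∧ Bs ι g' t}.Finite := by
  obtain ⟨k, hk⟩ := Function.ne_iff.1 h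
  refine (Finite.image (nd g) (finite_Iic k)).subset ?_
  rintro t ⟨⟨i, rfl⟩, ⟨j, hj⟩⟩
  refine ⟨bb ι g i, ?_, rfl⟩
  by_contra hcon
  simp only [mem_Iic, not_le] at hcon
  exact hk ((nd_inj hj).2 k hcon)

variable (ι) in
/-- the ambient product -/
abbrev Amb : Type := (ℕ → Bool) × ((ℕ → ℕ) → Bool) × Cu ι × ((ℕ → ℕ) → Cu ι)

variable (ι) in
/-- the defining conditions -/
structure Cond (p : Amb ι) : Prop where
  c0 : ∀ t t', p.1 t = true → p.1 t' = true → t = t'
  c1 : ∀ t g, p.1 t = true → (p.2.1 g = true ↔ Bs ι g t) ∧ p.2.2.2 g = Hh g t p.2.2.1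
  c2 : ∀ g g', g ≠ g' → p.2.1 g = true → p.2.1 g' = true →
    ∃ t, (Bs ι g t ∧ Bs ι g' t) ∧ p.1 t = true
  c3 : ∀ g, p.2.1 g = false → p.2.2.2 g = 0
  c4 : ∀ g, p.2.1 g = true → (∃ t, Bs ι g t ∧ p.1 t = true) ∨ p.2.2.1 = sl ι g ∨ p.2.2.2 g = 0

lemma isClosed_bool {Y : Type*} [TopologicalSpace Y] {f : Y → Bool} (hf : Continuous f) (b : Bool) :
    IsClopen {y | f y = b} := (isClopen_discrete {b}).preimage hf

lemma isClosed_cond : IsClosed {p : Amb ι | Cond ι p} := by
  classical
  have hα : ∀ t, Continuous fun p : Amb ι => p.1 t := fun t => by fun_prop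
  have hβ : ∀ g, Continuous fun p : Amb ι => p.2.1 g := fun g => by fun_prop
  have hx : Continuous fun p : Amb ι => p.2.2.1 := by fun_prop
  have hz : ∀ g, Continuous fun p : Amb ι => p.2.2.2 g := fun g => by fun_prop
  have k0 : IsClosed {p : Amb ι | ∀ t t', p.1 t = true → p.1 t' = true → t = t'} := by
    simp only [ofPred_forall]
    refine isClosed_iInter fun t => isClosed_iInter fun t' => ?_
    by_cases h : t = t'
    · simp [h]
    · have : {p : Amb ι | p.1 t = true → p.1 t' = true → t = t'} =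
          {p | p.1 t = false} ∪ {p | p.1 t' = false} := by
        ext p
        simp only [h, mem_ofPred_eq, mem_union, imp_false]
        cases p.1 t <;> cases p.1 t' <;> simp
      rw [this]
      exact ((isClosed_bool (hα t) false).isClosed).union (isClosed_bool (hα t') false).isClosed
  have k1 : IsClosed {p : Amb ι | ∀ t g, p.1 t = true → (p.2.1 g = true ↔ Bs ι g t) ∧
      p.2.2.2 g = Hh g t p.2.2.1} := by
    simp only [ofPred_forall]
    refine isClosed_iInter fun t => isClosed_iInter fun g => ?_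
    have : {p : Amb ι | p.1 t = true → (p.2.1 g = true ↔ Bs ι g t) ∧
        p.2.2.2 g = Hh g t p.2.2.1} = {p | p.1 t = false} ∪
        ({p | p.2.1 g = decide (Bs ι g t)} ∩ {p | p.2.2.2 g = Hh g t p.2.2.1}) := by
      ext p
      simp only [mem_ofPred_eq, mem_union, mem_inter_iff]
      by_cases h : Bs ι g t <;> cases p.1 t <;> simp [h]
    rw [this]
    exact ((isClosed_bool (hα t) false).isClosed).union
      (((isClosed_bool (hβ g) _).isClosed).inter (isClosed_eq (hz g) ((Hh_cont g t).comp hx)))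
  have k2 : IsClosed {p : Amb ι | ∀ g g', g ≠ g' → p.2.1 g = true → p.2.1 g' = true →
      ∃ t, (Bs ι g t ∧ Bs ι g' t) ∧ p.1 t = true} := by
    simp only [ofPred_forall]
    refine isClosed_iInter fun g => isClosed_iInter fun g' => isClosed_iInter fun hne => ?_
    have : {p : Amb ι | p.2.1 g = true → p.2.1 g' = true →
        ∃ t, (Bs ι g t ∧ Bs ι g' t) ∧ p.1 t = true} = {p | p.2.1 g = false} ∪
        {p | p.2.1 g' = false} ∪ ⋃ t ∈ {t | Bs ι g t ∧ Bs ι g' t}, {p | p.1 t = true} := by
      ext p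
      simp only [mem_ofPred_eq, mem_union, mem_iUnion, exists_prop]
      cases p.2.1 g <;> cases p.2.1 g' <;> simp
    rw [this]
    refine (((isClosed_bool (hβ g) false).isClosed).union (isClosed_bool (hβ g') false).isClosed).union
      ?_
    exact (Bs_fin hne).isClosed_biUnion fun t _ => (isClosed_bool (hα t) true).isClosed
  have k3 : IsClosed {p : Amb ι | ∀ g, p.2.1 g = false → p.2.2.2 g = 0} := by
    simp only [ofPred_forall]
    refine isClosed_iInter fun g => ?_
    have : {p : Amb ι | p.2.1 g = false → p.2.2.2 g = 0} = {p | p.2.1 g = true} ∪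
        {p | p.2.2.2 g = 0} := by
      ext p
      simp only [mem_ofPred_eq, mem_union]
      cases p.2.1 g <;> simp
    rw [this]
    exact ((isClosed_bool (hβ g) true).isClosed).union (isClosed_eq (hz g) continuous_const)
  have hK := ((k0.inter k1).inter k2).inter k3
  -- the last condition
  rw [← isOpen_compl_iff, isOpen_iff_mem_nhds]
  intro p hp
  by_cases hpK : p ∈ {p : Amb ι | ∀ t t', p.1 t = true → p.1 t' = true → t = t'} ∩
    {p : Amb ι | ∀ t g, p.1 t = true → (p.2.1 g = true ↔ Bs ι g t) ∧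
      p.2.2.2 g = Hh g t p.2.2.1} ∩ {p : Amb ι | ∀ g g', g ≠ g' → p.2.1 g = true → p.2.1 g' = true →
      ∃ t, (Bs ι g t ∧ Bs ι g' t) ∧ p.1 t = true} ∩
      {p : Amb ι | ∀ g, p.2.1 g = false → p.2.2.2 g = 0}
  · obtain ⟨⟨⟨q0, q1⟩, q2⟩, q3⟩ := hpK
    have h4 : ¬ ∀ g, p.2.1 g = true → (∃ t, Bs ι g t ∧ p.1 t = true) ∨ p.2.2.1 = sl ι g ∨
        p.2.2.2 g = 0 := fun h => hp ⟨q0, q1, q2, q3, h⟩
    push Not at h4
    obtain ⟨g, hg, hnt, hxs, hzz⟩ := h4
    set ε : ℝ := dist p.2.2.1 (sl ι g) with hε
    have hεpos : 0 < ε := dist_pos.2 hxs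
    -- an index beyond which the bumps are supported near the limit point
    have h5 : ∀ᶠ i : ℕ in atTop, dist (dn ι (g (bb ι g i))) (sl ι g) < ε / 4 :=
      (Metric.tendsto_nhds.1 (bb_lim ι g)) (ε / 4) (by positivity)
    have h6 : ∀ᶠ i : ℕ in atTop, 8 / ε < (i : ℝ) := tendsto_natCast_atTop_atTop.eventually_gt_atTop _
    obtain ⟨N, hN⟩ := eventually_atTop.1 (h5.and h6)
    have o1 : {q : Amb ι | q.2.1 g = true} ∈ 𝓝 p := (isClosed_bool (hβ g) true).isOpen.mem_nhds hg
    have o2 : {q : Amb ι | dist q.2.2.1 p.2.2.1 < ε / 4} ∈ 𝓝 p :=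
      (isOpen_lt (hx.dist continuous_const) continuous_const).mem_nhds (by
        show dist p.2.2.1 p.2.2.1 < ε / 4
        rw [dist_self]; positivity)
    have o3 : {q : Amb ι | q.2.2.2 g ≠ 0} ∈ 𝓝 p :=
      (isOpen_ne_fun (hz g) continuous_const).mem_nhds hzz
    have o4 : (⋂ i ∈ Iio N, {q : Amb ι | q.1 (nd g (bb ι g i)) = false}) ∈ 𝓝 p := by
      refine (biInter_mem (finite_Iio N)).2 fun i _ => ?_
      refine (isClosed_bool (hα _) false).isOpen.mem_nhds ?_
      have := hnt (nd g (bb ι g i)) ⟨i, rfl⟩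
      simpa using this
    filter_upwards [o1, o2, o3, o4] with q hq1 hq2 hq3 hq4 hq
    rcases hq.c4 g hq1 with ⟨t, ⟨i, rfl⟩, ht⟩ | h | h
    · have hi : N ≤ i := by
        by_contra hlt
        have := mem_iInter₂.1 hq4 i (by simpa using hlt)
        simp only [mem_ofPred_eq] at this
        rw [this] at ht
        exact absurd ht (by simp)
      obtain ⟨hi1, hi2⟩ := hN i hi
      apply hq3
      rw [(hq.c1 _ g ht).2, Hh_nd]
      have hd : ε / 4 < dist q.2.2.1 (dn ι (g (bb ι g i))) := by
        have t1 : ε ≤ dist p.2.2.1 q.2.2.1 + dist q.2.2.1 (sl ι g) := dist_triangle _ _ _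
        have t2 : dist q.2.2.1 (sl ι g) ≤ dist q.2.2.1 (dn ι (g (bb ι g i))) +
          dist (dn ι (g (bb ι g i))) (sl ι g) := dist_triangle _ _ _
        rw [dist_comm p.2.2.1] at t1
        have : dist q.2.2.1 p.2.2.1 < ε / 4 := hq2
        linarith
      have hl : lam i (dn ι (g (bb ι g i))) q.2.2.1 = 0 := by
        apply lam_zero
        have h8 : 8 < (i : ℝ) * ε := by rwa [div_lt_iff₀ hεpos] at hi2
        have hi0 : (0 : ℝ) ≤ (i : ℝ) := Nat.cast_nonneg i
        nlinarith
      funext k
      unfold Hm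
      rw [hl, zero_mul]
      rfl
    · have h9 : dist q.2.2.1 p.2.2.1 < ε / 4 := hq2
      rw [h, dist_comm] at h9
      linarith
    · exact hq3 h
  · refine mem_of_superset (hK.isOpen_compl.mem_nhds hpK) fun q hq hq' => hq ?_
    exact ⟨⟨⟨hq'.c0, hq'.c1⟩, hq'.c2⟩, hq'.c3⟩

variable (ι) in
/-- The compact space. -/
def Sp : Type := {p : Amb ι // Cond ι p}

instance : TopologicalSpace (Sp ι) := instTopologicalSpaceSubtype

instance : CompactSpace (Sp ι) := isCompact_iff_compactSpace.1 isClosed_cond.isCompact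

instance : T2Space (Sp ι) := inferInstanceAs (T2Space {p : Amb ι // Cond ι p})

/-- the projection to the cube -/
def rr (p : Sp ι) : Cu ι := p.1.2.2.1

lemma rr_cont : Continuous (rr (ι := ι)) := by
  unfold rr
  exact (by fun_prop : Continuous fun p : Amb ι => p.2.2.1).comp continuous_subtype_val

/-- the second cube -/
def zz (g : ℕ → ℕ) (p : Sp ι) : Cu ι := p.1.2.2.2 g

lemma zz_cont (g : ℕ → ℕ) : Continuous (zz (ι := ι) g) := by
  unfold zz
  exact (by fun_prop : Continuous fun p : Amb ι => p.2.2.2 g).comp continuous_subtype_val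

/-- the zero-dimensional quotient -/
def qq (p : Sp ι) : (ℕ → Bool) × ((ℕ → ℕ) → Bool) := (p.1.1, p.1.2.1)

lemma qq_cont : Continuous (qq (ι := ι)) := by
  unfold qq
  exact (by fun_prop : Continuous fun p : Amb ι => (p.1, p.2.1)).comp continuous_subtype_val

open Classical in
/-- the copy of the cube for `t : ℕ` -/
noncomputable def ee (t : ℕ) (x : Cu ι) : Sp ι :=
  ⟨(fun t' => decide (t' = t), fun g => decide (Bs ι g t), x, fun g => Hh g t x), by
    refine ⟨?_, ?_, ?_, ?_, ?_⟩
    · intro a b ha hb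
      simp only [decide_eq_true_eq] at ha hb
      rw [ha, hb]
    · intro a g ha
      simp only [decide_eq_true_eq] at ha
      subst ha
      simp
    · intro g g' _ h1 h2
      simp only [decide_eq_true_eq] at h1 h2
      exact ⟨t, ⟨h1, h2⟩, by simp⟩
    · intro g hg
      simp only [decide_eq_false_iff_not] at hg
      exact Hh_zero hg x
    · intro g hg
      simp only [decide_eq_true_eq] at hg
      exact Or.inl ⟨t, hg, by simp⟩⟩

lemma ee_cont (t : ℕ) : Continuous (ee (ι := ι) t) := by
  unfold ee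
  refine Continuous.subtype_mk ?_ _
  refine continuous_const.prodMk (continuous_const.prodMk (continuous_id.prodMk ?_))
  exact continuous_pi fun g => Hh_cont g t

@[simp] lemma rr_ee (t : ℕ) (x : Cu ι) : rr (ee t x) = x := rfl

open Classical in
/-- the second cube of the component `g` -/
noncomputable def ff (g : ℕ → ℕ) (z : Cu ι) : Sp ι :=
  ⟨(fun _ => false, fun g' => decide (g' = g), sl ι g, Function.update 0 g z), by
    refine ⟨?_, ?_, ?_, ?_, ?_⟩
    · intro a b ha _
      exact absurd ha (by simp)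
    · intro a g' ha
      exact absurd ha (by simp)
    · intro g₁ g₂ hne h1 h2
      simp only [decide_eq_true_eq] at h1 h2
      exact absurd (h1.trans h2.symm) hne
    · intro g' hg
      simp only [decide_eq_false_iff_not] at hg
      show Function.update (0 : (ℕ → ℕ) → Cu ι) g z g' = 0
      rw [Function.update_of_ne hg]
      rfl
    · intro g' hg
      simp only [decide_eq_true_eq] at hg
      subst hg
      exact Or.inr (Or.inl rfl)⟩

lemma ff_cont (g : ℕ → ℕ) : Continuous (ff (ι := ι) g) := by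
  classical
  unfold ff
  refine Continuous.subtype_mk ?_ _
  refine continuous_const.prodMk (continuous_const.prodMk (continuous_const.prodMk ?_))
  exact continuous_const.update g continuous_id

lemma ff_inj (g : ℕ → ℕ) : Function.Injective (ff (ι := ι) g) := by
  intro z z' h
  have := congrArg (zz g) h
  simpa [zz, ff] using this

/-- The copies of the cube accumulate to the second cube of the component `g`. -/
lemma ff_mem_closure (g : ℕ → ℕ) (y : ℕ → Cu ι)
    (hy : ∀ i : ℕ, ((i : ℝ) + 1) * dist (y i) (dn ι (g (bb ι g i))) ≤ 1) (z : Cu ι) (A : Set (Sp ι))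
    (hA : IsClosed A) (hmem : ∀ i, ee (nd g (bb ι g i)) (y i) ∈ A) : ff g z ∈ A := by
  classical
  -- choose indices
  have hdense : DenseRange (dn ι) := TopologicalSpace.denseRange_denseSeq _
  have hj : ∀ k : ℕ, ∃ j, dist z (dn ι j) < 1 / ((k : ℝ) + 1) := fun k =>
    hdense.exists_dist_lt z (by positivity)
  choose j hj using hj
  set idx : ℕ → ℕ := fun k => Nat.pair (j k) k with hidx
  have hidxk : ∀ k, k ≤ idx k := fun k => Nat.right_le_pair _ _
  have hidxt : Tendsto idx atTop atTop := tendsto_atTop_mono hidxk tendsto_id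
  have hlim : Tendsto (fun k => ee (nd g (bb ι g (idx k))) (y (idx k))) atTop (𝓝 (ff g z)) := by
    refine (tendsto_subtype_rng (p := Cond ι)).2 ?_
    have t1 : Tendsto (fun k => (fun t' => decide (t' = nd g (bb ι g (idx k))) : ℕ → Bool)) atTop
        (𝓝 (fun _ => false)) := by
      rw [tendsto_pi_nhds]
      intro t
      rw [nhds_discrete, tendsto_pure]
      have h1 : Tendsto (fun k => bb ι g (idx k)) atTop atTop :=
        (bb_mono ι g).tendsto_atTop.comp hidxt
      by_cases h : ∃ m, t = nd g m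
      · obtain ⟨m, rfl⟩ := h
        filter_upwards [h1.eventually_gt_atTop m] with k hk
        simp only [decide_eq_false_iff_not]
        intro heq
        exact absurd (nd_inj heq).1 hk.ne
      · refine Eventually.of_forall fun k => ?_
        simp only [decide_eq_false_iff_not]
        exact fun heq => h ⟨_, heq⟩
    have key : ∀ g', g' ≠ g → ∀ᶠ k in atTop, ¬ Bs ι g' (nd g (bb ι g (idx k))) := by
      intro g' hne
      obtain ⟨m, hm⟩ := Function.ne_iff.1 hne
      have h1 : Tendsto (fun k => bb ι g (idx k)) atTop atTop :=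
        (bb_mono ι g).tendsto_atTop.comp hidxt
      filter_upwards [h1.eventually_gt_atTop m] with k hk
      rintro ⟨i, hi⟩
      exact hm ((nd_inj hi).2 m hk).symm
    have t2 : Tendsto (fun k => (fun g' => decide (Bs ι g' (nd g (bb ι g (idx k)))) :
        (ℕ → ℕ) → Bool)) atTop (𝓝 (fun g' => decide (g' = g))) := by
      rw [tendsto_pi_nhds]
      intro g'
      rw [nhds_discrete, tendsto_pure]
      by_cases h : g' = g
      · subst h
        refine Eventually.of_forall fun k => ?_
        simp only [decide_true, decide_eq_true_eq]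
        exact ⟨idx k, rfl⟩
      · filter_upwards [key g' h] with k hk
        simp [h, hk]
    have t3 : Tendsto (fun k => y (idx k)) atTop (𝓝 (sl ι g)) := by
      have h1 := (bb_lim ι g).comp hidxt
      refine (tendsto_iff_of_dist ?_).2 h1
      have h2 : ∀ i : ℕ, dist (y i) (dn ι (g (bb ι g i))) ≤ 1 / ((i : ℝ) + 1) := by
        intro i
        rw [le_div_iff₀ (by positivity), mul_comm]
        exact hy i
      refine squeeze_zero (fun _ => dist_nonneg) (fun k => h2 (idx k)) ?_
      exact tendsto_one_div_add_atTop_nhds_zero_nat.comp hidxt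
    have t4 : Tendsto (fun k => (fun g' => Hh g' (nd g (bb ι g (idx k))) (y (idx k)) :
        (ℕ → ℕ) → Cu ι)) atTop (𝓝 (Function.update 0 g z)) := by
      rw [tendsto_pi_nhds]
      intro g'
      by_cases h : g' = g
      · subst h
        rw [Function.update_self]
        have h3 : ∀ k, Hh g' (nd g' (bb ι g' (idx k))) (y (idx k)) = dn ι (j k) := by
          intro k
          rw [Hh_nd]
          funext l
          unfold Hm
          rw [lam_one (hy _), one_mul]
          simp [zt, hidx, Nat.unpair_pair]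
        simp only [h3]
        rw [tendsto_iff_dist_tendsto_zero]
        refine squeeze_zero (fun _ => dist_nonneg) (fun k => ?_)
          tendsto_one_div_add_atTop_nhds_zero_nat
        rw [dist_comm]
        exact (hj k).le
      · rw [Function.update_of_ne h]
        refine tendsto_const_nhds.congr' ?_
        filter_upwards [key g' h] with k hk
        rw [Hh_zero hk]
        rfl
    exact t1.prodMk_nhds (t2.prodMk_nhds (t3.prodMk_nhds t4))
  exact hA.mem_of_tendsto hlim (Eventually.of_forall fun k => hmem _)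

end Pool.Agent.GT63.Space
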