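import Mathlib
import Pool.Agent.GT63.Space
import Pool.Agent.GT63.FourCycle
import Pool.Agent.GT63.Cubical

/-!
# The lower bound for `Ind_K`
-/

set_option autoImplicit false

open Set Filter Topology

namespace Pool.Agent.GT63.Space

open Pool.Agent.GT63.KDim

/-- `A` meets the intersection of all families of partitions between the opposite faces in the
directions `i` with `j ≤ i.1`. -/
def Ess (n j : ℕ) (A : Set (Cu (Fin n × Bool))) : Prop :=
  ∀ U V : Fin n × Bool → Set (Cu (Fin n × Bool)), (∀ i, IsOpen (U i)) → (∀ i, IsOpen (V i)) →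
    (∀ i, Disjoint (U i) (V i)) → (∀ i x, x i = 0 → x ∈ U i) → (∀ i x, x i = 1 → x ∈ V i) →
    ∃ x ∈ A, ∀ i : Fin n × Bool, j ≤ i.1.val → x ∉ U i ∧ x ∉ V i

/-- The four faces in the directions `(j, false)` and `(j, true)`. -/
def fc {n : ℕ} (j : Fin n) : Fin 4 → Set (Cu (Fin n × Bool)) :=
  ![{x | x (j, false) = 0}, {x | x (j, true) = 0}, {x | x (j, false) = 1}, {x | x (j, true) = 1}]

lemma fc_closed {n : ℕ} (j : Fin n) (k : Fin 4) : IsClosed (fc j k) := by
  fin_cases k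
  · exact isClosed_eq (continuous_apply _) continuous_const
  · exact isClosed_eq (continuous_apply _) continuous_const
  · exact isClosed_eq (continuous_apply _) continuous_const
  · exact isClosed_eq (continuous_apply _) continuous_const

lemma fc_disj {n : ℕ} (j : Fin n) : Disjoint (fc j 0) (fc j 2) ∧ Disjoint (fc j 1) (fc j 3) := by
  constructor
  · rw [Set.disjoint_left]
    intro x hx hx'
    have h1 : x (j, false) = 0 := hx
    have h2 : x (j, false) = 1 := hx'
    exact zero_ne_one (h1.symm.trans h2)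
  · rw [Set.disjoint_left]
    intro x hx hx'
    have h1 : x (j, true) = 0 := hx
    have h2 : x (j, true) = 1 := hx'
    exact zero_ne_one (h1.symm.trans h2)

lemma ess_univ (n : ℕ) : Ess n 0 univ := by
  intro U V hU hV hUV h0 h1
  obtain ⟨x, hx⟩ := Cubical.partitions_meet U V hU hV hUV h0 h1
  exact ⟨x, mem_univ x, fun i _ => hx i⟩

lemma ess_nonempty {n j : ℕ} {A : Set (Cu (Fin n × Bool))} (h : Ess n j A) : A.Nonempty := by
  have hval : ∀ i : Fin n × Bool, Continuous fun x : Cu (Fin n × Bool) => (x i : ℝ) := fun i =>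
    continuous_subtype_val.comp (continuous_apply i)
  obtain ⟨x, hx, _⟩ := h (fun i => {x | (x i : ℝ) < 1 / 2}) (fun i => {x | 1 / 2 < (x i : ℝ)})
    (fun i => isOpen_lt (hval i) continuous_const) (fun i => isOpen_lt continuous_const (hval i))
    (fun i => by
      rw [Set.disjoint_left]
      intro x hx hx'
      exact lt_asymm (show (x i : ℝ) < 1 / 2 from hx) hx')
    (fun i x hx => by
      show (x i : ℝ) < 1 / 2
      rw [hx]; norm_num)
    (fun i x hx => by
      show 1 / 2 < (x i : ℝ)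
      rw [hx]; norm_num)
  exact ⟨x, hx⟩

/-- separation of two relatively open sets together with two closed sets -/
lemma separate {Y : Type*} [TopologicalSpace Y] [CompletelyNormalSpace Y] {A O O' F F' : Set Y}
    (hA : IsClosed A) (hO : IsOpen O) (hO' : IsOpen O') (hd : Disjoint (A ∩ O) (A ∩ O'))
    (hF : IsClosed F) (hF' : IsClosed F') (hFF : Disjoint F F') (hFO : A ∩ F ⊆ O)
    (hFO' : A ∩ F' ⊆ O') : ∃ W W' : Set Y, IsOpen W ∧ IsOpen W' ∧ Disjoint W W' ∧
      (A ∩ O) ∪ F ⊆ W ∧ (A ∩ O') ∪ F' ⊆ W' := by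
  have aux : ∀ {O O' F F' : Set Y}, IsOpen O → Disjoint (A ∩ O) (A ∩ O') →
      IsClosed F' → Disjoint F F' → A ∩ F ⊆ O → A ∩ F' ⊆ O' →
      Disjoint ((A ∩ O) ∪ F) (closure ((A ∩ O') ∪ F')) := by
    intro O O' F F' hO hd hF' hFF hFO hFO'
    rw [closure_union, hF'.closure_eq, Set.disjoint_left]
    rintro x (⟨hxA, hxO⟩ | hxF) (hx | hx)
    · obtain ⟨y, hyO, hyA, hyO'⟩ := mem_closure_iff.1 hx O hO hxO
      exact Set.disjoint_left.1 hd ⟨hyA, hyO⟩ ⟨hyA, hyO'⟩
    · exact Set.disjoint_left.1 hd ⟨hxA, hxO⟩ ⟨hxA, hFO' ⟨hxA, hx⟩⟩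
    · have hxA : x ∈ A := closure_minimal inter_subset_left hA hx
      have hxO : x ∈ O := hFO ⟨hxA, hxF⟩
      obtain ⟨y, hyO, hyA, hyO'⟩ := mem_closure_iff.1 hx O hO hxO
      exact Set.disjoint_left.1 hd ⟨hyA, hyO⟩ ⟨hyA, hyO'⟩
    · exact Set.disjoint_left.1 hFF hxF hx
  have h1 := aux hO hd hF' hFF hFO hFO'
  have h2 := aux hO' hd.symm hF hFF.symm hFO' hFO
  have h3 := CompletelyNormalSpace.completely_normal h2.symm h1
  obtain ⟨W, W', hW, hW', hs, hs', hWW⟩ := separatedNhds_iff_disjoint.2 h3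
  exact ⟨W, W', hW, hW', hWW, hs, hs'⟩

lemma ess_step {n j : ℕ} (hj : j < n) {A : Set (Cu (Fin n × Bool))} (hA : IsClosed A)
    (hE : Ess n j A) (O : Fin 4 → Set (Cu (Fin n × Bool))) (hO : ∀ k, IsOpen (O k))
    (hd0 : Disjoint (A ∩ O 0) (A ∩ O 2)) (hd1 : Disjoint (A ∩ O 1) (A ∩ O 3))
    (hf : ∀ k, A ∩ fc ⟨j, hj⟩ k ⊆ O k) : Ess n (j + 1) (A \ ⋃ k, O k) := by
  classical
  intro U V hU hV hUV h0 h1
  obtain ⟨W0, W2, hW0, hW2, hW02, hs0, hs2⟩ := separate hA (hO 0) (hO 2) hd0 (fc_closed ⟨j, hj⟩ 0)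
    (fc_closed ⟨j, hj⟩ 2) (fc_disj ⟨j, hj⟩).1 (hf 0) (hf 2)
  obtain ⟨W1, W3, hW1, hW3, hW13, hs1, hs3⟩ := separate hA (hO 1) (hO 3) hd1 (fc_closed ⟨j, hj⟩ 1)
    (fc_closed ⟨j, hj⟩ 3) (fc_disj ⟨j, hj⟩).2 (hf 1) (hf 3)
  set J : Fin n := ⟨j, hj⟩ with hJ
  set U' : Fin n × Bool → Set (Cu (Fin n × Bool)) := fun i =>
    if i.1 = J then (if i.2 then W1 else W0) else U i with hU'
  set V' : Fin n × Bool → Set (Cu (Fin n × Bool)) := fun i =>
    if i.1 = J then (if i.2 then W3 else W2) else V i with hV'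
  obtain ⟨x, hxA, hx⟩ := hE U' V'
    (by
      rintro ⟨i, b⟩
      by_cases h : i = J
      · cases b <;> simp [hU', h, hW0, hW1]
      · simpa [hU', h] using hU (i, b))
    (by
      rintro ⟨i, b⟩
      by_cases h : i = J
      · cases b <;> simp [hV', h, hW2, hW3]
      · simpa [hV', h] using hV (i, b))
    (by
      rintro ⟨i, b⟩
      by_cases h : i = J
      · cases b <;> simp [hU', hV', h, hW02, hW13]
      · simpa [hU', hV', h] using hUV (i, b))
    (by
      rintro ⟨i, b⟩ z hz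
      by_cases h : i = J
      · subst h
        cases b
        · simp only [hU', if_true, Bool.false_eq_true, if_false]
          exact hs0 (Or.inr hz)
        · simp only [hU', if_true]
          exact hs1 (Or.inr hz)
      · simpa [hU', h] using h0 (i, b) z hz)
    (by
      rintro ⟨i, b⟩ z hz
      by_cases h : i = J
      · subst h
        cases b
        · simp only [hV', if_true, Bool.false_eq_true, if_false]
          exact hs2 (Or.inr hz)
        · simp only [hV', if_true]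
          exact hs3 (Or.inr hz)
      · simpa [hV', h] using h1 (i, b) z hz)
  refine ⟨x, ⟨hxA, ?_⟩, fun i hi => ?_⟩
  · have a0 := hx (J, false) (le_refl j)
    have a1 := hx (J, true) (le_refl j)
    simp only [hU', hV', if_true, Bool.false_eq_true, if_false] at a0 a1
    rw [mem_iUnion]
    rintro ⟨k, hk⟩
    fin_cases k
    · exact a0.1 (hs0 (Or.inl ⟨hxA, hk⟩))
    · exact a1.1 (hs1 (Or.inl ⟨hxA, hk⟩))
    · exact a0.2 (hs2 (Or.inl ⟨hxA, hk⟩))
    · exact a1.2 (hs3 (Or.inl ⟨hxA, hk⟩))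
  · have hne : i.1 ≠ J := by
      intro h
      have : i.1.val = j := by rw [h]
      omega
    have := hx i (by omega)
    simpa [hU', hV', hne] using this

/-- `Y` contains a copy of a closed subset of the cube with property `Ess n j`. -/
def Ph2 (n j : ℕ) (Y : Type) [TopologicalSpace Y] : Prop :=
  ∃ (A : Set (Cu (Fin n × Bool))) (h : A → Y), IsClosed A ∧ Continuous h ∧
    Function.Injective h ∧ Ess n j A

/-- `Y` is a closed subspace of the compact space such that all slices have property `Ess n j`. -/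
def Ph1 (n j : ℕ) (Y : Type) [TopologicalSpace Y] : Prop :=
  ∃ f : Y → Sp (Fin n × Bool), IsClosedEmbedding f ∧ ∀ t, Ess n j {x | ee t x ∈ range f}

lemma ph2_step {n j : ℕ} (hj : j < n) (Y : Type) [TopologicalSpace Y] [T2Space Y]
    (h : Ph2 n j Y) :
    ∃ F : E4 → Set Y, IsClosedKTuple cyc F ∧ ∀ P, IsKPartition cyc F P → Ph2 n (j + 1) P := by
  obtain ⟨A, e, hA, hec, hei, hE⟩ := h
  have hcA : CompactSpace A := isCompact_iff_compactSpace.1 hA.isCompact
  have he : IsClosedEmbedding e := hec.isClosedEmbedding hei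
  refine ⟨mk fun k => e '' (Subtype.val ⁻¹' fc ⟨j, hj⟩ k), closedTuple_mk _ ?_ ?_ ?_, ?_⟩
  · intro k
    exact he.isClosedMap _ ((fc_closed _ k).preimage continuous_subtype_val)
  · exact (disjoint_image_iff he.injective).2 ((fc_disj _).1.preimage _)
  · exact (disjoint_image_iff he.injective).2 ((fc_disj _).2.preimage _)
  · intro P hP
    obtain ⟨a, ha, hd0, hd1, hF, rfl⟩ := partition_iff.1 hP
    simp only [mk_vtx] at hF
    -- open sets of the cube
    have hO : ∀ k, ∃ O : Set (Cu (Fin n × Bool)), IsOpen O ∧ Subtype.val ⁻¹' O = e ⁻¹' (a k) :=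
      fun k => isOpen_induced_iff.1 ((ha k).preimage he.continuous)
    choose O hO1 hO2 using hO
    have hmem : ∀ k (x : Cu (Fin n × Bool)) (hx : x ∈ A), x ∈ O k ↔ e ⟨x, hx⟩ ∈ a k := by
      intro k x hx
      have : (⟨x, hx⟩ : A) ∈ Subtype.val ⁻¹' O k ↔ (⟨x, hx⟩ : A) ∈ e ⁻¹' (a k) := by rw [hO2]
      exact this
    have hstep := ess_step hj hA hE O hO1 ?_ ?_ ?_
    · have hcl : IsClosed (A \ ⋃ k, O k) := hA.sdiff (isOpen_iUnion hO1)
      have hsub : ∀ x : (A \ ⋃ k, O k : Set (Cu (Fin n × Bool))),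
          e ⟨x.1, x.2.1⟩ ∈ (⋃ k, a k)ᶜ := by
        rintro ⟨x, hx, hxO⟩ hmem'
        obtain ⟨k, hk⟩ := mem_iUnion.1 hmem'
        exact hxO (mem_iUnion.2 ⟨k, (hmem k x hx).2 hk⟩)
      refine ⟨A \ ⋃ k, O k, fun x => ⟨e ⟨x.1, x.2.1⟩, hsub x⟩, hcl, ?_, ?_, hstep⟩
      · exact (hec.comp (continuous_subtype_val.subtype_mk _)).subtype_mk _
      · intro x y hxy
        have h1 := hei (congrArg Subtype.val hxy)
        have h2 : x.1 = y.1 := congrArg (fun z : A => z.1) h1
        exact Subtype.ext h2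
    · rw [Set.disjoint_left]
      rintro x ⟨hx, hx0⟩ ⟨_, hx2⟩
      exact Set.disjoint_left.1 hd0 ((hmem 0 x hx).1 hx0) ((hmem 2 x hx).1 hx2)
    · rw [Set.disjoint_left]
      rintro x ⟨hx, hx0⟩ ⟨_, hx2⟩
      exact Set.disjoint_left.1 hd1 ((hmem 1 x hx).1 hx0) ((hmem 3 x hx).1 hx2)
    · rintro k x ⟨hx, hxf⟩
      rw [hmem k x hx]
      exact hF k ⟨⟨x, hx⟩, hxf, rfl⟩

lemma ph1_step {n j : ℕ} (hj : j < n) (Y : Type) [TopologicalSpace Y] (h : Ph1 n j Y) :
    ∃ F : E4 → Set Y, IsClosedKTuple cyc F ∧ ∀ P, IsKPartition cyc F P → Ph1 n (j + 1) P := by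
  obtain ⟨f, hf, hE⟩ := h
  have hrc : Continuous fun y => rr (f y) := rr_cont.comp hf.continuous
  refine ⟨mk fun k => (fun y => rr (f y)) ⁻¹' (fc ⟨j, hj⟩ k), closedTuple_mk _ ?_ ?_ ?_, ?_⟩
  · intro k
    exact (fc_closed _ k).preimage hrc
  · exact (fc_disj _).1.preimage _
  · exact (fc_disj _).2.preimage _
  · intro P hP
    obtain ⟨a, ha, hd0, hd1, hF, rfl⟩ := partition_iff.1 hP
    simp only [mk_vtx] at hF
    have hPc : IsClosed (⋃ k, a k)ᶜ := (isOpen_iUnion ha).isClosed_compl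
    refine ⟨fun y => f y.1, hf.comp hPc.isClosedEmbedding_subtypeVal, fun t => ?_⟩
    have hO : ∀ k, ∃ O : Set (Sp (Fin n × Bool)), IsOpen O ∧ f ⁻¹' O = a k :=
      fun k => hf.isInducing.isOpen_iff.1 (ha k)
    choose O hO1 hO2 using hO
    set A : Set (Cu (Fin n × Bool)) := {x | ee t x ∈ range f} with hA
    have hAc : IsClosed A := hf.isClosed_range.preimage (ee_cont t)
    have hmem : ∀ k x y, f y = ee t x → (x ∈ ee t ⁻¹' (O k) ↔ y ∈ a k) := by
      intro k x y hxy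
      rw [← hO2 k]
      show ee t x ∈ O k ↔ f y ∈ O k
      rw [hxy]
    have hstep := ess_step hj hAc (hE t) (fun k => ee t ⁻¹' (O k))
      (fun k => (hO1 k).preimage (ee_cont t)) ?_ ?_ ?_
    · have heq : A \ ⋃ k, ee t ⁻¹' (O k) =
          {x | ee t x ∈ range fun y : ((⋃ k, a k)ᶜ : Set Y) => f y.1} := by
        ext x
        constructor
        · rintro ⟨⟨y, hy⟩, hxO⟩
          refine ⟨⟨y, fun hmem' => ?_⟩, hy⟩
          obtain ⟨k, hk⟩ := mem_iUnion.1 hmem'
          exact hxO (mem_iUnion.2 ⟨k, (hmem k x y hy).2 hk⟩)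
        · rintro ⟨⟨y, hy'⟩, hy⟩
          refine ⟨⟨y, hy⟩, fun hxO => hy' ?_⟩
          obtain ⟨k, hk⟩ := mem_iUnion.1 hxO
          exact mem_iUnion.2 ⟨k, (hmem k x y hy).1 hk⟩
      rw [← heq]
      exact hstep
    · rw [Set.disjoint_left]
      rintro x ⟨⟨y, hy⟩, hx0⟩ ⟨_, hx2⟩
      exact Set.disjoint_left.1 hd0 ((hmem 0 x y hy).1 hx0) ((hmem 2 x y hy).1 hx2)
    · rw [Set.disjoint_left]
      rintro x ⟨⟨y, hy⟩, hx0⟩ ⟨_, hx2⟩
      exact Set.disjoint_left.1 hd1 ((hmem 1 x y hy).1 hx0) ((hmem 3 x y hy).1 hx2)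
    · rintro k x ⟨⟨y, hy⟩, hxf⟩
      refine (hmem k x y hy).2 (hF k ?_)
      show rr (f y) ∈ fc ⟨j, hj⟩ k
      rw [hy, rr_ee]
      exact hxf

/-- The second cubes are reached. -/
lemma ph1_to_ph2 {n : ℕ} (Y : Type) [TopologicalSpace Y] (h : Ph1 n n Y) : Ph2 n 0 Y := by
  obtain ⟨f, hf, hE⟩ := h
  have hne : ∀ t, ∃ y : Cu (Fin n × Bool), ee t y ∈ range f := fun t => ess_nonempty (hE t)
  choose y hy using hne
  have hdense : DenseRange (dn (Fin n × Bool)) := TopologicalSpace.denseRange_denseSeq _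
  have hpick : ∀ (c : Cu (Fin n × Bool)) (m : ℕ), ∃ k, dist c (dn (Fin n × Bool) k) <
      1 / ((m : ℝ) + 1) := fun c m => hdense.exists_dist_lt c (by positivity)
  choose pick hpick using hpick
  -- the diagonal branch
  let L : ℕ → List ℕ := fun m => Nat.rec [] (fun m l => l ++ [pick (y (Encodable.encode l)) m]) m
  have hL : ∀ m, L (m + 1) = L m ++ [pick (y (Encodable.encode (L m))) m] := fun m => rfl
  set g : ℕ → ℕ := fun m => pick (y (Encodable.encode (L m))) m with hg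
  have hLg : ∀ m, (List.range m).map g = L m := by
    intro m
    induction m with
    | zero => rfl
    | succ m ih =>
      rw [List.range_succ, List.map_append, ih, hL]
      rfl
  have hnd : ∀ m, nd g m = Encodable.encode (L m) := fun m => by
    unfold nd
    rw [hLg]
  have hgm : ∀ m, dist (y (nd g m)) (dn (Fin n × Bool) (g m)) < 1 / ((m : ℝ) + 1) := by
    intro m
    have : g m = pick (y (nd g m)) m := by rw [hnd]
    rw [this]
    exact hpick _ _
  have hff : ∀ z, ff g z ∈ range f := by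
    intro z
    refine ff_mem_closure g (fun i => y (nd g (bb (Fin n × Bool) g i))) ?_ z (range f)
      hf.isClosed_range (fun i => hy _)
    intro i
    have h1 := hgm (bb (Fin n × Bool) g i)
    have h2 : (i : ℝ) ≤ (bb (Fin n × Bool) g i : ℝ) := by
      exact_mod_cast (bb_mono _ g).id_le i
    rw [lt_div_iff₀ (by positivity)] at h1
    have h3 : 0 ≤ dist (y (nd g (bb (Fin n × Bool) g i)))
      (dn (Fin n × Bool) (g (bb (Fin n × Bool) g i))) := dist_nonneg
    nlinarith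
  choose h hh using hff
  refine ⟨univ, fun z => h z.1, isClosed_univ, ?_, ?_, ess_univ n⟩
  · have h1 : Continuous (f ∘ h) := by
      have : f ∘ h = ff g := funext hh
      rw [this]
      exact ff_cont g
    exact (hf.isInducing.continuous_iff.2 h1).comp continuous_subtype_val
  · intro z z' hzz
    have h1 : ff g z.1 = ff g z'.1 := by rw [← hh, ← hh]; exact congrArg f hzz
    exact Subtype.ext (ff_inj g h1)

lemma kind_unfold {α : Ordinal.{0}} {X : Type} [TopologicalSpace X] (h : KIndLE cyc α X)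
    (F : E4 → Set X) (hF : IsClosedKTuple cyc F) : ∃ P : Set X, IsKPartition cyc F P ∧
      (P = ∅ ∨ ∃ β : Ordinal.{0}, ∃ _ : β < α, KIndLE cyc β P) := by
  rw [KIndLE] at h
  exact h F hF

lemma ph2_nonempty {n j : ℕ} {Y : Type} [TopologicalSpace Y] (h : Ph2 n j Y) : Nonempty Y := by
  obtain ⟨A, e, _, _, _, hE⟩ := h
  obtain ⟨x, hx⟩ := ess_nonempty hE
  exact ⟨e ⟨x, hx⟩⟩

lemma ph1_nonempty {n j : ℕ} {Y : Type} [TopologicalSpace Y] (h : Ph1 n j Y) : Nonempty Y := by
  obtain ⟨f, _, hE⟩ := h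
  obtain ⟨x, y, _⟩ := ess_nonempty (hE 0)
  exact ⟨y⟩

lemma ind_ph2 (n k : ℕ) : ∀ j, j + k = n → ∀ (Y : Type) [TopologicalSpace Y] [T2Space Y],
    Ph2 n j Y → ∀ α : Ordinal.{0}, KIndLE cyc α Y → ((k : ℕ) : Ordinal.{0}) ≤ α := by
  induction k with
  | zero =>
    intro j _ Y _ _ _ α _
    simp
  | succ k ih =>
    intro j hj Y _ _ hY α hα
    obtain ⟨F, hF, hP⟩ := ph2_step (by omega : j < n) Y hY
    obtain ⟨P, hPF, hP'⟩ := kind_unfold hα F hF
    have h2 := hP P hPF
    rcases hP' with rfl | ⟨β, hβ, hPβ⟩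
    · obtain ⟨x⟩ := ph2_nonempty h2
      exact absurd x.2 (notMem_empty _)
    · have h3 := ih (j + 1) (by omega) P h2 β hPβ
      rw [Nat.cast_succ]
      exact Order.add_one_le_of_lt (lt_of_le_of_lt h3 hβ)

lemma ind_ph1 (n k : ℕ) : ∀ j, j + k = n → ∀ (Y : Type) [TopologicalSpace Y] [T2Space Y],
    Ph1 n j Y → ∀ α : Ordinal.{0}, KIndLE cyc α Y → ((n + k : ℕ) : Ordinal.{0}) ≤ α := by
  induction k with
  | zero =>
    intro j hj Y _ _ hY α hα
    have : j = n := by omega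
    subst this
    exact ind_ph2 j j 0 (by omega) Y (ph1_to_ph2 Y hY) α hα
  | succ k ih =>
    intro j hj Y _ _ hY α hα
    obtain ⟨F, hF, hP⟩ := ph1_step (by omega : j < n) Y hY
    obtain ⟨P, hPF, hP'⟩ := kind_unfold hα F hF
    have h2 := hP P hPF
    rcases hP' with rfl | ⟨β, hβ, hPβ⟩
    · obtain ⟨x⟩ := ph1_nonempty h2
      exact absurd x.2 (notMem_empty _)
    · have h3 := ih (j + 1) (by omega) P h2 β hPβ
      rw [← add_assoc, Nat.cast_succ]
      exact Order.add_one_le_of_lt (lt_of_le_of_lt h3 hβ)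

/-- `Ind_K ≥ 2 n` for the compact space. -/
theorem ind_lower (n : ℕ) (α : Ordinal.{0}) (h : KIndLE cyc α (Sp (Fin n × Bool))) :
    ((2 * n : ℕ) : Ordinal.{0}) ≤ α := by
  rw [two_mul]
  refine ind_ph1 n n 0 (by omega) (Sp (Fin n × Bool)) ?_ α h
  refine ⟨id, IsClosedEmbedding.id, fun t => ?_⟩
  have : {x : Cu (Fin n × Bool) | ee t x ∈ range (id : Sp (Fin n × Bool) → _)} = univ := by
    ext x
    simp
  rw [this]
  exact ess_univ n

end Pool.Agent.GT63.Space
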