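import Mathlib
import Pool.Agent.GT63.Space
import Pool.Agent.GT63.Avoid
import Pool.Agent.GT63.FourCycle

/-!
# Components and the upper bound for `dim_K`
-/

set_option autoImplicit false

open Set Filter Topology

namespace Pool.Agent.GT63.Space

open Pool.Agent.GT63.AvoidZero Pool.Agent.GT63.KDim

variable {ι : Type} [Fintype ι]

lemma qq_fst {p q : Sp ι} (h : qq p = qq q) : p.1.1 = q.1.1 :=
  congrArg (fun c : (ℕ → Bool) × ((ℕ → ℕ) → Bool) => c.1) h

lemma qq_snd {p q : Sp ι} (h : qq p = qq q) : p.1.2.1 = q.1.2.1 :=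
  congrArg (fun c : (ℕ → Bool) × ((ℕ → ℕ) → Bool) => c.2) h

lemma fib_inj {p q : Sp ι} (h1 : qq p = qq q) (h2 : rr p = rr q)
    (h3 : ∀ g, p.1.2.1 g = true → (∀ t, p.1.1 t = false) → zz g p = zz g q) : p = q := by
  have hα : p.1.1 = q.1.1 := qq_fst h1
  have hβ : p.1.2.1 = q.1.2.1 := qq_snd h1
  apply Subtype.ext
  refine Prod.ext hα (Prod.ext hβ (Prod.ext h2 ?_))
  funext g
  by_cases ht : ∃ t, p.1.1 t = true
  · obtain ⟨t, ht⟩ := ht
    have ht' : q.1.1 t = true := by rw [← hα]; exact ht
    rw [(p.2.c1 t g ht).2, (q.2.c1 t g ht').2]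
    exact congrArg (Hh g t) h2
  · push Not at ht
    have ht' : ∀ t, p.1.1 t = false := fun t => by simpa using ht t
    by_cases hg : p.1.2.1 g = true
    · exact h3 g hg ht'
    · have hg' : p.1.2.1 g = false := by simpa using hg
      rw [p.2.c3 g hg', q.2.c3 g (by rw [← hβ]; exact hg')]

lemma uniq_g {p : Sp ι} (ht : ∀ t, p.1.1 t = false) {g g' : ℕ → ℕ} (hg : p.1.2.1 g = true)
    (hg' : p.1.2.1 g' = true) : g = g' := by
  by_contra hne
  obtain ⟨t, _, h⟩ := p.2.c2 g g' hne hg hg'
  rw [ht t] at h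
  exact absurd h (by simp)

/-- The components are metrizable. -/
theorem component_metrizable (p : Sp ι) :
    TopologicalSpace.MetrizableSpace (connectedComponent p) := by
  classical
  have hqq : ∀ q ∈ connectedComponent p, qq q = qq p := by
    intro q hq
    have h := (isPreconnected_connectedComponent (x := p)).image qq qq_cont.continuousOn
    exact h.subsingleton ⟨q, hq, rfl⟩ ⟨p, mem_connectedComponent, rfl⟩
  set g₀ : ℕ → ℕ := if h : ∃ g, p.1.2.1 g = true then h.choose else 0 with hg₀
  have hcs : CompactSpace (connectedComponent p) :=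
    isCompact_iff_compactSpace.1 isClosed_connectedComponent.isCompact
  set Φ : connectedComponent p → Cu ι × Cu ι := fun q => (rr q.1, zz g₀ q.1) with hΦ
  have hΦc : Continuous Φ := (rr_cont.comp continuous_subtype_val).prodMk
    ((zz_cont g₀).comp continuous_subtype_val)
  have hΦi : Function.Injective Φ := by
    intro a b hab
    apply Subtype.ext
    have e1 := hqq a.1 a.2
    have e2 := hqq b.1 b.2
    have hab1 : rr a.1 = rr b.1 := congrArg (fun c : Cu ι × Cu ι => c.1) hab
    have hab2 : zz g₀ a.1 = zz g₀ b.1 := congrArg (fun c : Cu ι × Cu ι => c.2) hab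
    refine fib_inj (e1.trans e2.symm) hab1 fun g hg ht => ?_
    have hβ : a.1.1.2.1 = p.1.2.1 := qq_snd e1
    have hα : a.1.1.1 = p.1.1 := qq_fst e1
    have hex : ∃ g, p.1.2.1 g = true := ⟨g, by rw [← hβ]; exact hg⟩
    have h1 : g = g₀ := by
      rw [hg₀, dif_pos hex]
      refine uniq_g (p := p) (fun t => ?_) (by rw [← hβ]; exact hg) hex.choose_spec
      rw [← hα]; exact ht t
    rw [h1]
    exact hab2
  exact (hΦc.isClosedEmbedding hΦi).isEmbedding.metrizableSpace

/-- coordinates as real numbers -/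
def rl (x : Cu ι) : ι → ℝ := fun i => (x i : ℝ)

omit [Fintype ι] in
lemma rl_cont : Continuous (rl (ι := ι)) := by
  unfold rl
  fun_prop

omit [Fintype ι] in
lemma rl_inj : Function.Injective (rl (ι := ι)) := by
  intro x y h
  funext i
  exact Subtype.ext (congrFun h i)

/-- Maps from the fibres avoid zero. -/
lemma avoid_fibre {κ : Type} [Fintype κ] (hcard : Fintype.card ι < Fintype.card κ)
    (c : (ℕ → Bool) × ((ℕ → ℕ) → Bool)) : Avoid κ (qq (ι := ι) ⁻¹' {c}) := by
  have hcl : IsClosed (qq (ι := ι) ⁻¹' {c}) := isClosed_singleton.preimage qq_cont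
  by_cases ht : ∃ t, c.1 t = true
  · obtain ⟨t, ht⟩ := ht
    refine avoid_of_injOn hcard hcl.isCompact (fun p => rl (rr p)) (rl_cont.comp rr_cont) ?_
    intro p hp q hq hpq
    have hp' : qq p = c := hp
    have hq' : qq q = c := hq
    refine fib_inj (hp'.trans hq'.symm) (rl_inj hpq) fun g _ h => ?_
    have := h t
    rw [show p.1.1 = c.1 from congrArg Prod.fst hp', ht] at this
    exact absurd this (by simp)
  · push Not at ht
    by_cases hg : ∃ g, c.2 g = true
    · obtain ⟨g, hg⟩ := hg
      have hA1 : IsClosed (qq (ι := ι) ⁻¹' {c} ∩ {p | zz g p = 0}) :=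
        hcl.inter (isClosed_eq (zz_cont g) continuous_const)
      have hA2 : IsClosed (qq (ι := ι) ⁻¹' {c} ∩ {p | rr p = sl ι g}) :=
        hcl.inter (isClosed_eq rr_cont continuous_const)
      have htf : ∀ p : Sp ι, qq p = c → ∀ t, p.1.1 t = false := by
        intro p hp t
        rw [show p.1.1 = c.1 from congrArg Prod.fst hp]
        simpa using ht t
      have hgt : ∀ p : Sp ι, qq p = c → p.1.2.1 g = true := by
        intro p hp
        rw [show p.1.2.1 = c.2 from congrArg Prod.snd hp]
        exact hg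
      have hsub : qq (ι := ι) ⁻¹' {c} ⊆ (qq (ι := ι) ⁻¹' {c} ∩ {p | zz g p = 0}) ∪
          (qq (ι := ι) ⁻¹' {c} ∩ {p | rr p = sl ι g}) := by
        intro p hp
        rcases p.2.c4 g (hgt p hp) with ⟨t, _, h⟩ | h | h
        · rw [htf p hp t] at h
          exact absurd h (by simp)
        · exact Or.inr ⟨hp, h⟩
        · exact Or.inl ⟨hp, h⟩
      refine Avoid.mono (Avoid.union hA1.isCompact ?_ ?_) hsub
      · refine avoid_of_injOn hcard hA1.isCompact (fun p => rl (rr p)) (rl_cont.comp rr_cont) ?_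
        rintro p ⟨hp, hpz⟩ q ⟨hq, hqz⟩ hpq
        have hp' : qq p = c := hp
        have hq' : qq q = c := hq
        refine fib_inj (hp'.trans hq'.symm) (rl_inj hpq) fun g' hg' _ => ?_
        rw [uniq_g (htf p hp') hg' (hgt p hp')]
        exact (show zz g p = 0 from hpz).trans (show zz g q = 0 from hqz).symm
      · refine avoid_of_injOn hcard hA2.isCompact (fun p => rl (zz g p))
          (rl_cont.comp (zz_cont g)) ?_
        rintro p ⟨hp, hpz⟩ q ⟨hq, hqz⟩ hpq
        have hp' : qq p = c := hp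
        have hq' : qq q = c := hq
        refine fib_inj (hp'.trans hq'.symm)
          ((show rr p = sl ι g from hpz).trans (show rr q = sl ι g from hqz).symm)
          fun g' hg' _ => ?_
        rw [uniq_g (htf p hp') hg' (hgt p hp')]
        exact rl_inj hpq
    · push Not at hg
      refine avoid_of_injOn hcard hcl.isCompact (fun p => rl (rr p)) (rl_cont.comp rr_cont) ?_
      intro p hp q hq hpq
      have hp' : qq p = c := hp
      have hq' : qq q = c := hq
      refine fib_inj (hp'.trans hq'.symm) (rl_inj hpq) fun g h _ => ?_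
      rw [show p.1.2.1 = c.2 from congrArg Prod.snd hp'] at h
      exact absurd h (hg g)

lemma avoid_all {κ : Type} [Fintype κ] (hcard : Fintype.card ι < Fintype.card κ) :
    Avoid κ (univ : Set (Sp ι)) :=
  avoid_univ qq qq_cont fun c => avoid_fibre hcard c

/-- `dim_K ≤ n` for the four-cycle `K`, if maps to `ℝ^{2n+2}` avoid zero. -/
lemma kdim_of_avoid {X : Type} [TopologicalSpace X] [NormalSpace X] (n : ℕ)
    (h : Avoid (Fin (n + 1) × Bool) (univ : Set X)) : KDimLE cyc X n := by
  intro F hF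
  have hd : ∀ i, Disjoint (F i (vtx 0)) (F i (vtx 2)) ∧ Disjoint (F i (vtx 1)) (F i (vtx 3)) :=
    fun i => tuple_iff.1 (hF i).1
  have hc : ∀ i j, IsClosed (F i (vtx j)) := fun i j => (hF i).2 _ (mem_vertices.2 ⟨j, rfl⟩)
  -- Urysohn functions
  have hu0 : ∀ i, ∃ f : C(X, ℝ), EqOn f 0 (F i (vtx 0)) ∧ EqOn f 1 (F i (vtx 2)) ∧
      ∀ x, f x ∈ Icc (0 : ℝ) 1 := fun i =>
    exists_continuous_zero_one_of_isClosed (hc i 0) (hc i 2) (hd i).1
  have hu1 : ∀ i, ∃ f : C(X, ℝ), EqOn f 0 (F i (vtx 1)) ∧ EqOn f 1 (F i (vtx 3)) ∧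
      ∀ x, f x ∈ Icc (0 : ℝ) 1 := fun i =>
    exists_continuous_zero_one_of_isClosed (hc i 1) (hc i 3) (hd i).2
  choose f0 f00 f01 _ using hu0
  choose f1 f10 f11 _ using hu1
  set g : C(X, Fin (n + 1) × Bool → ℝ) :=
    ⟨fun x k => if k.2 then 2 * f1 k.1 x - 1 else 2 * f0 k.1 x - 1, by
      refine continuous_pi fun k => ?_
      rcases k with ⟨i, b⟩
      cases b
      · simp only [Bool.false_eq_true, if_false]
        exact (continuous_const.mul (f0 i).continuous).sub continuous_const
      · simp only [if_true]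
        exact (continuous_const.mul (f1 i).continuous).sub continuous_const⟩ with hg
  obtain ⟨g', h1, h2⟩ := h g (1 / 2) (by norm_num)
  have hgc : ∀ k, Continuous fun x => g' x k := fun k => (continuous_apply k).comp g'.continuous
  have hg0 : ∀ i x, g x (i, false) = 2 * f0 i x - 1 := fun i x => rfl
  have hg1 : ∀ i x, g x (i, true) = 2 * f1 i x - 1 := fun i x => rfl
  set a : Fin (n + 1) → Fin 4 → Set X := fun i =>
    ![{x | g' x (i, false) < 0}, {x | g' x (i, true) < 0}, {x | 0 < g' x (i, false)},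
      {x | 0 < g' x (i, true)}] with ha
  refine ⟨fun i => (⋃ j, a i j)ᶜ, fun i => partition_iff.2 ⟨a i, ?_, ?_, ?_, ?_, rfl⟩, ?_⟩
  · intro j
    fin_cases j
    · exact isOpen_lt (hgc _) continuous_const
    · exact isOpen_lt (hgc _) continuous_const
    · exact isOpen_lt continuous_const (hgc _)
    · exact isOpen_lt continuous_const (hgc _)
  · rw [Set.disjoint_left]
    intro x hx hx'
    exact lt_asymm (show g' x (i, false) < 0 from hx) (show 0 < g' x (i, false) from hx')
  · rw [Set.disjoint_left]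
    intro x hx hx'
    exact lt_asymm (show g' x (i, true) < 0 from hx) (show 0 < g' x (i, true) from hx')
  · intro j x hx
    fin_cases j
    · show g' x (i, false) < 0
      have e1 := abs_lt.1 (h1 x (i, false))
      have e2 : f0 i x = 0 := f00 i hx
      rw [hg0, e2] at e1
      linarith [e1.1, e1.2]
    · show g' x (i, true) < 0
      have e1 := abs_lt.1 (h1 x (i, true))
      have e2 : f1 i x = 0 := f10 i hx
      rw [hg1, e2] at e1
      linarith [e1.1, e1.2]
    · show 0 < g' x (i, false)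
      have e1 := abs_lt.1 (h1 x (i, false))
      have e2 : f0 i x = 1 := f01 i hx
      rw [hg0, e2] at e1
      linarith [e1.1, e1.2]
    · show 0 < g' x (i, true)
      have e1 := abs_lt.1 (h1 x (i, true))
      have e2 : f1 i x = 1 := f11 i hx
      rw [hg1, e2] at e1
      linarith [e1.1, e1.2]
  · rw [Set.eq_empty_iff_forall_notMem]
    intro x hx
    apply h2 x (mem_univ x)
    rw [mem_iInter] at hx
    funext k
    rcases k with ⟨i, b⟩
    have hxi : ∀ j, x ∉ a i j := by
      intro j hj
      exact hx i (mem_iUnion.2 ⟨j, hj⟩)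
    have e0 : ¬ g' x (i, false) < 0 := hxi 0
    have e1 : ¬ g' x (i, true) < 0 := hxi 1
    have e2 : ¬ 0 < g' x (i, false) := hxi 2
    have e3 : ¬ 0 < g' x (i, true) := hxi 3
    cases b
    · exact le_antisymm (not_lt.1 e2) (not_lt.1 e0)
    · exact le_antisymm (not_lt.1 e3) (not_lt.1 e1)

theorem kdim_le (n : ℕ) : KDimLE cyc (Sp (Fin n × Bool)) n :=
  kdim_of_avoid n (avoid_all (by simp))

end Pool.Agent.GT63.Space
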